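import Pool.Agent.W5h30.SM.PairLaw

/-!
# Few boundary points for functions whose first two derivatives have no common zero (helper30)
-/

set_option autoImplicit false
set_option linter.unusedVariables false

namespace Pool.Agent.W5h30.SM

open MeasureTheory Set Filter
open Pool.Agent.Y933.KG Pool.Agent.W5h30.LL

variable {f f1 f2 : ℝ → ℝ} {a b c : ℝ}

lemma inj_FO (hab : a ≤ b) (hcont : ContinuousOn f (Icc a b)) (hinj : InjOn f (Icc a b)) : FO f a b := by
  classical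
  obtain ⟨α, β, hαβ, himg⟩ : ∃ α β : ℝ, α ≤ β ∧ f '' Icc a b = Icc α β := by
    have h1 := hcont.image_Icc hab
    refine ⟨_, _, ?_, h1⟩
    have h2 : (f '' Icc a b).Nonempty := ⟨f a, a, ⟨le_rfl, hab⟩, rfl⟩
    rw [h1, nonempty_Icc] at h2
    exact h2
  refine ⟨(β - α) + 3, by linarith, fun M hM => ?_⟩
  obtain ⟨N, hN⟩ : ∃ N : ℝ, N = (M : ℝ) := ⟨_, rfl⟩
  have hN1 : 1 ≤ N := by rw [hN]; exact_mod_cast hM
  have hN0 : 0 < N := by linarith
  set Q : Finset ℝ := insert a (insert b ((Finset.Icc ⌈N * α⌉ ⌊N * β⌋).image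
    (fun j : ℤ => inv f a b ((j : ℝ) / N)))) with hQ
  refine ⟨Q, ?_, ?_⟩
  · have h1 : (Q.card : ℝ) ≤ (((Finset.Icc ⌈N * α⌉ ⌊N * β⌋).card : ℕ) : ℝ) + 2 := by
      have h2 : Q.card ≤ (Finset.Icc ⌈N * α⌉ ⌊N * β⌋).card + 1 + 1 := by
        refine (Finset.card_insert_le _ _).trans (Nat.add_le_add_right ?_ 1)
        exact (Finset.card_insert_le _ _).trans (Nat.add_le_add_right Finset.card_image_le 1)
      have h3 : (Q.card : ℝ) ≤ (((Finset.Icc ⌈N * α⌉ ⌊N * β⌋).card + 1 + 1 : ℕ) : ℝ) := by exact_mod_cast h2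
      push_cast at h3
      linarith
    have h2 : (((Finset.Icc ⌈N * α⌉ ⌊N * β⌋).card : ℕ) : ℝ) ≤ N * (β - α) + 1 := by
      rw [Int.card_Icc]
      rcases le_or_gt 0 (⌊N * β⌋ + 1 - ⌈N * α⌉) with h | h
      · have h4 : (((⌊N * β⌋ + 1 - ⌈N * α⌉).toNat : ℕ) : ℝ) = ((⌊N * β⌋ + 1 - ⌈N * α⌉ : ℤ) : ℝ) := by
          have : (((⌊N * β⌋ + 1 - ⌈N * α⌉).toNat : ℕ) : ℤ) = ⌊N * β⌋ + 1 - ⌈N * α⌉ := Int.toNat_of_nonneg h
          exact_mod_cast congrArg (fun z : ℤ => (z : ℝ)) this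
        rw [h4]
        push_cast
        have h5 : (⌊N * β⌋ : ℝ) ≤ N * β := Int.floor_le _
        have h6 : N * α ≤ (⌈N * α⌉ : ℝ) := Int.le_ceil _
        linarith
      · rw [Int.toNat_of_nonpos h.le]
        push_cast
        have : 0 ≤ N * (β - α) := mul_nonneg hN0.le (by linarith)
        linarith
    rw [← hN]
    have h3 : 3 * N + N * (β - α) = ((β - α) + 3) * N := by ring
    rw [← h3]
    linarith
  · intro x y hxy hno
    have haQ : a ∈ Q := by rw [hQ]; simp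
    have hbQ : b ∈ Q := by rw [hQ]; simp
    have hIcc : x ∈ Icc a b ↔ y ∈ Icc a b := by
      refine off_Icc a b x y hxy fun z hz => ?_
      rw [Finset.mem_insert, Finset.mem_singleton] at hz
      rcases hz with rfl | rfl
      · exact hno _ haQ
      · exact hno _ hbQ
    refine ⟨hIcc, fun hx => ?_⟩
    have hy := hIcc.1 hx
    have hsub : Icc x y ⊆ Icc a b := Icc_subset_Icc hx.1 hy.2
    have hno' : ∀ t ∈ Icc x y, ∀ j : ℤ, N * f t ≠ j := by
      intro t ht j hj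
      have htab := hsub ht
      refine hno t ?_ ht
      rw [hQ, Finset.mem_insert, Finset.mem_insert, Finset.mem_image]
      right; right
      have hft : f t ∈ Icc α β := by rw [← himg]; exact ⟨t, htab, rfl⟩
      refine ⟨j, ?_, ?_⟩
      · rw [Finset.mem_Icc, Int.ceil_le, Int.le_floor, ← hj]
        exact ⟨mul_le_mul_of_nonneg_left hft.1 hN0.le, mul_le_mul_of_nonneg_left hft.2 hN0.le⟩
      · have : (j : ℝ) / N = f t := by rw [← hj]; field_simp
        rw [this]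
        exact hinj.leftInvOn_invFunOn htab
    have hivt : ∀ j : ℤ, (j : ℝ) ∉ uIcc (N * f x) (N * f y) := by
      intro j hj
      have hc : ContinuousOn (fun t => N * f t) (uIcc x y) := by
        rw [uIcc_of_le hxy.le]
        exact continuousOn_const.mul (hcont.mono hsub)
      obtain ⟨t, ht, hft⟩ := intermediate_value_uIcc hc hj
      rw [uIcc_of_le hxy.le] at ht
      exact hno' t ht j hft
    rw [← hN]
    rcases lt_trichotomy ⌊N * f x⌋ ⌊N * f y⌋ with h1 | h1 | h1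
    · exfalso
      refine hivt ⌊N * f y⌋ (mem_uIcc.2 (Or.inl ⟨?_, Int.floor_le _⟩))
      have h2 : N * f x < ⌊N * f x⌋ + 1 := Int.lt_floor_add_one _
      have h3 : (⌊N * f x⌋ : ℝ) + 1 ≤ ⌊N * f y⌋ := by exact_mod_cast h1
      linarith
    · exact h1
    · exfalso
      refine hivt ⌊N * f x⌋ (mem_uIcc.2 (Or.inr ⟨?_, Int.floor_le _⟩))
      have h2 : N * f y < ⌊N * f y⌋ + 1 := Int.lt_floor_add_one _
      have h3 : (⌊N * f y⌋ : ℝ) + 1 ≤ ⌊N * f x⌋ := by exact_mod_cast h1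
      linarith

lemma FO.union (hac : a ≤ c) (hcb : c ≤ b) (h1 : FO f a c) (h2 : FO f c b) : FO f a b := by
  classical
  obtain ⟨C1, hC1, h1⟩ := h1
  obtain ⟨C2, hC2, h2⟩ := h2
  refine ⟨C1 + C2, by positivity, fun N hN => ?_⟩
  obtain ⟨Q1, hQ1, k1⟩ := h1 N hN
  obtain ⟨Q2, hQ2, k2⟩ := h2 N hN
  refine ⟨Q1 ∪ Q2, ?_, fun x y hxy hno => ?_⟩
  · have h3 : ((Q1 ∪ Q2).card : ℝ) ≤ Q1.card + Q2.card := by exact_mod_cast Finset.card_union_le _ _
    rw [add_mul]
    linarith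
  · obtain ⟨a1, a2⟩ := k1 x y hxy fun z hz => hno z (Finset.mem_union_left _ hz)
    obtain ⟨b1, b2⟩ := k2 x y hxy fun z hz => hno z (Finset.mem_union_right _ hz)
    have hun : ∀ t, t ∈ Icc a b ↔ t ∈ Icc a c ∨ t ∈ Icc c b := by
      intro t
      rw [← Icc_union_Icc_eq_Icc hac hcb]
      exact Iff.rfl
    constructor
    · rw [hun, hun, a1, b1]
    · intro hx
      rcases (hun x).1 hx with h | h
      · exact a2 h
      · exact b2 h

/-- on short intervals the function is injective or has one turning point -/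
lemma short_FO (hf1 : ∀ x ∈ Icc a b, HasDerivAt f (f1 x) x) (hf2 : ∀ x ∈ Icc a b, HasDerivAt f1 (f2 x) x)
    (hab : a ≤ b) (h : (∀ x ∈ Icc a b, f1 x ≠ 0) ∨ (∀ x ∈ Icc a b, f2 x ≠ 0)) : FO f a b := by
  have hc : ContinuousOn f (Icc a b) := fun x hx => (hf1 x hx).continuousAt.continuousWithinAt
  have hc1 : ContinuousOn f1 (Icc a b) := fun x hx => (hf2 x hx).continuousAt.continuousWithinAt
  -- Rolle
  have rolle : ∀ (g g' : ℝ → ℝ) (u v : ℝ), a ≤ u → v ≤ b → ContinuousOn g (Icc u v) →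
      (∀ x ∈ Ioo u v, HasDerivAt g (g' x) x) → (∀ x ∈ Ioo u v, g' x ≠ 0) → InjOn g (Icc u v) := by
    intro g g' u v hu hv hcg hd hne x hx y hy hxy
    by_contra hcon
    rcases lt_or_gt_of_ne hcon with hlt | hlt
    · obtain ⟨z, hz, hz0⟩ := exists_hasDerivAt_eq_zero (f := g) (f' := g') hlt
        (hcg.mono (Icc_subset_Icc hx.1 hy.2)) hxy (fun w hw => hd w ⟨hx.1.trans_lt hw.1, hw.2.trans_le hy.2⟩)
      exact hne z ⟨hx.1.trans_lt hz.1, hz.2.trans_le hy.2⟩ hz0
    · obtain ⟨z, hz, hz0⟩ := exists_hasDerivAt_eq_zero (f := g) (f' := g') hlt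
        (hcg.mono (Icc_subset_Icc hy.1 hx.2)) hxy.symm (fun w hw => hd w ⟨hy.1.trans_lt hw.1, hw.2.trans_le hx.2⟩)
      exact hne z ⟨hy.1.trans_lt hz.1, hz.2.trans_le hx.2⟩ hz0
  rcases h with h | h
  · refine inj_FO hab hc (rolle f f1 a b le_rfl le_rfl hc (fun x hx => hf1 x (Ioo_subset_Icc_self hx))
      fun x hx => h x (Ioo_subset_Icc_self hx))
  · -- the derivative is injective
    have hinj1 : InjOn f1 (Icc a b) := rolle f1 f2 a b le_rfl le_rfl hc1
      (fun x hx => hf2 x (Ioo_subset_Icc_self hx)) fun x hx => h x (Ioo_subset_Icc_self hx)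
    by_cases hz : ∃ c ∈ Icc a b, f1 c = 0
    · obtain ⟨c, hc0, hc2⟩ := hz
      have hne : ∀ x ∈ Icc a b, x ≠ c → f1 x ≠ 0 := by
        intro x hx hxc h0
        exact hxc (hinj1 hx hc0 (by rw [h0, hc2]))
      refine FO.union hc0.1 hc0.2 ?_ ?_
      · refine inj_FO hc0.1 (hc.mono (Icc_subset_Icc le_rfl hc0.2)) ?_
        refine rolle f f1 a c le_rfl hc0.2 (hc.mono (Icc_subset_Icc le_rfl hc0.2))
          (fun x hx => hf1 x ⟨hx.1.le, hx.2.le.trans hc0.2⟩)
          fun x hx => hne x ⟨hx.1.le, hx.2.le.trans hc0.2⟩ hx.2.ne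
      · refine inj_FO hc0.2 (hc.mono (Icc_subset_Icc hc0.1 le_rfl)) ?_
        refine rolle f f1 c b hc0.1 le_rfl (hc.mono (Icc_subset_Icc hc0.1 le_rfl))
          (fun x hx => hf1 x ⟨hc0.1.trans hx.1.le, hx.2.le⟩)
          fun x hx => hne x ⟨hc0.1.trans hx.1.le, hx.2.le⟩ hx.1.ne'
    · push Not at hz
      exact inj_FO hab hc (rolle f f1 a b le_rfl le_rfl hc (fun x hx => hf1 x (Ioo_subset_Icc_self hx))
        fun x hx => hz x (Ioo_subset_Icc_self hx))

/-- few boundary points if the first two derivatives have no common zero -/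
theorem curve_FO (hab : a < b) (hf1 : ∀ x ∈ Icc a b, HasDerivAt f (f1 x) x)
    (hf2 : ∀ x ∈ Icc a b, HasDerivAt f1 (f2 x) x) (cf2 : ContinuousOn f2 (Icc a b))
    (hne : ∀ x ∈ Icc a b, f1 x ≠ 0 ∨ f2 x ≠ 0) : FO f a b := by
  have cf1 : ContinuousOn f1 (Icc a b) := fun x hx => (hf2 x hx).continuousAt.continuousWithinAt
  -- lower bound for the sum
  have hc : ContinuousOn (fun x => |f1 x| + |f2 x|) (Icc a b) := cf1.abs.add cf2.abs
  obtain ⟨t0, ht0, hmin⟩ := isCompact_Icc.exists_isMinOn (nonempty_Icc.2 hab.le) hc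
  obtain ⟨κ, hκ⟩ : ∃ κ : ℝ, κ = |f1 t0| + |f2 t0| := ⟨_, rfl⟩
  have hκ0 : 0 < κ := by
    rw [hκ]
    rcases hne t0 ht0 with h | h
    · have := abs_pos.2 h
      have := abs_nonneg (f2 t0)
      linarith
    · have := abs_pos.2 h
      have := abs_nonneg (f1 t0)
      linarith
  have hlow : ∀ x ∈ Icc a b, κ ≤ |f1 x| + |f2 x| := fun x hx => by rw [hκ]; exact hmin hx
  obtain ⟨d1, hd1, m1⟩ := unif_mod cf1 (show 0 < κ / 4 by positivity)
  obtain ⟨d2, hd2, m2⟩ := unif_mod cf2 (show 0 < κ / 4 by positivity)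
  obtain ⟨N, hN⟩ : ∃ N : ℕ, (b - a) / min d1 d2 < N := exists_nat_gt _
  have hdpos : 0 < min d1 d2 := lt_min hd1 hd2
  have hba : 0 < b - a := by linarith
  have hN0 : (0 : ℝ) < N := lt_trans (by positivity) hN
  have hNpos : 0 < N := by exact_mod_cast hN0
  have hstep : (b - a) / N ≤ min d1 d2 := by
    rw [div_lt_iff₀ hdpos] at hN
    rw [div_le_iff₀ hN0]
    linarith
  -- the pieces
  have hpiece : ∀ i : ℕ, i < N → FO f (tp a b N i) (tp a b N (i + 1)) := by
    intro i hi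
    have ht0 := tp_mem hab hNpos hi.le
    have ht1 := tp_mem hab hNpos (Nat.succ_le_of_lt hi)
    rw [Nat.succ_eq_add_one] at ht1
    have hs := tp_succ a b hNpos i
    have hℓ : 0 < (b - a) / (N : ℝ) := by positivity
    have hle : tp a b N i ≤ tp a b N (i + 1) := by linarith
    have hsub : ∀ x ∈ Icc (tp a b N i) (tp a b N (i + 1)), x ∈ Icc a b :=
      fun x hx => ⟨ht0.1.trans hx.1, hx.2.trans ht1.2⟩
    refine short_FO (fun x hx => hf1 x (hsub x hx)) (fun x hx => hf2 x (hsub x hx)) hle ?_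
    have hdist : ∀ x ∈ Icc (tp a b N i) (tp a b N (i + 1)), |x - tp a b N i| ≤ min d1 d2 := by
      intro x hx
      rw [abs_of_nonneg (by linarith [hx.1])]
      linarith [hx.2]
    have h1 := hlow _ ht0
    rcases le_or_gt (κ / 2) |f1 (tp a b N i)| with h | h
    · left
      intro x hx h0
      have h2 := m1 x (hsub x hx) _ ht0 ((hdist x hx).trans (min_le_left _ _))
      rw [h0, zero_sub, abs_neg] at h2
      linarith
    · right
      intro x hx h0
      have h2 := m2 x (hsub x hx) _ ht0 ((hdist x hx).trans (min_le_right _ _))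
      rw [h0, zero_sub, abs_neg] at h2
      linarith
  have hind : ∀ i : ℕ, i < N → FO f a (tp a b N (i + 1)) := by
    intro i
    induction i with
    | zero =>
      intro hi
      have := hpiece 0 hi
      rwa [tp_zero] at this
    | succ i ih =>
      intro hi
      have ht0 := tp_mem hab hNpos (Nat.le_of_lt hi)
      have hs := tp_succ a b hNpos (i + 1)
      have hℓ : 0 < (b - a) / (N : ℝ) := by positivity
      exact FO.union ht0.1 (by linarith) (ih (by omega)) (hpiece (i + 1) hi)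
  have h := hind (N - 1) (by omega)
  rw [Nat.sub_add_cancel hNpos, tp_last a b hNpos] at h
  exact h

end Pool.Agent.W5h30.SM
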