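import Mathlib

/-!
# Functions with few values (helper30)
-/

set_option autoImplicit false

namespace Pool.Agent.W5h30.SM

open Set

/-- a function that is constant between the points of a finite set has few values -/
lemma few_values {X : Type} (c : ℝ → X) (a b : ℝ) (Q : Finset ℝ)
    (hc : ∀ x y : ℝ, x < y → (∀ z ∈ Q, z ∉ Icc x y) → x ∈ Icc a b → y ∈ Icc a b → c x = c y) :
    ∃ E : Finset X, E.card ≤ 2 * Q.card + 1 ∧ (∀ t ∈ Icc a b, c t ∈ E) ∧ ∀ e ∈ E, ∃ t, e = c t := by
  classical
  set cnt : ℝ → ℕ := fun x => (Q.filter (fun z => z < x)).card with hcnt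
  set rep : ℕ → ℝ := fun i => if h : ∃ x, x ∈ Icc a b ∧ x ∉ Q ∧ cnt x = i then h.choose else a with hrep
  refine ⟨Q.image c ∪ (Finset.range (Q.card + 1)).image (fun i => c (rep i)), ?_, ?_, ?_⟩
  · refine (Finset.card_union_le _ _).trans ?_
    have h1 : (Q.image c).card ≤ Q.card := Finset.card_image_le
    have h2 : ((Finset.range (Q.card + 1)).image (fun i => c (rep i))).card ≤ Q.card + 1 := by
      refine Finset.card_image_le.trans ?_
      rw [Finset.card_range]
    omega
  · intro t ht
    rw [Finset.mem_union]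
    by_cases htQ : t ∈ Q
    · left
      exact Finset.mem_image_of_mem _ htQ
    · right
      rw [Finset.mem_image]
      refine ⟨cnt t, ?_, ?_⟩
      · rw [Finset.mem_range]
        have : cnt t ≤ Q.card := Finset.card_le_card (Finset.filter_subset _ _)
        omega
      · have hex : ∃ x, x ∈ Icc a b ∧ x ∉ Q ∧ cnt x = cnt t := ⟨t, ht, htQ, rfl⟩
        have hr : rep (cnt t) = hex.choose := by
          rw [hrep]
          simp only [dif_pos hex]
        obtain ⟨h1, h2, h3⟩ := hex.choose_spec
        rw [hr]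
        obtain ⟨x, hx⟩ : ∃ x, x = hex.choose := ⟨_, rfl⟩
        rw [← hx] at h1 h2 h3 ⊢
        have key : ∀ u v : ℝ, u < v → v ∉ Q → cnt u = cnt v → ∀ z ∈ Q, z ∉ Icc u v := by
          intro u v huv hv huv2 z hz hzI
          have hsub : Q.filter (fun z => z < u) ⊆ Q.filter (fun z => z < v) := by
            intro w hw
            rw [Finset.mem_filter] at hw ⊢
            exact ⟨hw.1, hw.2.trans huv⟩
          have heq := Finset.eq_of_subset_of_card_le hsub (le_of_eq huv2.symm)
          have hzv : z < v := by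
            refine lt_of_le_of_ne hzI.2 ?_
            rintro rfl
            exact hv hz
          have hz1 : z ∈ Q.filter (fun z => z < v) := Finset.mem_filter.2 ⟨hz, hzv⟩
          rw [← heq, Finset.mem_filter] at hz1
          exact absurd hzI.1 (not_le.2 hz1.2)
        rcases lt_trichotomy x t with h4 | h4 | h4
        · exact hc x t h4 (key x t h4 htQ h3) h1 ht
        · rw [h4]
        · exact (hc t x h4 (key t x h4 h2 h3.symm) ht h1).symm
  · intro e he
    rw [Finset.mem_union, Finset.mem_image, Finset.mem_image] at he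
    rcases he with ⟨x, _, rfl⟩ | ⟨i, _, rfl⟩
    · exact ⟨x, rfl⟩
    · exact ⟨rep i, rfl⟩

lemma num3 {C1 Ec z y P : ℝ} (h4 : Ec ≤ (2 * C1 + 1) * z) (h8 : z * (y * y) ≤ 2 * P)
    (g : 2 * (2 * C1 + 1) ≤ y) (hy : 0 < y) (hz : 0 ≤ z) : Ec * y ≤ P := by
  have h1 : Ec * y ≤ (2 * C1 + 1) * z * y := mul_le_mul_of_nonneg_right h4 hy.le
  have h2 : (2 * C1 + 1) * z * y ≤ (y / 2) * z * y := by
    have : 2 * C1 + 1 ≤ y / 2 := by linarith
    exact mul_le_mul_of_nonneg_right (mul_le_mul_of_nonneg_right this hz) hy.le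
  have h3 : (y / 2) * z * y = z * (y * y) / 2 := by ring
  linarith

end Pool.Agent.W5h30.SM
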