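import Pool.Agent.W5h30.SM.Cells

/-!
# Smoothing: joint laws of the cells of a random point of a torus, main inequality (helper30)
-/

set_option autoImplicit false
set_option linter.unusedSectionVars false
set_option linter.unusedVariables false

namespace Pool.Agent.W5h30.SM

open Finset Real MeasureTheory Pool.Agent.Y933.KD

variable {ι : Type} [Fintype ι] [DecidableEq ι]
variable {Ω : Type*} [MeasurableSpace Ω]

/-- the `L²` size of the Fourier coefficients -/
noncomputable def D2 (μ : Measure Ω) (u : ι → Ω → ℝ) (K : ι → ℕ) (J : ℕ) : ℝ :=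
  √(∑ k ∈ (box (rad K J)).erase 0, ‖hat μ u k‖ ^ 2)

lemma D2_nonneg (μ : Measure Ω) (u : ι → Ω → ℝ) (K : ι → ℕ) (J : ℕ) : 0 ≤ D2 μ u K J :=
  Real.sqrt_nonneg _

lemma D2_sq (μ : Measure Ω) (u : ι → Ω → ℝ) (K : ι → ℕ) (J : ℕ) :
    D2 μ u K J ^ 2 = ∑ k ∈ (box (rad K J)).erase 0, ‖hat μ u k‖ ^ 2 :=
  Real.sq_sqrt (sum_nonneg fun _ _ => by positivity)

lemma hat_single (μ : Measure Ω) (u : ι → Ω → ℝ) (j : ι) (l : ℤ) :
    hat μ u (Pi.single j l) = ∫ ω, e (l * u j ω) ∂μ := by
  unfold hat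
  congr 1
  funext ω
  congr 1
  rw [sum_eq_single j]
  · rw [Pi.single_eq_same]
  · intro i _ hi
    rw [Pi.single_eq_of_ne hi]
    simp
  · intro h
    exact absurd (mem_univ j) h

lemma F_meas (J : ℕ) {f : Ω → ℝ} (hf : Measurable f) : Measurable fun ω => F J (f ω) := by
  have h : Continuous (F J) := by
    unfold F D
    refine continuous_const.mul (Continuous.pow (Continuous.norm ?_) 2)
    refine continuous_finsetSum _ fun i _ => continuous_e.comp ?_
    fun_prop
  exact h.measurable.comp hf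

lemma F_le_card (J : ℕ) (x : ℝ) : F J x ≤ J := by
  unfold F
  rcases Nat.eq_zero_or_pos J with rfl | hJ
  · simp
  have hJR : (0 : ℝ) < J := by exact_mod_cast hJ
  have h : ‖D J x‖ ≤ J := by
    unfold D
    refine (norm_sum_le _ _).trans ?_
    simp [norm_e]
  calc 1 / (J : ℝ) * ‖D J x‖ ^ 2 ≤ 1 / (J : ℝ) * (J : ℝ) ^ 2 := by gcongr
    _ = (J : ℝ) := by field_simp

lemma int_F (μ : Measure Ω) [IsProbabilityMeasure μ] (K : ι → ℕ) (hK : ∀ j, 0 < K j) {J : ℕ}
    (hJ : 0 < J) (u : ι → Ω → ℝ) (hu : ∀ j, Measurable (u j)) (j : ι) :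
    ∫ ω, F J (K j * u j ω) ∂μ ≤ 1 + √J * D2 μ u K J := by
  have hJR : (0 : ℝ) < J := by exact_mod_cast hJ
  set h : ℤ → ℝ := fun l => ‖hat μ u (Pi.single j (l * (K j : ℤ)))‖ with hh
  have h1 : ((∫ ω, F J (K j * u j ω) ∂μ : ℝ) : ℂ) =
      (1 / J) * ∑ p ∈ range J ×ˢ range J, hat μ u (Pi.single j (((p.1 : ℤ) - (p.2 : ℤ)) * (K j : ℤ))) := by
    rw [← integral_complex_ofReal]
    simp only [F_expand]
    rw [integral_const_mul, integral_finsetSum]
    · congr 1
      refine sum_congr rfl fun p _ => ?_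
      rw [hat_single]
      congr 1
      funext ω
      congr 1
      push_cast
      ring
    · intro p _
      exact e_int' μ (((hu j).const_mul _).const_mul _)
  have h2 : ∫ ω, F J (K j * u j ω) ∂μ ≤ (1 / J) * ∑ p ∈ range J ×ˢ range J, h ((p.1 : ℤ) - (p.2 : ℤ)) := by
    calc ∫ ω, F J (K j * u j ω) ∂μ ≤ ‖((∫ ω, F J (K j * u j ω) ∂μ : ℝ) : ℂ)‖ := by
          rw [Complex.norm_real]
          exact le_abs_self _
      _ = ‖(1 / (J : ℂ)) * ∑ p ∈ range J ×ˢ range J,
            hat μ u (Pi.single j (((p.1 : ℤ) - (p.2 : ℤ)) * (K j : ℤ)))‖ := by rw [h1]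
      _ ≤ (1 / J) * ∑ p ∈ range J ×ˢ range J, h ((p.1 : ℤ) - (p.2 : ℤ)) := by
          rw [norm_mul]
          have h3 : ‖(1 / (J : ℂ))‖ = 1 / J := by simp
          rw [h3]
          gcongr
          exact norm_sum_le _ _
  refine h2.trans ?_
  have h4 : ∀ i ∈ range J, ∑ i' ∈ range J, h ((i : ℤ) - (i' : ℤ)) ≤ 1 + √J * D2 μ u K J := by
    intro i hi
    rw [← add_sum_erase _ _ hi]
    have h5 : h ((i : ℤ) - (i : ℤ)) ≤ 1 := hat_le μ u _
    have h6 : ∑ i' ∈ (range J).erase i, h ((i : ℤ) - (i' : ℤ)) ≤ √J * D2 μ u K J := by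
      have hq : (∑ i' ∈ (range J).erase i, h ((i : ℤ) - (i' : ℤ))) ^ 2 ≤ J * D2 μ u K J ^ 2 := by
        refine (sq_sum_le_card_mul_sum_sq).trans ?_
        have h7 : (((range J).erase i).card : ℝ) ≤ J := by
          have := card_erase_le (s := range J) (a := i)
          rw [card_range] at this
          exact_mod_cast this
        have h8 : ∑ i' ∈ (range J).erase i, h ((i : ℤ) - (i' : ℤ)) ^ 2 ≤ D2 μ u K J ^ 2 := by
          rw [D2_sq]
          have hinj : Set.InjOn (fun i' : ℕ => (Pi.single j (((i : ℤ) - (i' : ℤ)) * (K j : ℤ)) : ι → ℤ))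
              ((range J).erase i : Finset ℕ) := by
            intro a _ b _ hab
            have hab' := congrFun hab j
            simp only [Pi.single_eq_same] at hab'
            have hKj : (K j : ℤ) ≠ 0 := by exact_mod_cast (hK j).ne'
            have := mul_right_cancel₀ hKj hab'
            omega
          have h9 : ∑ i' ∈ (range J).erase i, h ((i : ℤ) - (i' : ℤ)) ^ 2 =
              ∑ k ∈ ((range J).erase i).image
                (fun i' : ℕ => (Pi.single j (((i : ℤ) - (i' : ℤ)) * (K j : ℤ)) : ι → ℤ)), ‖hat μ u k‖ ^ 2 := by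
            rw [sum_image (fun x hx y hy hxy => hinj hx hy hxy)]
          rw [h9]
          refine sum_le_sum_of_subset_of_nonneg ?_ fun _ _ _ => by positivity
          intro k hk
          rw [mem_image] at hk
          obtain ⟨i', hi', rfl⟩ := hk
          rw [mem_erase, mem_range] at hi'
          rw [mem_range] at hi
          have hKj : (0 : ℤ) < (K j : ℤ) := by exact_mod_cast hK j
          rw [mem_erase]
          constructor
          · intro h0
            have h10 := congrFun h0 j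
            simp only [Pi.single_eq_same, Pi.zero_apply] at h10
            rcases mul_eq_zero.1 h10 with h11 | h11
            · exact hi'.1 (by omega)
            · omega
          · unfold box
            rw [Fintype.mem_piFinset]
            intro l
            have hKl : (0 : ℤ) < (K l : ℤ) := by exact_mod_cast hK l
            have hJZ : (1 : ℤ) ≤ (J : ℤ) := by exact_mod_cast hJ
            by_cases hl : l = j
            · subst hl
              rw [Pi.single_eq_same, mem_Ioo]
              unfold rad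
              push_cast
              have e1 : (i : ℤ) - i' < J := by omega
              have e2 : -(J : ℤ) < (i : ℤ) - i' := by omega
              have e4 : (J : ℤ) ≤ (J : ℤ) ^ 2 := by nlinarith
              have e3 : (K l : ℤ) * J ≤ K l * (J : ℤ) ^ 2 := mul_le_mul_of_nonneg_left e4 hKl.le
              have e5 : ((i : ℤ) - i') * K l < J * K l := mul_lt_mul_of_pos_right e1 hKl
              have e6 : -(J : ℤ) * K l < ((i : ℤ) - i') * K l := mul_lt_mul_of_pos_right e2 hKl
              constructor <;> nlinarith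
            · rw [Pi.single_eq_of_ne hl, mem_Ioo]
              unfold rad
              push_cast
              have : (0 : ℤ) < K l * (J : ℤ) ^ 2 := by positivity
              constructor <;> linarith
        exact mul_le_mul h7 h8 (sum_nonneg fun _ _ => by positivity) hJR.le
      have hq2 := Real.le_sqrt_of_sq_le hq
      rw [Real.sqrt_mul hJR.le, Real.sqrt_sq (D2_nonneg _ _ _ _)] at hq2
      exact hq2
    linarith
  rw [sum_product]
  calc (1 / (J : ℝ)) * ∑ i ∈ range J, ∑ i' ∈ range J, h ((i : ℤ) - (i' : ℤ))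
      ≤ (1 / (J : ℝ)) * ∑ i ∈ range J, (1 + √J * D2 μ u K J) := by
        gcongr with i hi
        exact h4 i hi
    _ = 1 + √J * D2 μ u K J := by
        rw [sum_const, card_range, nsmul_eq_mul]
        field_simp

lemma Bd_meas (K J : ℕ) : Measurable (Bd K J) := by
  unfold Bd
  have h1 : ∀ x : ℝ, ∑ y ∈ (range (4 * (K * J ^ 2))).filter (fun y => y / (4 * J ^ 2) ≠ cell K x),
      Ph (K * J ^ 2) (x - y / (4 * (K * J ^ 2) : ℕ)) =
      ∑ y ∈ range (4 * (K * J ^ 2)), if y / (4 * J ^ 2) ≠ cell K x then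
      Ph (K * J ^ 2) (x - y / (4 * (K * J ^ 2) : ℕ)) else 0 := by
    intro x
    rw [sum_filter]
  simp only [h1]
  refine Finset.measurable_sum _ fun y _ => ?_
  have hcell : Measurable (cell K) := by
    unfold cell
    exact (measurable_const.mul measurable_fract).nat_floor
  refine Measurable.ite ?_ ((Ph_cont _).measurable.comp (measurable_id.sub_const _)) measurable_const
  have : {x : ℝ | y / (4 * J ^ 2) ≠ cell K x} = (cell K) ⁻¹' {c | y / (4 * J ^ 2) ≠ c} := rfl
  rw [this]
  exact hcell trivial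

lemma cell_meas (K : ℕ) : Measurable (cell K) := by
  unfold cell
  exact (measurable_const.mul measurable_fract).nat_floor

/-- **smoothing inequality** -/
theorem smooth (μ : Measure Ω) [IsProbabilityMeasure μ] (K : ι → ℕ) (hK : ∀ j, 0 < K j) {J : ℕ}
    (hJ : 0 < J) (u : ι → Ω → ℝ) (hu : ∀ j, Measurable (u j)) (E : Finset (ι → ℕ))
    (hE : ∀ a ∈ E, ∀ j, a j < K j) :
    |(∫ ω, (if (fun j => cell (K j) (u j ω)) ∈ E then (1 : ℝ) else 0) ∂μ) -
      (E.card : ℝ) / ∏ j, (K j : ℝ)| ≤
      Fintype.card ι * (5 / J) + (4 * Fintype.card ι + 1) * D2 μ u K J := by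
  classical
  have hJR : (0 : ℝ) < J := by exact_mod_cast hJ
  have hJ1 : (1 : ℝ) ≤ J := by exact_mod_cast hJ
  have hR : ∀ j, 0 < rad K J j := fun j => by
    unfold rad
    have := hK j
    positivity
  obtain ⟨Dn, hDn⟩ : ∃ Dn : ℝ, Dn = D2 μ u K J := ⟨_, rfl⟩
  have hD0 : 0 ≤ Dn := by rw [hDn]; exact D2_nonneg _ _ _ _
  -- measurability
  have hmc : Measurable fun ω => (fun j => cell (K j) (u j ω)) := by
    refine measurable_pi_lambda _ fun j => ?_
    exact (cell_meas (K j)).comp (hu j)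
  have hind : Integrable (fun ω => (if (fun j => cell (K j) (u j ω)) ∈ E then (1 : ℝ) else 0)) μ := by
    refine Integrable.of_bound ?_ 1 (Filter.Eventually.of_forall fun ω => ?_)
    · refine Measurable.aestronglyMeasurable ?_
      refine Measurable.ite ?_ measurable_const measurable_const
      exact hmc (E.finite_toSet.measurableSet)
    · split_ifs <;> simp
  have hsum : Integrable (fun ω => ∑ y ∈ A K J E, Q (rad K J) (fun j => u j ω) y) μ :=
    integrable_finsetSum _ fun y _ => Q_int μ (rad K J) hR u hu y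
  have hBi : ∀ j, Integrable (fun ω => Bd (K j) J (u j ω)) μ := by
    intro j
    refine Integrable.of_bound ((Bd_meas (K j) J).comp (hu j)).aestronglyMeasurable 1
      (Filter.Eventually.of_forall fun ω => ?_)
    rw [Real.norm_eq_abs, abs_of_nonneg (Bd_nonneg _ _ _)]
    exact Bd_le_one (hK j) hJ _
  -- first step
  have h1 : |(∫ ω, (if (fun j => cell (K j) (u j ω)) ∈ E then (1 : ℝ) else 0) ∂μ) -
      ∫ ω, ∑ y ∈ A K J E, Q (rad K J) (fun j => u j ω) y ∂μ| ≤ ∑ j, ∫ ω, Bd (K j) J (u j ω) ∂μ := by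
    rw [← integral_sub hind hsum]
    refine (abs_integral_le_integral_abs).trans ?_
    rw [← integral_finsetSum _ fun j _ => hBi j]
    refine integral_mono (hind.sub hsum).abs (integrable_finsetSum _ fun j _ => hBi j) fun ω => ?_
    exact comp K hK hJ E fun j => u j ω
  have h2 : ∀ j, ∫ ω, Bd (K j) J (u j ω) ∂μ ≤ 5 / J + 4 * Dn := by
    intro j
    have hFi : Integrable (fun ω => F J (K j * u j ω)) μ := by
      refine Integrable.of_bound (F_meas J ((hu j).const_mul _)).aestronglyMeasurable J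
        (Filter.Eventually.of_forall fun ω => ?_)
      rw [Real.norm_eq_abs, abs_of_nonneg (F_nonneg _ _)]
      exact F_le_card _ _
    have h3 : ∫ ω, Bd (K j) J (u j ω) ∂μ ≤
        ∫ ω, (2 / (J : ℝ) ^ 2 + π ^ 2 / (4 * J) * F J (K j * u j ω)) ∂μ := by
      refine integral_mono (hBi j) ((integrable_const _).add (hFi.const_mul _)) fun ω => ?_
      exact Bd_le (hK j) hJ _
    rw [integral_add (integrable_const _) (hFi.const_mul _), integral_const_mul] at h3
    have h4 := int_F μ K hK hJ u hu j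
    rw [← hDn] at h4
    have h5 : ∫ ω : Ω, 2 / (J : ℝ) ^ 2 ∂μ = 2 / (J : ℝ) ^ 2 := by simp
    rw [h5] at h3
    have hpi : π ^ 2 ≤ 10 := by nlinarith [pi_lt_d2, pi_pos]
    have h6 : π ^ 2 / (4 * J) * ∫ ω, F J (K j * u j ω) ∂μ ≤ 10 / (4 * J) * (1 + √J * Dn) := by
      have h7 : 0 ≤ ∫ ω, F J (K j * u j ω) ∂μ := integral_nonneg fun _ => F_nonneg _ _
      exact mul_le_mul (div_le_div_of_nonneg_right hpi (by positivity)) h4 h7 (by positivity)
    have h8 : 2 / (J : ℝ) ^ 2 ≤ 2 / J := by
      apply div_le_div_of_nonneg_left (by norm_num) hJR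
      nlinarith
    have h9 : √(J : ℝ) ≤ J := by
      rw [Real.sqrt_le_left (by linarith)]
      nlinarith
    have h10 : 10 / (4 * J) * (1 + √J * Dn) ≤ 10 / (4 * (J : ℝ)) + 10 / 4 * Dn := by
      have h11 : 10 / (4 * (J : ℝ)) * (√J * Dn) ≤ 10 / (4 * (J : ℝ)) * (J * Dn) := by gcongr
      have h12 : 10 / (4 * (J : ℝ)) * (J * Dn) = 10 / 4 * Dn := by field_simp
      calc 10 / (4 * J) * (1 + √J * Dn) = 10 / (4 * (J : ℝ)) + 10 / (4 * (J : ℝ)) * (√J * Dn) := by ring
        _ ≤ _ := by linarith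
    have h14 : 2 / (J : ℝ) + 10 / (4 * (J : ℝ)) ≤ 5 / J := by
      rw [show 10 / (4 * (J : ℝ)) = (5 / 2) / J by field_simp; norm_num, ← add_div]
      gcongr
      norm_num
    linarith
  -- second step
  have h3 : |(∫ ω, ∑ y ∈ A K J E, Q (rad K J) (fun j => u j ω) y ∂μ) -
      (E.card : ℝ) / ∏ j, (K j : ℝ)| ≤ Dn := by
    rw [integral_finsetSum _ fun y _ => Q_int μ (rad K J) hR u hu y]
    obtain ⟨P, hP⟩ : ∃ P : ℝ, P = ∏ j, (1 / ((4 * rad K J j : ℕ) : ℝ)) := ⟨_, rfl⟩
    have hPpos : 0 < P := by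
      rw [hP]
      refine prod_pos fun j _ => ?_
      have := hR j
      positivity
    have hprod : (∏ j, (K j : ℝ)) * (∏ j : ι, ((4 * J ^ 2 : ℕ) : ℝ)) * P = 1 := by
      rw [hP, ← prod_mul_distrib, ← prod_mul_distrib]
      refine prod_eq_one fun j _ => ?_
      have hKj : (0 : ℝ) < K j := by exact_mod_cast hK j
      unfold rad
      push_cast
      field_simp
    have hKp : 0 < ∏ j, (K j : ℝ) := prod_pos fun j _ => by exact_mod_cast hK j
    have hcard : (E.card : ℝ) / ∏ j, (K j : ℝ) = ((A K J E).card : ℝ) * P := by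
      rw [card_A K hJ E hE]
      push_cast
      rw [div_eq_iff hKp.ne']
      have h4 : ∏ j : ι, ((4 * J ^ 2 : ℕ) : ℝ) = (4 * (J : ℝ) ^ 2) ^ (Fintype.card ι) := by
        simp [prod_const, card_univ]
      have h5 : (4 * (J : ℝ) ^ 2) ^ (Fintype.card ι) * P * ∏ j, (K j : ℝ) = 1 := by
        rw [← h4, ← hprod]
        ring
      calc (E.card : ℝ) = E.card * ((4 * (J : ℝ) ^ 2) ^ (Fintype.card ι) * P * ∏ j, (K j : ℝ)) := by
            rw [h5, mul_one]
        _ = _ := by ring
    rw [hcard]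
    have h4 : ∑ y ∈ A K J E, (∫ ω, Q (rad K J) (fun j => u j ω) y ∂μ) - ((A K J E).card : ℝ) * P =
        ∑ y ∈ A K J E, ((∫ ω, Q (rad K J) (fun j => u j ω) y ∂μ) - P) := by
      rw [sum_sub_distrib, sum_const, nsmul_eq_mul]
    rw [h4]
    have h5 := l2 μ (rad K J) hR u hu
    rw [← hP] at h5
    have h6 : (∑ y ∈ A K J E, ((∫ ω, Q (rad K J) (fun j => u j ω) y ∂μ) - P)) ^ 2 ≤ Dn ^ 2 := by
      refine (sq_sum_le_card_mul_sum_sq).trans ?_
      have h7 : ∑ y ∈ A K J E, ((∫ ω, Q (rad K J) (fun j => u j ω) y ∂μ) - P) ^ 2 ≤ P * Dn ^ 2 := by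
        rw [hDn, D2_sq]
        refine le_trans ?_ h5
        exact sum_le_sum_of_subset_of_nonneg (filter_subset _ _) fun _ _ _ => sq_nonneg _
      have h8 : ((A K J E).card : ℝ) * P ≤ 1 := by
        have h9 : (A K J E).card ≤ (grid (rad K J)).card := card_le_card (filter_subset _ _)
        have h10 : ((grid (rad K J)).card : ℝ) * P = 1 := by
          unfold grid
          rw [Fintype.card_piFinset, hP]
          push_cast
          rw [← prod_mul_distrib]
          refine prod_eq_one fun j _ => ?_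
          have := hR j
          rw [card_range]
          push_cast
          have h11 : (0 : ℝ) < rad K J j := by exact_mod_cast this
          field_simp
        calc ((A K J E).card : ℝ) * P ≤ ((grid (rad K J)).card : ℝ) * P := by
              gcongr
          _ = 1 := h10
      calc ((A K J E).card : ℝ) * ∑ y ∈ A K J E, ((∫ ω, Q (rad K J) (fun j => u j ω) y ∂μ) - P) ^ 2
          ≤ ((A K J E).card : ℝ) * (P * Dn ^ 2) := by gcongr
        _ = ((A K J E).card : ℝ) * P * Dn ^ 2 := by ring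
        _ ≤ 1 * Dn ^ 2 := by gcongr
        _ = Dn ^ 2 := one_mul _
    exact abs_le_of_sq_le_sq h6 hD0
  rw [← hDn]
  calc |(∫ ω, (if (fun j => cell (K j) (u j ω)) ∈ E then (1 : ℝ) else 0) ∂μ) -
      (E.card : ℝ) / ∏ j, (K j : ℝ)|
      ≤ |(∫ ω, (if (fun j => cell (K j) (u j ω)) ∈ E then (1 : ℝ) else 0) ∂μ) -
      ∫ ω, ∑ y ∈ A K J E, Q (rad K J) (fun j => u j ω) y ∂μ| +
      |(∫ ω, ∑ y ∈ A K J E, Q (rad K J) (fun j => u j ω) y ∂μ) -
      (E.card : ℝ) / ∏ j, (K j : ℝ)| := abs_sub_le _ _ _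
    _ ≤ ∑ j : ι, (5 / J + 4 * Dn) + Dn := by
        refine add_le_add (h1.trans (sum_le_sum fun j _ => h2 j)) h3
    _ = _ := by
        rw [sum_const, card_univ, nsmul_eq_mul]
        ring

end Pool.Agent.W5h30.SM
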