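import Pool.Agent.W5h30.SM.Main

/-!
# A double harmonic sum (helper30)
-/

set_option autoImplicit false

namespace Pool.Agent.W5h30.SM

open Finset Real

lemma harm_range (n : ℕ) (hn : 1 ≤ n) : ∑ i ∈ range n, 1 / (i : ℝ) ≤ 1 + log n := by
  have h1 := harmonic_le_one_add_log n
  refine le_trans ?_ h1
  obtain ⟨k, rfl⟩ : ∃ k, n = k + 1 := ⟨n - 1, by omega⟩
  rw [sum_range_succ']
  simp only [Nat.cast_zero, div_zero, add_zero]
  have h2 : ((harmonic (k + 1) : ℚ) : ℝ) = ∑ i ∈ range (k + 1), ((i : ℝ) + 1)⁻¹ := by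
    unfold harmonic
    push_cast
    rfl
  rw [h2, sum_range_succ]
  have h3 : ∑ i ∈ range k, 1 / (((i + 1 : ℕ)) : ℝ) = ∑ i ∈ range k, ((i : ℝ) + 1)⁻¹ := by
    refine sum_congr rfl fun i _ => ?_
    push_cast
    rw [one_div]
  rw [h3]
  have : (0 : ℝ) ≤ ((k : ℝ) + 1)⁻¹ := by positivity
  linarith

lemma harm_int (n : ℕ) (hn : 1 ≤ n) : ∑ l ∈ Ioo (-(n : ℤ)) n, 1 / |(l : ℝ)| ≤ 2 * (1 + log n) := by
  classical
  have h1 := harm_range n hn
  have h2 : ∑ l ∈ Ioo (-(n : ℤ)) n, 1 / |(l : ℝ)| =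
      ∑ l ∈ (Ioo (-(n : ℤ)) n).filter (fun l => 0 ≤ l), 1 / |(l : ℝ)| +
      ∑ l ∈ (Ioo (-(n : ℤ)) n).filter (fun l => ¬ 0 ≤ l), 1 / |(l : ℝ)| :=
    (sum_filter_add_sum_filter_not _ _ _).symm
  have key : ∀ S : Finset ℤ, (∀ l ∈ S, l ∈ Ioo (-(n : ℤ)) n) → Set.InjOn Int.natAbs (S : Set ℤ) →
      ∑ l ∈ S, 1 / |(l : ℝ)| ≤ ∑ i ∈ range n, 1 / (i : ℝ) := by
    intro S hS hinj
    have h3 : ∑ l ∈ S, 1 / |(l : ℝ)| = ∑ i ∈ S.image Int.natAbs, 1 / (i : ℝ) := by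
      rw [sum_image fun x hx y hy hxy => hinj hx hy hxy]
      refine sum_congr rfl fun l _ => ?_
      rw [Nat.cast_natAbs]
      push_cast
      rfl
    rw [h3]
    refine sum_le_sum_of_subset_of_nonneg ?_ fun i _ _ => by positivity
    intro i hi
    rw [mem_image] at hi
    obtain ⟨l, hl, rfl⟩ := hi
    have := mem_Ioo.1 (hS l hl)
    rw [mem_range]
    omega
  have h3 := key ((Ioo (-(n : ℤ)) n).filter (fun l => 0 ≤ l)) (fun l hl => (mem_filter.1 hl).1) (by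
    intro x hx y hy hxy
    rw [mem_coe, mem_filter] at hx hy
    have := hx.2
    have := hy.2
    omega)
  have h4 := key ((Ioo (-(n : ℤ)) n).filter (fun l => ¬ 0 ≤ l)) (fun l hl => (mem_filter.1 hl).1) (by
    intro x hx y hy hxy
    rw [mem_coe, mem_filter] at hx hy
    have := hx.2
    have := hy.2
    omega)
  rw [h2]
  linarith

lemma harm_pair (n : Fin 2 → ℕ) (hn : ∀ j, 1 ≤ n j) {m1 m2 : ℝ} (h1 : 0 < m1) (h2 : 0 < m2) :
    ∑ k ∈ (Fintype.piFinset fun j => Ioo (-(n j : ℤ)) (n j)).erase 0,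
      1 / (|(k 0 : ℝ)| * m1 + |(k 1 : ℝ)| * m2) ≤
    4 * n 0 / m2 * (1 + log (n 1)) + 2 / m1 * (1 + log (n 0)) := by
  classical
  have e1 : ∑ k ∈ (Fintype.piFinset fun j => Ioo (-(n j : ℤ)) (n j)).erase 0,
      1 / (|(k 0 : ℝ)| * m1 + |(k 1 : ℝ)| * m2) =
      ∑ p ∈ (Ioo (-(n 0 : ℤ)) (n 0) ×ˢ Ioo (-(n 1 : ℤ)) (n 1)).erase (0, 0),
      1 / (|(p.1 : ℝ)| * m1 + |(p.2 : ℝ)| * m2) := by
    refine sum_bij' (fun k _ => (k 0, k 1)) (fun p _ => ![p.1, p.2]) ?_ ?_ ?_ ?_ ?_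
    · intro k hk
      rw [mem_erase, Fintype.mem_piFinset] at hk
      rw [mem_erase, mem_product]
      refine ⟨fun h => hk.1 ?_, hk.2 0, hk.2 1⟩
      rw [Prod.mk.injEq] at h
      funext j
      fin_cases j
      · exact h.1
      · exact h.2
    · intro p hp
      rw [mem_erase, mem_product] at hp
      rw [mem_erase, Fintype.mem_piFinset]
      refine ⟨fun h => hp.1 ?_, fun j => ?_⟩
      · have h3 := congrFun h 0
        have h4 := congrFun h 1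
        simp at h3 h4
        ext
        · exact h3
        · exact h4
      · fin_cases j
        · exact hp.2.1
        · exact hp.2.2
    · intro k _
      funext j
      fin_cases j <;> rfl
    · intro p _
      rfl
    · intro k _
      rfl
  rw [e1]
  have hterm : ∀ p ∈ (Ioo (-(n 0 : ℤ)) (n 0) ×ˢ Ioo (-(n 1 : ℤ)) (n 1)).erase (0, 0),
      1 / (|(p.1 : ℝ)| * m1 + |(p.2 : ℝ)| * m2) ≤
      (1 / |(p.2 : ℝ)|) * (1 / m2) + (if p.2 = 0 then (1 / |(p.1 : ℝ)|) * (1 / m1) else 0) := by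
    intro p hp
    rw [mem_erase] at hp
    by_cases h : p.2 = 0
    · have h3 : p.1 ≠ 0 := fun h4 => hp.1 (Prod.ext h4 h)
      have h4 : 0 < |(p.1 : ℝ)| := abs_pos.2 (by exact_mod_cast h3)
      rw [h, if_pos rfl]
      simp only [Int.cast_zero, abs_zero, zero_mul, add_zero, div_zero, zero_add]
      rw [← one_div_mul_one_div]
    · have h4 : 0 < |(p.2 : ℝ)| := abs_pos.2 (by exact_mod_cast h)
      rw [if_neg h, add_zero, one_div_mul_one_div]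
      refine one_div_le_one_div_of_le (by positivity) ?_
      have : 0 ≤ |(p.1 : ℝ)| * m1 := by positivity
      linarith
  refine (sum_le_sum hterm).trans ?_
  have hnn : ∀ p : ℤ × ℤ, 0 ≤ (1 / |(p.2 : ℝ)|) * (1 / m2) +
      (if p.2 = 0 then (1 / |(p.1 : ℝ)|) * (1 / m1) else 0) := by
    intro p
    split_ifs <;> positivity
  refine (sum_le_sum_of_subset_of_nonneg (erase_subset _ _) fun p _ _ => hnn p).trans ?_
  rw [sum_add_distrib]
  have s1 : ∑ p ∈ Ioo (-(n 0 : ℤ)) (n 0) ×ˢ Ioo (-(n 1 : ℤ)) (n 1), (1 / |(p.2 : ℝ)|) * (1 / m2) ≤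
      4 * n 0 / m2 * (1 + log (n 1)) := by
    rw [sum_product]
    simp only
    rw [sum_const, nsmul_eq_mul, ← sum_mul]
    have hc : ((Ioo (-(n 0 : ℤ)) (n 0)).card : ℝ) ≤ 2 * n 0 := by
      rw [Int.card_Ioo]
      have : ((n 0 : ℤ) - -(n 0 : ℤ) - 1).toNat ≤ 2 * n 0 := by omega
      exact_mod_cast this
    have hh := harm_int (n 1) (hn 1)
    have hs0 : 0 ≤ ∑ l ∈ Ioo (-(n 1 : ℤ)) (n 1), 1 / |(l : ℝ)| := sum_nonneg fun _ _ => by positivity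
    calc ((Ioo (-(n 0 : ℤ)) (n 0)).card : ℝ) * ((∑ l ∈ Ioo (-(n 1 : ℤ)) (n 1), 1 / |(l : ℝ)|) * (1 / m2))
        ≤ (2 * n 0) * ((2 * (1 + log (n 1))) * (1 / m2)) := by gcongr
      _ = 4 * n 0 / m2 * (1 + log (n 1)) := by ring
  have s2 : ∑ p ∈ Ioo (-(n 0 : ℤ)) (n 0) ×ˢ Ioo (-(n 1 : ℤ)) (n 1),
      (if p.2 = 0 then (1 / |(p.1 : ℝ)|) * (1 / m1) else 0) ≤ 2 / m1 * (1 + log (n 0)) := by
    rw [sum_product]
    simp only [sum_ite_eq']
    have h0 : (0 : ℤ) ∈ Ioo (-(n 1 : ℤ)) (n 1) := by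
      rw [mem_Ioo]
      have := hn 1
      omega
    simp only [if_pos h0]
    rw [← sum_mul]
    have hh := harm_int (n 0) (hn 0)
    calc (∑ l ∈ Ioo (-(n 0 : ℤ)) (n 0), 1 / |(l : ℝ)|) * (1 / m1)
        ≤ (2 * (1 + log (n 0))) * (1 / m1) := by gcongr
      _ = 2 / m1 * (1 + log (n 0)) := by ring
  linarith

end Pool.Agent.W5h30.SM
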