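import Pool.Agent.W5h30.SM.Smooth

/-!
# Smoothing: joint laws of the cells of a random point of a torus, second part (helper30)
-/

set_option autoImplicit false
set_option linter.unusedSectionVars false
set_option linter.unusedVariables false

namespace Pool.Agent.W5h30.SM

open Finset Real MeasureTheory Pool.Agent.Y933.KD

variable {ι : Type} [Fintype ι] [DecidableEq ι]

/-- the cell -/
noncomputable def cell (K : ℕ) (x : ℝ) : ℕ := ⌊(K : ℝ) * Int.fract x⌋₊

lemma cell_lt {K : ℕ} (hK : 0 < K) (x : ℝ) : cell K x < K := by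
  have hKR : (0 : ℝ) < K := by exact_mod_cast hK
  unfold cell
  rw [Nat.floor_lt (mul_nonneg hKR.le (Int.fract_nonneg _))]
  have := mul_lt_mul_of_pos_left (Int.fract_lt_one x) hKR
  linarith

/-- the part of the kernel off the cell -/
noncomputable def Bd (K J : ℕ) (x : ℝ) : ℝ :=
  ∑ y ∈ (range (4 * (K * J ^ 2))).filter (fun y => y / (4 * J ^ 2) ≠ cell K x),
    Ph (K * J ^ 2) (x - y / (4 * (K * J ^ 2) : ℕ))

lemma Bd_nonneg (K J : ℕ) (x : ℝ) : 0 ≤ Bd K J x := sum_nonneg fun _ _ => Ph_nonneg _ _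

lemma Bd_le_one {K J : ℕ} (hK : 0 < K) (hJ : 0 < J) (x : ℝ) : Bd K J x ≤ 1 := by
  have hR : 0 < K * J ^ 2 := by positivity
  rw [← partition hR x]
  exact sum_le_sum_of_subset_of_nonneg (filter_subset _ _) fun _ _ _ => Ph_nonneg _ _

/-- points in different cells are apart -/
lemma apart {K J : ℕ} (hK : 0 < K) (hJ : 0 < J) {x : ℝ}
    (hx : 1 / (2 * J : ℝ) < |(K : ℝ) * x - round ((K : ℝ) * x)|) {y : ℕ}
    (hy : y < 4 * (K * J ^ 2)) (hc : y / (4 * J ^ 2) ≠ cell K x) :
    (1 / (K * J : ℝ)) ^ 2 ≤ sin (π * (x - y / (4 * (K * J ^ 2) : ℕ))) ^ 2 := by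
  have hKR : (0 : ℝ) < K := by exact_mod_cast hK
  have hJR : (0 : ℝ) < J := by exact_mod_cast hJ
  obtain ⟨Y, hY⟩ : ∃ Y : ℝ, Y = (y : ℝ) / (4 * (K * J ^ 2) : ℕ) := ⟨_, rfl⟩
  rw [← hY]
  have h1 : 1 / (2 * (K * J) : ℝ) ≤ |x - Y - round (x - Y)| := by
    by_contra hcon
    push Not at hcon
    apply hc
    obtain ⟨z, hz⟩ : ∃ z : ℤ, z = round (x - Y) := ⟨_, rfl⟩
    rw [← hz] at hcon
    obtain ⟨t, ht⟩ : ∃ t : ℝ, t = x - z := ⟨_, rfl⟩
    have h2 : |K * t - K * Y| < 1 / (2 * J) := by
      rw [← mul_sub, abs_mul, abs_of_pos hKR]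
      have h3 : t - Y = x - Y - z := by rw [ht]; ring
      rw [h3]
      calc (K : ℝ) * |x - Y - z| < K * (1 / (2 * (K * J))) := by gcongr
        _ = 1 / (2 * J) := by field_simp
    -- distance of `K t` to all integers
    have h3 : ∀ m : ℤ, 1 / (2 * J : ℝ) < |K * t - m| := by
      intro m
      have h4 : (K : ℝ) * t - m = K * x - ((K * z + m : ℤ) : ℝ) := by rw [ht]; push_cast; ring
      rw [h4]
      exact lt_of_lt_of_le hx (round_le _ _)
    have hKY : K * Y = (y : ℝ) / (4 * J ^ 2 : ℕ) := by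
      rw [hY]
      push_cast
      field_simp
    have hLpos : 0 < 4 * J ^ 2 := by positivity
    obtain ⟨m, hm⟩ : ∃ m : ℕ, m = y / (4 * J ^ 2) := ⟨_, rfl⟩
    have hm1 : (m : ℝ) ≤ K * Y := by
      rw [hKY, hm]
      exact Nat.cast_div_le
    have hm2 : K * Y < m + 1 := by
      rw [hKY, div_lt_iff₀ (by exact_mod_cast hLpos)]
      have h5 : y < (m + 1) * (4 * J ^ 2) := by
        rw [hm]
        have := Nat.lt_mul_of_div_lt (Nat.lt_succ_self (y / (4 * J ^ 2))) hLpos
        exact this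
      exact_mod_cast h5
    have hmK : m < K := by
      rw [hm]
      rw [Nat.div_lt_iff_lt_mul hLpos]
      calc y < 4 * (K * J ^ 2) := hy
        _ = K * (4 * J ^ 2) := by ring
    have h6 : (m : ℝ) ≤ K * t := by
      by_contra hcon2
      push Not at hcon2
      have h7 := h3 m
      push_cast at h7
      rw [abs_of_neg (by linarith)] at h7
      have h8 := (abs_lt.1 h2).1
      linarith
    have h7 : K * t < m + 1 := by
      by_contra hcon2
      push Not at hcon2
      have h7 := h3 (m + 1)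
      push_cast at h7
      rw [abs_of_nonneg (by linarith)] at h7
      have h8 := (abs_lt.1 h2).2
      linarith
    have ht0 : 0 ≤ t := by
      by_contra hcon2
      push Not at hcon2
      have : K * t < 0 := mul_neg_of_pos_of_neg hKR hcon2
      have hm0 : (0 : ℝ) ≤ m := Nat.cast_nonneg m
      linarith
    have ht1 : t < 1 := by
      by_contra hcon2
      push Not at hcon2
      have h8 : (K : ℝ) * 1 ≤ K * t := by gcongr
      have h9 : (m : ℝ) + 1 ≤ K := by exact_mod_cast hmK
      linarith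
    have hfr : Int.fract x = t := by
      rw [Int.fract_eq_iff]
      exact ⟨ht0, ht1, z, by rw [ht]; ring⟩
    unfold cell
    rw [hfr, ← hm]
    symm
    rw [Nat.floor_eq_iff (by positivity)]
    exact ⟨h6, h7⟩
  have h2 : 2 * |x - Y - round (x - Y)| ≤ |sin (π * (x - Y))| := by
    rw [abs_sin_pi]
    exact two_mul_le_sin (abs_nonneg _) (abs_sub_round _)
  have h3 : 1 / (K * J : ℝ) ≤ |sin (π * (x - Y))| := by
    have : 1 / (K * J : ℝ) = 2 * (1 / (2 * (K * J))) := by field_simp
    rw [this]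
    linarith
  rw [← sq_abs (sin (π * (x - Y)))]
  gcongr

/-- pointwise bound -/
lemma Bd_le {K J : ℕ} (hK : 0 < K) (hJ : 0 < J) (x : ℝ) :
    Bd K J x ≤ 2 / (J : ℝ) ^ 2 + π ^ 2 / (4 * J) * F J (K * x) := by
  have hKR : (0 : ℝ) < K := by exact_mod_cast hK
  have hJR : (0 : ℝ) < J := by exact_mod_cast hJ
  have hR : 0 < K * J ^ 2 := by positivity
  have hF := F_nonneg J (K * x)
  rcases le_or_gt (|(K : ℝ) * x - round ((K : ℝ) * x)|) (1 / (2 * J)) with h | h
  · have h1 := F_ge hJ h
    have h2 : 1 ≤ π ^ 2 / (4 * J) * F J (K * x) := by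
      calc (1 : ℝ) = π ^ 2 / (4 * J) * (4 * J / π ^ 2) := by
            have := pi_pos
            field_simp
        _ ≤ _ := by gcongr
    have h3 := Bd_le_one hK hJ x
    have h4 : (0 : ℝ) ≤ 2 / (J : ℝ) ^ 2 := by positivity
    linarith
  · have h1 : Bd K J x ≤ 2 / (J : ℝ) ^ 2 := by
      have h2 : (1 / (K * J : ℝ)) ^ 2 * Bd K J x ≤ 2 / ((K * J ^ 2 : ℕ) : ℝ) ^ 2 := by
        refine le_trans ?_ (second hR x)
        unfold Bd
        rw [mul_sum]
        calc ∑ y ∈ (range (4 * (K * J ^ 2))).filter (fun y => y / (4 * J ^ 2) ≠ cell K x),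
              (1 / (K * J : ℝ)) ^ 2 * Ph (K * J ^ 2) (x - y / (4 * (K * J ^ 2) : ℕ))
            ≤ ∑ y ∈ (range (4 * (K * J ^ 2))).filter (fun y => y / (4 * J ^ 2) ≠ cell K x),
              Ph (K * J ^ 2) (x - y / (4 * (K * J ^ 2) : ℕ)) *
                sin (π * (x - y / (4 * (K * J ^ 2) : ℕ))) ^ 2 := by
              refine sum_le_sum fun y hy => ?_
              rw [mem_filter, mem_range] at hy
              rw [mul_comm]
              exact mul_le_mul_of_nonneg_left (apart hK hJ h hy.1 hy.2) (Ph_nonneg _ _)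
          _ ≤ _ := by
              refine sum_le_sum_of_subset_of_nonneg (filter_subset _ _) fun _ _ _ => ?_
              exact mul_nonneg (Ph_nonneg _ _) (sq_nonneg _)
      have h3 : Bd K J x = (K * J : ℝ) ^ 2 * ((1 / (K * J : ℝ)) ^ 2 * Bd K J x) := by
        field_simp
      rw [h3]
      calc (K * J : ℝ) ^ 2 * ((1 / (K * J : ℝ)) ^ 2 * Bd K J x)
          ≤ (K * J : ℝ) ^ 2 * (2 / ((K * J ^ 2 : ℕ) : ℝ) ^ 2) := by gcongr
        _ = 2 / (J : ℝ) ^ 2 := by
            push_cast
            field_simp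
    have h4 : 0 ≤ π ^ 2 / (4 * J) * F J (K * x) := by positivity
    linarith

/-- the radii -/
def rad (K : ι → ℕ) (J : ℕ) : ι → ℕ := fun j => K j * J ^ 2

/-- the grid points with cells in `E` -/
noncomputable def A (K : ι → ℕ) (J : ℕ) (E : Finset (ι → ℕ)) : Finset (ι → ℕ) :=
  (grid (rad K J)).filter fun y => (fun j => y j / (4 * J ^ 2)) ∈ E

lemma sum_Q (R : ι → ℕ) (hR : ∀ j, 0 < R j) (u : ι → ℝ) : ∑ y ∈ grid R, Q R u y = 1 := by
  unfold Q grid
  rw [← prod_univ_sum (t := fun j => range (4 * R j))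
    (f := fun j (y : ℕ) => Ph (R j) (u j - y / (4 * R j : ℕ)))]
  exact prod_eq_one fun j _ => partition (hR j) _

lemma sum_bad (K : ι → ℕ) (hK : ∀ j, 0 < K j) {J : ℕ} (hJ : 0 < J) (u : ι → ℝ) (j : ι) :
    ∑ y ∈ (grid (rad K J)).filter (fun y => y j / (4 * J ^ 2) ≠ cell (K j) (u j)),
      Q (rad K J) u y = Bd (K j) J (u j) := by
  have hR : ∀ j, 0 < rad K J j := fun j => by
    unfold rad
    have := hK j
    positivity
  set t : ι → Finset ℕ := fun i => if i = j then (range (4 * rad K J i)).filter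
    (fun y => y / (4 * J ^ 2) ≠ cell (K j) (u j)) else range (4 * rad K J i) with ht
  have h1 : (grid (rad K J)).filter (fun y => y j / (4 * J ^ 2) ≠ cell (K j) (u j)) =
      Fintype.piFinset t := by
    ext y
    rw [mem_filter]
    unfold grid
    rw [Fintype.mem_piFinset, Fintype.mem_piFinset]
    constructor
    · rintro ⟨h1, h2⟩ i
      rw [ht]
      by_cases hi : i = j
      · subst hi
        simp only [↓reduceIte, mem_filter]
        exact ⟨h1 i, h2⟩
      · simp only [if_neg hi]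
        exact h1 i
    · intro h1
      refine ⟨fun i => ?_, ?_⟩
      · have h2 := h1 i
        rw [ht] at h2
        by_cases hi : i = j
        · simp only [if_pos hi, mem_filter] at h2
          exact h2.1
        · simp only [if_neg hi] at h2
          exact h2
      · have h2 := h1 j
        rw [ht] at h2
        simp only [↓reduceIte, mem_filter] at h2
        exact h2.2
  rw [h1]
  unfold Q
  rw [← prod_univ_sum (t := t)
    (f := fun i (y : ℕ) => Ph (rad K J i) (u i - y / (4 * rad K J i : ℕ)))]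
  rw [prod_eq_single j]
  · rw [ht]
    simp only [↓reduceIte]
    rfl
  · intro i _ hi
    rw [ht]
    simp only [if_neg hi]
    exact partition (hR i) _
  · intro h
    exact absurd (mem_univ j) h

/-- pointwise comparison -/
lemma comp (K : ι → ℕ) (hK : ∀ j, 0 < K j) {J : ℕ} (hJ : 0 < J) (E : Finset (ι → ℕ))
    (u : ι → ℝ) :
    |(if (fun j => cell (K j) (u j)) ∈ E then (1 : ℝ) else 0) - ∑ y ∈ A K J E, Q (rad K J) u y| ≤
      ∑ j, Bd (K j) J (u j) := by
  have hR : ∀ j, 0 < rad K J j := fun j => by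
    unfold rad
    have := hK j
    positivity
  have htot := sum_Q (rad K J) hR u
  set bad := (grid (rad K J)).filter (fun y => ∃ j, y j / (4 * J ^ 2) ≠ cell (K j) (u j)) with hbad
  have h1 : ∑ y ∈ bad, Q (rad K J) u y ≤ ∑ j, Bd (K j) J (u j) := by
    have h3 : ∀ j, Bd (K j) J (u j) = ∑ y ∈ grid (rad K J),
        if y j / (4 * J ^ 2) ≠ cell (K j) (u j) then Q (rad K J) u y else 0 := by
      intro j
      rw [← sum_bad K hK hJ u j, sum_filter]
    simp only [h3]
    rw [sum_comm, hbad, sum_filter]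
    refine sum_le_sum fun y _ => ?_
    have h4 : ∀ j, 0 ≤ if y j / (4 * J ^ 2) ≠ cell (K j) (u j) then Q (rad K J) u y else 0 := by
      intro j
      split_ifs
      · exact Q_nonneg _ _ _
      · exact le_refl 0
    split_ifs with h5
    · obtain ⟨j, hj⟩ := h5
      calc Q (rad K J) u y = if y j / (4 * J ^ 2) ≠ cell (K j) (u j) then Q (rad K J) u y else 0 := by
            rw [if_pos hj]
        _ ≤ _ := single_le_sum (f := fun j => if y j / (4 * J ^ 2) ≠ cell (K j) (u j) then
            Q (rad K J) u y else 0) (fun j _ => h4 j) (mem_univ j)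
    · exact sum_nonneg fun j _ => h4 j
  refine le_trans ?_ h1
  have hAsub : A K J E ⊆ grid (rad K J) := filter_subset _ _
  split_ifs with hE
  · have h3 : (1 : ℝ) - ∑ y ∈ A K J E, Q (rad K J) u y = ∑ y ∈ grid (rad K J) \ A K J E,
        Q (rad K J) u y := by
      rw [← htot, ← sum_sdiff hAsub]
      ring
    rw [h3, abs_of_nonneg (sum_nonneg fun _ _ => Q_nonneg _ _ _)]
    refine sum_le_sum_of_subset_of_nonneg ?_ fun _ _ _ => Q_nonneg _ _ _
    intro y hy
    rw [mem_sdiff] at hy
    rw [hbad, mem_filter]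
    refine ⟨hy.1, ?_⟩
    by_contra hcon
    push Not at hcon
    apply hy.2
    unfold A
    rw [mem_filter]
    refine ⟨hy.1, ?_⟩
    have : (fun j => y j / (4 * J ^ 2)) = fun j => cell (K j) (u j) := funext hcon
    rw [this]
    exact hE
  · rw [zero_sub, abs_neg, abs_of_nonneg (sum_nonneg fun _ _ => Q_nonneg _ _ _)]
    refine sum_le_sum_of_subset_of_nonneg ?_ fun _ _ _ => Q_nonneg _ _ _
    intro y hy
    unfold A at hy
    rw [mem_filter] at hy
    rw [hbad, mem_filter]
    refine ⟨hy.1, ?_⟩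
    by_contra hcon
    push Not at hcon
    apply hE
    have : (fun j => y j / (4 * J ^ 2)) = fun j => cell (K j) (u j) := funext hcon
    rw [← this]
    exact hy.2

lemma card_A (K : ι → ℕ) {J : ℕ} (hJ : 0 < J) (E : Finset (ι → ℕ))
    (hE : ∀ a ∈ E, ∀ j, a j < K j) :
    (A K J E).card = E.card * (4 * J ^ 2) ^ (Fintype.card ι) := by
  have hL : 0 < 4 * J ^ 2 := by positivity
  have hmaps : ∀ y ∈ A K J E, (fun j => y j / (4 * J ^ 2)) ∈ E := fun y hy => (mem_filter.1 hy).2
  rw [card_eq_sum_card_fiberwise hmaps]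
  have h1 : ∀ a ∈ E, ((A K J E).filter fun y => (fun j => y j / (4 * J ^ 2)) = a).card =
      (4 * J ^ 2) ^ (Fintype.card ι) := by
    intro a ha
    have h2 : (A K J E).filter (fun y => (fun j => y j / (4 * J ^ 2)) = a) =
        Fintype.piFinset fun j => Ico (a j * (4 * J ^ 2)) (a j * (4 * J ^ 2) + 4 * J ^ 2) := by
      ext y
      unfold A grid rad
      rw [mem_filter, mem_filter, Fintype.mem_piFinset, Fintype.mem_piFinset]
      constructor
      · rintro ⟨⟨h3, h4⟩, h5⟩ j
        have h6 := congrFun h5 j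
        rw [mem_Ico]
        rw [← h6]
        have h7 := Nat.div_add_mod (y j) (4 * J ^ 2)
        have h8 := Nat.mod_lt (y j) hL
        have h9 : y j / (4 * J ^ 2) * (4 * J ^ 2) = (4 * J ^ 2) * (y j / (4 * J ^ 2)) := by ring
        rw [h9]
        omega
      · intro h3
        have h5 : (fun j => y j / (4 * J ^ 2)) = a := by
          funext j
          have h6 := mem_Ico.1 (h3 j)
          rw [Nat.div_eq_iff hL]
          omega
        refine ⟨⟨fun j => ?_, by rw [h5]; exact ha⟩, h5⟩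
        rw [mem_range]
        have h6 := mem_Ico.1 (h3 j)
        have h7 : a j + 1 ≤ K j := hE a ha j
        calc y j < a j * (4 * J ^ 2) + 4 * J ^ 2 := h6.2
          _ = (a j + 1) * (4 * J ^ 2) := by ring
          _ ≤ K j * (4 * J ^ 2) := Nat.mul_le_mul_right _ h7
          _ = 4 * (K j * J ^ 2) := by ring
    rw [h2, Fintype.card_piFinset]
    simp
  rw [sum_congr rfl h1, sum_const, smul_eq_mul]

end Pool.Agent.W5h30.SM
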