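import Pool.Agent.W5h30.LL.Val2

/-!
# From Lebesgue measure on short intervals to random algebraic numbers (helper30)
-/

set_option autoImplicit false

namespace Pool.Agent.W5h30.SM

open MeasureTheory Set Filter
open Pool.Agent.Y933.KG Pool.Agent.W5h30.LL

/-- the division points -/
noncomputable def tp (a b : ℝ) (N i : ℕ) : ℝ := a + (b - a) * (i / N)

lemma tp_succ (a b : ℝ) {N : ℕ} (hN : 0 < N) (i : ℕ) : tp a b N (i + 1) = tp a b N i + (b - a) / N := by
  have : (N : ℝ) ≠ 0 := by exact_mod_cast hN.ne'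
  unfold tp
  push_cast
  field_simp
  ring

lemma tp_zero (a b : ℝ) (N : ℕ) : tp a b N 0 = a := by unfold tp; simp

lemma tp_last (a b : ℝ) {N : ℕ} (hN : 0 < N) : tp a b N N = b := by
  have : (N : ℝ) ≠ 0 := by exact_mod_cast hN.ne'
  unfold tp
  field_simp
  ring

lemma tp_mem {a b : ℝ} (hab : a < b) {N : ℕ} (hN : 0 < N) {i : ℕ} (hi : i ≤ N) :
    tp a b N i ∈ Icc a b := by
  have hNR : (0 : ℝ) < N := by exact_mod_cast hN
  have h1 : (i : ℝ) / N ≤ 1 := by rw [div_le_one hNR]; exact_mod_cast hi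
  have h0 : 0 ≤ (i : ℝ) / N := by positivity
  unfold tp
  constructor
  · have : 0 ≤ (b - a) * ((i : ℝ) / N) := mul_nonneg (by linarith) h0
    linarith
  · have : (b - a) * ((i : ℝ) / N) ≤ (b - a) * 1 := mul_le_mul_of_nonneg_left h1 (by linarith)
    linarith

/-- Lebesgue measure on short intervals and the density -/
lemma dens_glue (q : ℕ) {a b : ℝ} (hab : a < b) : ∃ C : ℝ, 0 ≤ C ∧ ∀ V : Set ℝ, MeasurableSet V →
    V ⊆ Icc a b → ∀ e err : ℝ, 0 ≤ e → e ≤ 1 → ∀ N : ℕ, 0 < N →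
    (∀ i < N, |volume.real (V ∩ Icc (tp a b N i) (tp a b N (i + 1))) - e * ((b - a) / N)| ≤
      err * ((b - a) / N)) →
    |(∫ t in V, ph (q + 1) t) - e * ∫ t in Icc a b, ph (q + 1) t| ≤ C * (err + 1 / N) := by
  obtain ⟨T, hT1, hTab⟩ : ∃ T : ℝ, 1 ≤ T ∧ ∀ t ∈ Icc a b, |t| ≤ T := by
    refine ⟨1 + |a| + |b|, by linarith [abs_nonneg a, abs_nonneg b], fun t ht => ?_⟩
    rw [abs_le]
    constructor
    · linarith [ht.1, neg_abs_le a, abs_nonneg b]
    · linarith [ht.2, le_abs_self b, abs_nonneg a]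
  obtain ⟨Φ, hΦ⟩ : ∃ Φ : ℝ, Φ = 2 ^ (q + 1 + 1) * ((((q + 1 : ℕ) : ℝ) + 1) ^ 2 * T ^ (q + 1)) := ⟨_, rfl⟩
  have hΦ0 : 0 ≤ Φ := by rw [hΦ]; positivity
  have hΦle : ∀ t ∈ Icc a b, ph (q + 1) t ≤ Φ := fun t ht => by
    rw [hΦ]; exact ph_le hT1 (hTab t ht)
  have hLc : 0 ≤ Lc (q + 1) T := by unfold Lc; positivity
  have hba : 0 < b - a := by linarith
  refine ⟨Lc (q + 1) T * (b - a) ^ 2 + Φ * (b - a), by positivity, ?_⟩
  intro V hV hVab e err he0 he1 N hN hi
  have hNR : (0 : ℝ) < N := by exact_mod_cast hN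
  obtain ⟨ℓ, hℓ⟩ : ∃ ℓ : ℝ, ℓ = (b - a) / N := ⟨_, rfl⟩
  have hℓ0 : 0 < ℓ := by rw [hℓ]; positivity
  set w : ℝ → ℝ := V.indicator (fun _ => (1 : ℝ)) with hw
  have hw01 : ∀ t, 0 ≤ w t ∧ w t ≤ 1 := by
    intro t
    rw [hw]
    by_cases h : t ∈ V
    · rw [indicator_of_mem h]; norm_num
    · rw [indicator_of_notMem h]; norm_num
  have hwm : Measurable w := measurable_const.indicator hV
  have hwi : ∀ x y : ℝ, IntervalIntegrable w volume x y := by
    intro x y
    rw [intervalIntegrable_iff]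
    haveI : IsFiniteMeasure (volume.restrict (Set.uIoc x y)) := ⟨by
      rw [Measure.restrict_apply_univ, Set.uIoc]
      exact measure_Ioc_lt_top⟩
    refine Integrable.of_bound hwm.aestronglyMeasurable 1 (Eventually.of_forall fun t => ?_)
    rw [Real.norm_eq_abs, abs_of_nonneg (hw01 t).1]
    exact (hw01 t).2
  have hphi : ∀ x y : ℝ, IntervalIntegrable (ph (q + 1)) volume x y := fun x y =>
    ph_cont.intervalIntegrable _ _
  have hwph : ∀ x y : ℝ, IntervalIntegrable (fun t => (w t - e) * ph (q + 1) t) volume x y := by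
    intro x y
    rw [intervalIntegrable_iff]
    have h1 := (intervalIntegrable_iff.1 (hphi x y))
    refine Integrable.bdd_mul (c := 1) h1 ((hwm.sub_const e).aestronglyMeasurable) (Eventually.of_forall fun t => ?_)
    rw [Real.norm_eq_abs, abs_le]
    have := hw01 t
    constructor <;> linarith
  -- the integrals
  have h1 : (∫ t in V, ph (q + 1) t) - e * ∫ t in Icc a b, ph (q + 1) t =
      ∫ t in a..b, (w t - e) * ph (q + 1) t := by
    have h2 : ∫ t in V, ph (q + 1) t = ∫ t in a..b, w t * ph (q + 1) t := by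
      rw [intervalIntegral.integral_of_le hab.le, ← integral_Icc_eq_integral_Ioc]
      have h3 : ∀ t, w t * ph (q + 1) t = V.indicator (ph (q + 1)) t := by
        intro t
        rw [hw]
        by_cases h : t ∈ V
        · rw [indicator_of_mem h, indicator_of_mem h, one_mul]
        · rw [indicator_of_notMem h, indicator_of_notMem h, zero_mul]
      simp only [h3]
      rw [setIntegral_indicator hV, inter_eq_self_of_subset_right hVab]
    have h3 : ∫ t in Icc a b, ph (q + 1) t = ∫ t in a..b, ph (q + 1) t := by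
      rw [intervalIntegral.integral_of_le hab.le, ← integral_Icc_eq_integral_Ioc]
    rw [h2, h3, ← intervalIntegral.integral_const_mul, ← intervalIntegral.integral_sub]
    · congr 1
      funext t
      ring
    · have h4 := hwph a b
      have h5 := (hphi a b).const_mul e
      have h6 := h4.add h5
      refine h6.congr (fun t _ => ?_)
      show (w t - e) * ph (q + 1) t + e * ph (q + 1) t = w t * ph (q + 1) t
      ring
    · exact (hphi a b).const_mul e
  rw [h1]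
  have hsum : ∑ i ∈ Finset.range N, ∫ t in (tp a b N i)..(tp a b N (i + 1)), (w t - e) * ph (q + 1) t =
      ∫ t in (tp a b N 0)..(tp a b N N), (w t - e) * ph (q + 1) t :=
    intervalIntegral.sum_integral_adjacent_intervals fun i _ => hwph _ _
  rw [tp_zero, tp_last a b hN] at hsum
  rw [← hsum]
  refine (Finset.abs_sum_le_sum_abs _ _).trans ?_
  have hterm : ∀ i ∈ Finset.range N,
      |∫ t in (tp a b N i)..(tp a b N (i + 1)), (w t - e) * ph (q + 1) t| ≤
      Lc (q + 1) T * ℓ * ℓ + Φ * (err * ℓ) := by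
    intro i hiN
    rw [Finset.mem_range] at hiN
    have ht0 := tp_mem hab hN (Nat.le_of_lt hiN)
    have ht1 := tp_mem hab hN (Nat.succ_le_of_lt hiN)
    have hstep := tp_succ a b hN i
    rw [← hℓ] at hstep
    obtain ⟨x, hx⟩ : ∃ x : ℝ, x = tp a b N i := ⟨_, rfl⟩
    obtain ⟨y, hy⟩ : ∃ y : ℝ, y = tp a b N (i + 1) := ⟨_, rfl⟩
    have hiN' := hi i hiN
    rw [← hx, ← hy] at hstep hiN' ⊢
    rw [Nat.succ_eq_add_one, ← hy] at ht1
    rw [← hx] at ht0
    rw [← hℓ] at hiN'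
    have hxy : x ≤ y := by linarith
    have hsplit : ∫ t in x..y, (w t - e) * ph (q + 1) t =
        (∫ t in x..y, (w t - e) * (ph (q + 1) t - ph (q + 1) x)) +
        ph (q + 1) x * (∫ t in x..y, (w t - e)) := by
      rw [← intervalIntegral.integral_const_mul, ← intervalIntegral.integral_add]
      · congr 1
        funext t
        ring
      · have h4 := hwph x y
        have h5 : IntervalIntegrable (fun t => (w t - e) * ph (q + 1) x) volume x y :=
          ((hwi x y).sub (intervalIntegrable_const)).mul_const _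
        refine (h4.sub h5).congr (fun t _ => ?_)
        show (w t - e) * ph (q + 1) t - (w t - e) * ph (q + 1) x = (w t - e) * (ph (q + 1) t - ph (q + 1) x)
        ring
      · exact ((hwi x y).sub (intervalIntegrable_const)).const_mul _
    have hA : |∫ t in x..y, (w t - e) * (ph (q + 1) t - ph (q + 1) x)| ≤ Lc (q + 1) T * ℓ * ℓ := by
      have h4 := intervalIntegral.norm_integral_le_of_norm_le_const (a := x) (b := y)
        (f := fun t => (w t - e) * (ph (q + 1) t - ph (q + 1) x)) (C := Lc (q + 1) T * ℓ) (by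
          intro t ht
          rw [uIoc_of_le hxy] at ht
          have htab : t ∈ Icc a b := ⟨ht0.1.trans ht.1.le, ht.2.trans ht1.2⟩
          rw [norm_mul, Real.norm_eq_abs, Real.norm_eq_abs]
          have h5 : |w t - e| ≤ 1 := by
            rw [abs_le]
            have := hw01 t
            constructor <;> linarith
          have h6 : |ph (q + 1) t - ph (q + 1) x| ≤ Lc (q + 1) T * ℓ := by
            refine (ph_lip hT1 (hTab t htab) (hTab x ht0)).trans ?_
            refine mul_le_mul_of_nonneg_left ?_ hLc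
            rw [abs_of_pos (by linarith [ht.1])]
            linarith [ht.2]
          calc |w t - e| * |ph (q + 1) t - ph (q + 1) x| ≤ 1 * (Lc (q + 1) T * ℓ) :=
                mul_le_mul h5 h6 (abs_nonneg _) zero_le_one
            _ = _ := one_mul _)
      rw [Real.norm_eq_abs] at h4
      have h7 : |y - x| = ℓ := by rw [hstep]; rw [add_sub_cancel_left, abs_of_pos hℓ0]
      rw [h7] at h4
      exact h4
    have hB : |∫ t in x..y, (w t - e)| ≤ err * ℓ := by
      rw [intervalIntegral.integral_sub (hwi x y) intervalIntegrable_const,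
        intervalIntegral.integral_const, smul_eq_mul]
      have h4 : ∫ t in x..y, w t = volume.real (V ∩ Icc x y) := by
        rw [intervalIntegral.integral_of_le hxy, ← integral_Icc_eq_integral_Ioc, hw,
          integral_indicator hV, Measure.restrict_restrict hV]
        simp [measureReal_def]
      rw [h4]
      have h5 : (y - x) * e = e * ℓ := by rw [hstep]; ring
      rw [h5]
      exact hiN'
    rw [hsplit]
    refine (abs_add_le _ _).trans (add_le_add hA ?_)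
    rw [abs_mul, abs_of_nonneg (ph_nonneg x)]
    exact mul_le_mul (hΦle x ht0) hB (abs_nonneg _) hΦ0
  refine (Finset.sum_le_sum hterm).trans ?_
  rw [Finset.sum_const, Finset.card_range, nsmul_eq_mul]
  have herr : 0 ≤ err := by
    have h4 := hi 0 hN
    have h5 : 0 ≤ err * ((b - a) / N) := (abs_nonneg _).trans h4
    by_contra hcon
    push Not at hcon
    have : err * ((b - a) / N) < 0 := mul_neg_of_neg_of_pos hcon (by positivity)
    linarith
  have e1 : (N : ℝ) * (Lc (q + 1) T * ℓ * ℓ + Φ * (err * ℓ)) =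
      Lc (q + 1) T * (b - a) ^ 2 * (1 / N) + Φ * (b - a) * err := by
    rw [hℓ]
    field_simp
  rw [e1]
  have h4 : 0 ≤ Lc (q + 1) T * (b - a) ^ 2 * err := by positivity
  have h5 : 0 ≤ Φ * (b - a) * (1 / N) := by positivity
  nlinarith

/-- **gluing** -/
theorem glue (q : ℕ) {a b : ℝ} (hab : a < b) (η : ℝ) (hη : 0 < η) (hη1 : η ≤ 1) :
    ∃ C : ℝ, 0 ≤ C ∧ ∃ c : ℝ, 0 < c ∧ ∃ H0 : ℕ, ∀ H : ℕ, H0 ≤ H → ∀ s : Finset ℝ,
      (∀ x, x ∈ s ↔ x ∈ Alg (q + 2) H) → 0 < cn s (fun x => x ∈ Icc a b) ∧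
      ∀ V : Set ℝ, MeasurableSet V → V ⊆ Icc a b → ∀ Q : Finset ℝ,
      (Q.card : ℝ) ≤ (H : ℝ) ^ ((q : ℝ) + 3 - η) → Off Q V →
      ∀ e err : ℝ, 0 ≤ e → e ≤ 1 → ∀ N : ℕ, 0 < N →
      (∀ i < N, |volume.real (V ∩ Icc (tp a b N i) (tp a b N (i + 1))) - e * ((b - a) / N)| ≤
        err * ((b - a) / N)) →
      |(cn s (fun x => x ∈ V) : ℝ) / (cn s (fun x => x ∈ Icc a b) : ℝ) - e| ≤
        C * (err + 1 / N) + (H : ℝ) ^ (-c) := by
  classical
  obtain ⟨c1, hc1, H1, hlaw⟩ := law_set q η hη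
  obtain ⟨C2, hC2, hdens⟩ := dens_glue q hab
  have hI := I0_pos q
  obtain ⟨m0, hm0⟩ : ∃ m0 : ℝ, m0 = ∫ t in Icc a b, ph (q + 1) t := ⟨_, rfl⟩
  have hm0pos : 0 < m0 := by rw [hm0]; exact mass_pos hab
  obtain ⟨μ0, hμ0⟩ : ∃ μ0 : ℝ, μ0 = m0 / I0 q := ⟨_, rfl⟩
  have hμ0pos : 0 < μ0 := by rw [hμ0]; positivity
  have hev : ∀ᶠ H : ℕ in atTop, 4 / μ0 ≤ (H : ℝ) ^ (c1 / 2) ∧ 2 / μ0 ≤ (H : ℝ) ^ c1 ∧
      H1 ≤ H ∧ 2 ≤ H := by
    filter_upwards [ev_rpow (4 / μ0) (c1 / 2) (by positivity), ev_rpow (2 / μ0) c1 hc1,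
      eventually_ge_atTop H1, eventually_ge_atTop 2] with H a1 a2 a4 a5
    exact ⟨a1, a2, a4, a5⟩
  obtain ⟨H0, hH0⟩ := Filter.eventually_atTop.1 hev
  refine ⟨C2 / I0 q * (2 / μ0), by positivity, c1 / 2, by positivity, H0, fun H hH s hs => ?_⟩
  obtain ⟨g1, g2, g4, g5⟩ := hH0 H hH
  have hHR2 : (2 : ℝ) ≤ H := by exact_mod_cast g5
  have hHR : (1 : ℝ) ≤ H := by linarith
  have hHpos : (0 : ℝ) < H := by linarith
  have hq0 : (0 : ℝ) ≤ q := Nat.cast_nonneg q
  obtain ⟨w, hw⟩ : ∃ w : ℝ, w = (H : ℝ) ^ (-c1) := ⟨_, rfl⟩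
  have hw0 : 0 < w := by rw [hw]; positivity
  have hwμ : w ≤ μ0 / 2 := by
    rw [hw, Real.rpow_neg hHpos.le, inv_le_comm₀ (by positivity) (by positivity), inv_div]
    exact g2
  have hQ0 : ((({a, b} : Finset ℝ).card : ℕ) : ℝ) ≤ (H : ℝ) ^ ((q : ℝ) + 3 - η) := by
    have h1 : ((({a, b} : Finset ℝ).card : ℕ) : ℝ) ≤ 2 := by exact_mod_cast Finset.card_le_two
    refine h1.trans (hHR2.trans ?_)
    calc (H : ℝ) = (H : ℝ) ^ (1 : ℝ) := (Real.rpow_one _).symm
      _ ≤ _ := Real.rpow_le_rpow_of_exponent_le hHR (by linarith)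
  obtain ⟨hspos, hw1⟩ := hlaw H g4 {a, b} hQ0 (Icc a b) (off_Icc a b) s hs
  have hNpos : (0 : ℝ) < s.card := by exact_mod_cast hspos
  obtain ⟨p0, hp0⟩ : ∃ p0 : ℝ, p0 = (cn s (fun x => x ∈ Icc a b) : ℝ) / s.card := ⟨_, rfl⟩
  rw [← hp0, ← hm0, ← hμ0, ← hw] at hw1
  have hp0ge : μ0 / 2 ≤ p0 := by
    have := (abs_le.1 hw1).1
    linarith
  have hp0pos : 0 < p0 := by linarith
  have hcn0 : (0 : ℝ) < (cn s (fun x => x ∈ Icc a b) : ℝ) := by
    by_contra hcon
    have h1 : (cn s (fun x => x ∈ Icc a b) : ℝ) = 0 :=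
      le_antisymm (not_lt.1 hcon) (Nat.cast_nonneg _)
    rw [h1, zero_div] at hp0
    linarith
  refine ⟨by exact_mod_cast hcn0, fun V hV hVab Q hQ hoff e err he0 he1 N hN hi => ?_⟩
  have hd := hdens V hV hVab e err he0 he1 N hN hi
  have hw2 := (hlaw H g4 Q hQ V hoff s hs).2
  obtain ⟨p, hp⟩ : ∃ p : ℝ, p = (cn s (fun x => x ∈ V) : ℝ) / s.card := ⟨_, rfl⟩
  obtain ⟨mV, hmV⟩ : ∃ mV : ℝ, mV = ∫ t in V, ph (q + 1) t := ⟨_, rfl⟩
  rw [← hm0, ← hmV] at hd
  rw [← hp, ← hmV, ← hw] at hw2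
  obtain ⟨X, hX⟩ : ∃ X : ℝ, X = C2 * (err + 1 / N) := ⟨_, rfl⟩
  rw [← hX] at hd
  have hX0 : 0 ≤ X := (abs_nonneg _).trans hd
  have hsh2 : |mV / I0 q - e * μ0| ≤ X / I0 q := by
    have h1 : mV / I0 q - e * μ0 = (mV - e * m0) / I0 q := by
      rw [hμ0]; ring
    rw [h1, abs_div, abs_of_pos hI]
    exact div_le_div_of_nonneg_right hd hI.le
  have hmain : |p - e * p0| ≤ 2 * w + X / I0 q := by
    have h1 : p - e * p0 = (p - mV / I0 q) + (mV / I0 q - e * μ0) + -(e * (p0 - μ0)) := by ring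
    rw [h1]
    refine (abs_add_three _ _ _).trans ?_
    rw [abs_neg, abs_mul, abs_of_nonneg he0]
    have h2 : e * |p0 - μ0| ≤ w := (mul_le_of_le_one_left (abs_nonneg _) he1).trans hw1
    linarith
  have hratio : (cn s (fun x => x ∈ V) : ℝ) / (cn s (fun x => x ∈ Icc a b) : ℝ) = p / p0 := by
    rw [hp, hp0]
    field_simp
  rw [hratio]
  have h2 : p / p0 - e = (p - e * p0) / p0 := by field_simp
  rw [h2, abs_div, abs_of_pos hp0pos]
  calc |p - e * p0| / p0 ≤ (2 * w + X / I0 q) / (μ0 / 2) :=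
        div_le_div₀ (by positivity) hmain (by positivity) hp0ge
    _ = 4 / μ0 * w + C2 / I0 q * (2 / μ0) * (err + 1 / N) := by rw [hX]; field_simp; ring
    _ ≤ (H : ℝ) ^ (c1 / 2) * w + C2 / I0 q * (2 / μ0) * (err + 1 / N) := by gcongr
    _ = _ := by
        rw [hw, ← Real.rpow_add hHpos, add_comm]
        congr 2
        ring

end Pool.Agent.W5h30.SM
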