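import Pool.Agent.Y933.KD.Fej

/-!
# A nonnegative trigonometric kernel with a small second moment on the grid (helper30)
-/

set_option autoImplicit false

namespace Pool.Agent.W5h30.SM

open Finset Real Pool.Agent.Y933.KD

/-- orthogonality on the grid -/
lemma orth {N : ℕ} (hN : 0 < N) (m : ℤ) (hm : |m| < N) :
    ∑ y ∈ range N, e (-(m * (y / N : ℝ))) = if m = 0 then (N : ℂ) else 0 := by
  have hRC : (N : ℂ) ≠ 0 := by exact_mod_cast hN.ne'
  have hRR : (N : ℝ) ≠ 0 := by exact_mod_cast hN.ne'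
  split_ifs with h0
  · subst h0
    simp [e_zero]
  · have h1 : ∀ j : ℕ, e (-(m * (j / N : ℝ))) = e (-(m / N : ℝ)) ^ j := by
      intro j
      rw [← e_nat_mul]
      congr 1
      ring
    simp only [h1]
    have hne : e (-(m / N : ℝ)) ≠ 1 := by
      intro h
      unfold e at h
      rw [Complex.exp_eq_one_iff] at h
      obtain ⟨n, hn⟩ := h
      have h2 : (-(m / N : ℝ)) = n := by
        have h3 : ((2 * π * -(m / N : ℝ) : ℝ) : ℂ) = ((n * (2 * π) : ℝ) : ℂ) := by
          have h4 : ((2 * π * -(m / N : ℝ) : ℝ) : ℂ) * Complex.I =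
              ((n * (2 * π) : ℝ) : ℂ) * Complex.I := by
            rw [hn]; push_cast; ring
          exact mul_right_cancel₀ Complex.I_ne_zero h4
        have h5 : 2 * π * -(m / N : ℝ) = n * (2 * π) := by exact_mod_cast h3
        have hpi := pi_pos
        have : (2 * π) * (-(m / N : ℝ) - n) = 0 := by linarith
        rcases mul_eq_zero.1 this with h6 | h6
        · linarith
        · linarith
      have h3 : (-(m : ℝ)) = n * N := by
        field_simp at h2
        linarith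
      have h4 : -m = n * (N : ℤ) := by exact_mod_cast h3
      have h5 : n ≠ 0 := by
        rintro rfl
        simp at h4
        exact h0 h4
      have h6 : (N : ℤ) ≤ |m| := by
        have : |m| = |n| * N := by
          rw [← abs_neg, h4, abs_mul, Nat.abs_cast]
        rw [this]
        have h7 : 1 ≤ |n| := Int.one_le_abs h5
        nlinarith [Int.natCast_nonneg N]
      omega
    have h2 := geom_sum_mul (e (-(m / N : ℝ))) N
    have h3 : e (-(m / N : ℝ)) ^ N = 1 := by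
      rw [← e_nat_mul]
      have : (N : ℝ) * -(m / N : ℝ) = ((-m : ℤ) : ℝ) := by push_cast; field_simp
      rw [this, e_int]
    rw [h3, sub_self] at h2
    exact (mul_eq_zero.1 h2).resolve_right (sub_ne_zero.2 hne)

/-- number of representations of `m` as a sum of two numbers below `R` -/
def w (R m : ℕ) : ℕ := #{p ∈ range R ×ˢ range R | p.1 + p.2 = m}

lemma maps (R : ℕ) : ∀ p ∈ range R ×ˢ range R, p.1 + p.2 ∈ range (2 * R) := by
  intro p hp
  rw [mem_product, mem_range, mem_range] at hp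
  rw [mem_range]
  omega

lemma sum_w (R : ℕ) : ∑ m ∈ range (2 * R), w R m = R ^ 2 := by
  have h := card_eq_sum_card_fiberwise (maps R)
  rw [card_product, card_range] at h
  unfold w
  rw [← h, sq]

lemma D_sq (R : ℕ) (x : ℝ) :
    D R x ^ 2 = ∑ m ∈ range (2 * R), (w R m : ℂ) * e (m * x) := by
  have h1 : D R x ^ 2 = ∑ p ∈ range R ×ˢ range R, e (((p.1 + p.2 : ℕ) : ℝ) * x) := by
    unfold D
    rw [sq, sum_mul_sum, sum_product]
    refine sum_congr rfl fun i _ => sum_congr rfl fun j _ => ?_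
    rw [← e_add]
    congr 1
    push_cast
    ring
  rw [h1, ← sum_fiberwise_of_maps_to (maps R)]
  refine sum_congr rfl fun m _ => ?_
  have h2 : ∀ p ∈ (range R ×ˢ range R).filter (fun p => p.1 + p.2 = m),
      e (((p.1 + p.2 : ℕ) : ℝ) * x) = e (m * x) := by
    intro p hp
    rw [(mem_filter.1 hp).2]
  rw [sum_congr rfl h2, sum_const, nsmul_eq_mul]
  rfl

/-- the energy -/
def W (R : ℕ) : ℝ := ∑ m ∈ range (2 * R), (w R m : ℝ) ^ 2

lemma W_ge {R : ℕ} (hR : 0 < R) : (R : ℝ) ^ 3 / 2 ≤ W R := by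
  have h := sq_sum_le_card_mul_sum_sq (s := range (2 * R)) (f := fun m => (w R m : ℝ))
  have h1 : ∑ m ∈ range (2 * R), (w R m : ℝ) = (R : ℝ) ^ 2 := by exact_mod_cast sum_w R
  rw [h1, card_range] at h
  have hRR : (0 : ℝ) < R := by exact_mod_cast hR
  push_cast at h
  change ((R : ℝ) ^ 2) ^ 2 ≤ 2 * R * W R at h
  have h2 : (R : ℝ) * ((R : ℝ) ^ 3 / 2) ≤ R * W R := by nlinarith
  exact le_of_mul_le_mul_left h2 hRR

lemma W_pos {R : ℕ} (hR : 0 < R) : 0 < W R := by
  have hRR : (0 : ℝ) < R := by exact_mod_cast hR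
  exact lt_of_lt_of_le (by positivity) (W_ge hR)

/-- coefficients of the kernel -/
noncomputable def cf (R : ℕ) (k : ℤ) : ℝ :=
  (∑ p ∈ (range (2 * R) ×ˢ range (2 * R)).filter (fun p => (p.1 : ℤ) - (p.2 : ℤ) = k),
    (w R p.1 : ℝ) * w R p.2) / (4 * R * W R)

/-- the kernel -/
noncomputable def Ph (R : ℕ) (x : ℝ) : ℝ := ‖D R x‖ ^ 4 / (4 * R * W R)

lemma Ph_nonneg (R : ℕ) (x : ℝ) : 0 ≤ Ph R x := by
  unfold Ph W
  positivity

lemma cf_nonneg (R : ℕ) (k : ℤ) : 0 ≤ cf R k := by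
  unfold cf W
  positivity

lemma cf_zero {R : ℕ} (hR : 0 < R) : cf R 0 = 1 / (4 * R) := by
  have hRR : (0 : ℝ) < R := by exact_mod_cast hR
  have hW := W_pos hR
  have h1 : (∑ p ∈ (range (2 * R) ×ˢ range (2 * R)).filter (fun p => (p.1 : ℤ) - (p.2 : ℤ) = 0),
    (w R p.1 : ℝ) * w R p.2) = W R := by
    rw [sum_filter, sum_product]
    unfold W
    refine sum_congr rfl fun i hi => ?_
    rw [sum_eq_single i]
    · rw [if_pos (by simp)]; ring
    · intro j _ hj
      rw [if_neg]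
      intro h
      apply hj
      have : (i : ℤ) = j := by linarith
      exact_mod_cast this.symm
    · intro h; exact absurd hi h
  unfold cf
  rw [h1]
  field_simp

lemma cf_le {R : ℕ} (hR : 0 < R) (k : ℤ) : cf R k ≤ 1 / (4 * R) := by
  have hRR : (0 : ℝ) < R := by exact_mod_cast hR
  have hW := W_pos hR
  set S := (range (2 * R) ×ˢ range (2 * R)).filter (fun p => (p.1 : ℤ) - (p.2 : ℤ) = k) with hS
  have h0 : ∑ p ∈ S, (w R p.1 : ℝ) ^ 2 ≤ W R := by
    have hinj : Set.InjOn (fun p : ℕ × ℕ => p.1) S := by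
      intro p hp q hq hpq
      rw [hS, mem_coe, mem_filter] at hp hq
      have h1 := hp.2
      have h2 := hq.2
      simp only at hpq
      ext
      · exact hpq
      · omega
    rw [← sum_image (f := fun m => (w R m : ℝ) ^ 2) (fun x hx y hy h => hinj hx hy h)]
    unfold W
    refine sum_le_sum_of_subset_of_nonneg ?_ (fun _ _ _ => by positivity)
    intro m hm
    rw [mem_image] at hm
    obtain ⟨p, hp, rfl⟩ := hm
    rw [hS, mem_filter, mem_product] at hp
    exact hp.1.1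
  have h1 : ∑ p ∈ S, (w R p.2 : ℝ) ^ 2 ≤ W R := by
    have hinj : Set.InjOn (fun p : ℕ × ℕ => p.2) S := by
      intro p hp q hq hpq
      rw [hS, mem_coe, mem_filter] at hp hq
      have h1 := hp.2
      have h2 := hq.2
      simp only at hpq
      ext
      · omega
      · exact hpq
    rw [← sum_image (f := fun m => (w R m : ℝ) ^ 2) (fun x hx y hy h => hinj hx hy h)]
    unfold W
    refine sum_le_sum_of_subset_of_nonneg ?_ (fun _ _ _ => by positivity)
    intro m hm
    rw [mem_image] at hm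
    obtain ⟨p, hp, rfl⟩ := hm
    rw [hS, mem_filter, mem_product] at hp
    exact hp.1.2
  have h2 : ∑ p ∈ S, (w R p.1 : ℝ) * w R p.2 ≤ W R := by
    calc ∑ p ∈ S, (w R p.1 : ℝ) * w R p.2
        ≤ ∑ p ∈ S, ((w R p.1 : ℝ) ^ 2 + (w R p.2 : ℝ) ^ 2) / 2 := by
          refine sum_le_sum fun p _ => ?_
          nlinarith [sq_nonneg ((w R p.1 : ℝ) - w R p.2)]
      _ = (∑ p ∈ S, (w R p.1 : ℝ) ^ 2 + ∑ p ∈ S, (w R p.2 : ℝ) ^ 2) / 2 := by
          rw [← sum_add_distrib, sum_div]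
      _ ≤ W R := by linarith
  unfold cf
  rw [div_le_div_iff₀ (by positivity) (by positivity)]
  nlinarith

lemma Ph_expand {R : ℕ} (hR : 0 < R) (x : ℝ) :
    (Ph R x : ℂ) = ∑ k ∈ Ioo (-(2 * R : ℤ)) (2 * R), (cf R k : ℂ) * e (k * x) := by
  have hmaps : ∀ p ∈ range (2 * R) ×ˢ range (2 * R), (p.1 : ℤ) - (p.2 : ℤ) ∈
      Ioo (-(2 * R : ℤ)) (2 * R) := by
    intro p hp
    rw [mem_product, mem_range, mem_range] at hp
    rw [mem_Ioo]
    omega
  have h1 : ((‖D R x‖ ^ 4 : ℝ) : ℂ) = ∑ p ∈ range (2 * R) ×ˢ range (2 * R),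
      ((w R p.1 : ℂ) * w R p.2) * e (((p.1 : ℤ) - (p.2 : ℤ) : ℤ) * x) := by
    have h2 : ((‖D R x‖ ^ 4 : ℝ) : ℂ) = D R x ^ 2 * (starRingEnd ℂ) (D R x ^ 2) := by
      rw [Complex.mul_conj, Complex.normSq_eq_norm_sq, norm_pow]
      push_cast
      ring
    rw [h2, D_sq, map_sum, sum_mul_sum, sum_product]
    refine sum_congr rfl fun i _ => sum_congr rfl fun j _ => ?_
    rw [map_mul, Complex.conj_natCast, ← e_neg]
    have : e ((((i : ℕ) : ℤ) - ((j : ℕ) : ℤ) : ℤ) * x) = e (i * x) * e (-(j * x)) := by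
      rw [← e_add]
      congr 1
      push_cast
      ring
    rw [this]
    ring
  unfold Ph
  push_cast
  have h3 : ((‖D R x‖ : ℂ)) ^ 4 = ((‖D R x‖ ^ 4 : ℝ) : ℂ) := by push_cast; rfl
  rw [h3, h1, ← sum_fiberwise_of_maps_to hmaps, sum_div]
  refine sum_congr rfl fun k _ => ?_
  unfold cf
  push_cast
  rw [div_mul_eq_mul_div, sum_mul]
  congr 1
  refine sum_congr rfl fun p hp => ?_
  have h5 : ((k : ℤ) : ℝ) = (p.1 : ℝ) - p.2 := by
    rw [← (mem_filter.1 hp).2]; push_cast; ring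
  rw [h5]

/-- the sum over the grid of a shifted exponential -/
lemma grid_e {N : ℕ} (hN : 0 < N) (k : ℤ) (hk : |k| < N) (x : ℝ) :
    ∑ y ∈ range N, e (k * (x - y / N)) = if k = 0 then (N : ℂ) else 0 := by
  have h : ∀ y : ℕ, e (k * (x - y / N)) = e (k * x) * e (-(k * (y / N : ℝ))) := by
    intro y
    rw [← e_add]
    congr 1
    ring
  rw [sum_congr rfl fun y _ => h y, ← mul_sum, orth hN k hk]
  split_ifs with h0
  · subst h0; simp [e_zero]
  · simp

lemma partition {R : ℕ} (hR : 0 < R) (x : ℝ) :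
    ∑ y ∈ range (4 * R), Ph R (x - y / (4 * R : ℕ)) = 1 := by
  have hRR : (0 : ℝ) < R := by exact_mod_cast hR
  have h1 : ((∑ y ∈ range (4 * R), Ph R (x - y / (4 * R : ℕ)) : ℝ) : ℂ) = 1 := by
    rw [Complex.ofReal_sum]
    simp only [Ph_expand hR]
    rw [sum_comm]
    have h2 : ∀ k ∈ Ioo (-(2 * R : ℤ)) (2 * R), ∑ y ∈ range (4 * R), (cf R k : ℂ) *
        e (k * (x - y / (4 * R : ℕ))) = if k = 0 then 1 else 0 := by
      intro k hk
      rw [mem_Ioo] at hk
      rw [← mul_sum, grid_e (by omega) k (by rw [abs_lt]; push_cast; omega)]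
      split_ifs with h0
      · rw [h0, cf_zero hR]
        push_cast
        have : (R : ℂ) ≠ 0 := by exact_mod_cast hR.ne'
        field_simp
      · simp
    rw [sum_congr rfl h2, sum_ite_eq', if_pos]
    rw [mem_Ioo]
    omega
  exact_mod_cast h1

lemma second {R : ℕ} (hR : 0 < R) (x : ℝ) :
    ∑ y ∈ range (4 * R), Ph R (x - y / (4 * R : ℕ)) * sin (π * (x - y / (4 * R : ℕ))) ^ 2 ≤
      2 / (R : ℝ) ^ 2 := by
  have hRR : (0 : ℝ) < R := by exact_mod_cast hR
  have hW := W_pos hR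
  have h0 : ∀ z : ℝ, Ph R z * sin (π * z) ^ 2 ≤ F R z / (4 * W R) := by
    intro z
    have h1 := D_mul R z
    have h2 : |sin (π * (R * z))| ≤ 1 := abs_sin_le_one _
    have h3 : (‖D R z‖ * |sin (π * z)|) ^ 2 ≤ 1 := by
      rw [h1]
      have := abs_nonneg (sin (π * (R * z)))
      nlinarith
    have h4 : ‖D R z‖ ^ 4 * sin (π * z) ^ 2 ≤ ‖D R z‖ ^ 2 := by
      have e1 : ‖D R z‖ ^ 4 * sin (π * z) ^ 2 = ‖D R z‖ ^ 2 * (‖D R z‖ * |sin (π * z)|) ^ 2 := by
        rw [mul_pow, sq_abs]; ring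
      rw [e1]
      have : 0 ≤ ‖D R z‖ ^ 2 := by positivity
      nlinarith
    unfold Ph F
    calc ‖D R z‖ ^ 4 / (4 * R * W R) * sin (π * z) ^ 2
        = (‖D R z‖ ^ 4 * sin (π * z) ^ 2) / (4 * R * W R) := by ring
      _ ≤ ‖D R z‖ ^ 2 / (4 * R * W R) := by gcongr
      _ = 1 / R * ‖D R z‖ ^ 2 / (4 * W R) := by field_simp
  have h1 : ∑ y ∈ range (4 * R), F R (x - y / (4 * R : ℕ)) = 4 * R := by
    have h2 : ((∑ y ∈ range (4 * R), F R (x - y / (4 * R : ℕ)) : ℝ) : ℂ) = 4 * R := by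
      rw [Complex.ofReal_sum]
      simp only [F_expand]
      rw [← mul_sum, sum_comm]
      have h3 : ∀ p ∈ range R ×ˢ range R, ∑ y ∈ range (4 * R),
          e (((p.1 : ℤ) - (p.2 : ℤ) : ℤ) * (x - y / (4 * R : ℕ))) =
          if p.1 = p.2 then (4 * R : ℂ) else 0 := by
        intro p hp
        rw [mem_product, mem_range, mem_range] at hp
        rw [grid_e (by omega) _ (by rw [abs_lt]; push_cast; omega)]
        by_cases h : p.1 = p.2
        · rw [if_pos (by omega), if_pos h]; push_cast; ring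
        · rw [if_neg (by omega), if_neg h]
      rw [sum_congr rfl h3, sum_product]
      simp only [sum_ite_eq, mem_range]
      rw [sum_congr rfl (fun i hi => if_pos (mem_range.1 hi)), sum_const, card_range, nsmul_eq_mul]
      have : (R : ℂ) ≠ 0 := by exact_mod_cast hR.ne'
      field_simp
    have h3 : ((4 * R : ℝ) : ℂ) = 4 * R := by push_cast; ring
    rw [← h3] at h2
    exact_mod_cast h2
  calc ∑ y ∈ range (4 * R), Ph R (x - y / (4 * R : ℕ)) * sin (π * (x - y / (4 * R : ℕ))) ^ 2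
      ≤ ∑ y ∈ range (4 * R), F R (x - y / (4 * R : ℕ)) / (4 * W R) :=
        sum_le_sum fun y _ => h0 _
    _ = R / W R := by rw [← sum_div, h1]; field_simp
    _ ≤ R / ((R : ℝ) ^ 3 / 2) := by gcongr; exact W_ge hR
    _ = 2 / (R : ℝ) ^ 2 := by field_simp

lemma Ph_cont (R : ℕ) : Continuous (Ph R) := by
  unfold Ph D
  refine Continuous.div_const (Continuous.pow (Continuous.norm ?_) 4) _
  refine continuous_finsetSum _ fun i _ => continuous_e.comp ?_
  fun_prop

end Pool.Agent.W5h30.SM
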