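import Pool.Agent.W628.CG.Osc
import Pool.Agent.Y933.KD.Fej

/-!
# Oscillatory integrals for pairs of functions (helper30)
-/

set_option autoImplicit false

namespace Pool.Agent.W5h30.SM

open MeasureTheory intervalIntegral Set Pool.Agent.Y933.KD

/-- first derivative test -/
lemma osc1 {α β m0 M0 : ℝ} (hαβ : α ≤ β) (hm0 : 0 < m0) (ψ φ χ : ℝ → ℝ)
    (h1 : ∀ x ∈ Icc α β, HasDerivAt ψ (φ x) x) (h2 : ∀ x ∈ Icc α β, HasDerivAt φ (χ x) x)
    (h3 : ContinuousOn χ (Icc α β)) (h4 : ∀ x ∈ Icc α β, m0 ≤ |φ x|)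
    (h5 : ∀ x ∈ Icc α β, |χ x| ≤ M0) :
    ‖∫ x in α..β, Complex.exp (Complex.I * (ψ x : ℂ))‖ ≤ 2 / m0 + M0 * (β - α) / m0 ^ 2 := by
  have hu : uIcc α β = Icc α β := uIcc_of_le hαβ
  have cψ : ContinuousOn ψ (Icc α β) := fun x hx => (h1 x hx).continuousAt.continuousWithinAt
  have cφ : ContinuousOn φ (Icc α β) := fun x hx => (h2 x hx).continuousAt.continuousWithinAt
  have cE : ContinuousOn (fun x => Complex.exp (Complex.I * (ψ x : ℂ))) (Icc α β) := by
    apply Complex.continuous_exp.comp_continuousOn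
    exact continuousOn_const.mul (Complex.continuous_ofReal.comp_continuousOn cψ)
  have nE : ∀ x, ‖Complex.exp (Complex.I * (ψ x : ℂ))‖ = 1 := by
    intro x
    rw [mul_comm]
    exact Complex.norm_exp_ofReal_mul_I _
  have hne : ∀ x ∈ Icc α β, (φ x : ℂ) ≠ 0 := by
    intro x hx h0
    have h6 := h4 x hx
    have : φ x = 0 := by exact_mod_cast h0
    rw [this, abs_zero] at h6
    linarith
  have hG : ∀ x ∈ uIcc α β, HasDerivAt (fun s => Complex.exp (Complex.I * (ψ s : ℂ)) / (Complex.I * (φ s : ℂ)))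
      (Complex.exp (Complex.I * (ψ x : ℂ)) -
        Complex.exp (Complex.I * (ψ x : ℂ)) * (χ x : ℂ) / (Complex.I * (φ x : ℂ) ^ 2)) x := by
    intro x hx
    rw [hu] at hx
    have hI : Complex.I ≠ 0 := Complex.I_ne_zero
    have hp := hne x hx
    have d1 : HasDerivAt (fun s => Complex.exp (Complex.I * (ψ s : ℂ)))
        (Complex.exp (Complex.I * (ψ x : ℂ)) * (Complex.I * (φ x : ℂ))) x :=
      (((h1 x hx).ofReal_comp).const_mul Complex.I).cexp
    have d2 : HasDerivAt (fun s => Complex.I * (φ s : ℂ)) (Complex.I * (χ x : ℂ)) x :=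
      ((h2 x hx).ofReal_comp).const_mul Complex.I
    refine (d1.div d2 (mul_ne_zero hI hp)).congr_deriv ?_
    field_simp
  have hc1 : ContinuousOn (fun x => Complex.exp (Complex.I * (ψ x : ℂ)) * (χ x : ℂ) /
      (Complex.I * (φ x : ℂ) ^ 2)) (uIcc α β) := by
    rw [hu]
    apply ContinuousOn.div
    · exact cE.mul (Complex.continuous_ofReal.comp_continuousOn h3)
    · exact continuousOn_const.mul ((Complex.continuous_ofReal.comp_continuousOn cφ).pow 2)
    · intro x hx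
      exact mul_ne_zero Complex.I_ne_zero (pow_ne_zero 2 (hne x hx))
  have hintE : IntervalIntegrable (fun x => Complex.exp (Complex.I * (ψ x : ℂ))) volume α β := by
    apply ContinuousOn.intervalIntegrable
    rw [hu]
    exact cE
  have hint1 := hc1.intervalIntegrable (μ := volume)
  have hFTC := integral_eq_sub_of_hasDerivAt hG (hintE.sub hint1)
  rw [intervalIntegral.integral_sub hintE hint1] at hFTC
  have hb : ∀ x ∈ Icc α β, ‖Complex.exp (Complex.I * (ψ x : ℂ)) / (Complex.I * (φ x : ℂ))‖ ≤ 1 / m0 := by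
    intro x hx
    rw [norm_div, nE, norm_mul, Complex.norm_I, one_mul, Complex.norm_real, Real.norm_eq_abs]
    exact one_div_le_one_div_of_le hm0 (h4 x hx)
  have hM0 : 0 ≤ M0 := (abs_nonneg _).trans (h5 α (left_mem_Icc.2 hαβ))
  have hI2 : ‖∫ x in α..β, Complex.exp (Complex.I * (ψ x : ℂ)) * (χ x : ℂ) /
      (Complex.I * (φ x : ℂ) ^ 2)‖ ≤ M0 / m0 ^ 2 * (β - α) := by
    have h6 := norm_integral_le_of_norm_le_const (a := α) (b := β)
      (f := fun x => Complex.exp (Complex.I * (ψ x : ℂ)) * (χ x : ℂ) /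
      (Complex.I * (φ x : ℂ) ^ 2)) (C := M0 / m0 ^ 2) (by
        intro x hx
        rw [uIoc_of_le hαβ] at hx
        have hx' : x ∈ Icc α β := Ioc_subset_Icc_self hx
        rw [norm_div, norm_mul, nE, one_mul, norm_mul, Complex.norm_I, one_mul, norm_pow,
          Complex.norm_real, Complex.norm_real, Real.norm_eq_abs, Real.norm_eq_abs]
        exact div_le_div₀ hM0 (h5 x hx') (by positivity)
          (pow_le_pow_left₀ hm0.le (h4 x hx') 2))
    rw [abs_of_nonneg (by linarith)] at h6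
    exact h6
  have e1 : ∫ x in α..β, Complex.exp (Complex.I * (ψ x : ℂ)) =
      (Complex.exp (Complex.I * (ψ β : ℂ)) / (Complex.I * (φ β : ℂ)) -
        Complex.exp (Complex.I * (ψ α : ℂ)) / (Complex.I * (φ α : ℂ))) +
      ∫ x in α..β, Complex.exp (Complex.I * (ψ x : ℂ)) * (χ x : ℂ) / (Complex.I * (φ x : ℂ) ^ 2) := by
    rw [← hFTC]
    ring
  rw [e1]
  refine (norm_add_le _ _).trans ?_
  have h7 := norm_sub_le (Complex.exp (Complex.I * (ψ β : ℂ)) / (Complex.I * (φ β : ℂ)))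
    (Complex.exp (Complex.I * (ψ α : ℂ)) / (Complex.I * (φ α : ℂ)))
  have h8 := hb β (right_mem_Icc.2 hαβ)
  have h9 := hb α (left_mem_Icc.2 hαβ)
  have e2 : 2 / m0 + M0 * (β - α) / m0 ^ 2 = (1 / m0 + 1 / m0) + M0 / m0 ^ 2 * (β - α) := by ring
  rw [e2]
  linarith

/-- two functions with a nonzero Wronskian of the derivatives -/
structure Pair (f g f1 g1 f2 g2 : ℝ → ℝ) (a b B κ : ℝ) : Prop where
  hab : a < b
  hf1 : ∀ x ∈ Icc a b, HasDerivAt f (f1 x) x
  hg1 : ∀ x ∈ Icc a b, HasDerivAt g (g1 x) x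
  hf2 : ∀ x ∈ Icc a b, HasDerivAt f1 (f2 x) x
  hg2 : ∀ x ∈ Icc a b, HasDerivAt g1 (g2 x) x
  cf2 : ContinuousOn f2 (Icc a b)
  cg2 : ContinuousOn g2 (Icc a b)
  bf1 : ∀ x ∈ Icc a b, |f1 x| ≤ B
  bg1 : ∀ x ∈ Icc a b, |g1 x| ≤ B
  bf2 : ∀ x ∈ Icc a b, |f2 x| ≤ B
  bg2 : ∀ x ∈ Icc a b, |g2 x| ≤ B
  hκ : 0 < κ
  wr : ∀ x ∈ Icc a b, κ ≤ |f1 x * g2 x - f2 x * g1 x|

variable {f g f1 g1 f2 g2 : ℝ → ℝ} {a b B κ : ℝ}

lemma unif_mod {u : ℝ → ℝ} (hu : ContinuousOn u (Icc a b)) {ε : ℝ} (hε : 0 < ε) :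
    ∃ δ : ℝ, 0 < δ ∧ ∀ x ∈ Icc a b, ∀ y ∈ Icc a b, |x - y| ≤ δ → |u x - u y| ≤ ε := by
  have h := isCompact_Icc.uniformContinuousOn_of_continuous hu
  rw [Metric.uniformContinuousOn_iff] at h
  obtain ⟨δ, hδ, h2⟩ := h ε hε
  refine ⟨δ / 2, by positivity, fun x hx y hy hxy => ?_⟩
  have h3 := h2 x hx y hy (by rw [Real.dist_eq]; linarith)
  rw [Real.dist_eq] at h3
  exact h3.le

/-- the bound for the oscillatory integrals on short intervals -/
theorem Pair.osc (h : Pair f g f1 g1 f2 g2 a b B κ) : ∃ C δ : ℝ, 0 < C ∧ 0 < δ ∧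
    ∀ α β : ℝ, a ≤ α → α ≤ β → β ≤ b → β - α ≤ δ → ∀ l1 l2 : ℝ, 1 ≤ |l1| + |l2| →
    ‖∫ x in α..β, e (l1 * f x + l2 * g x)‖ ≤ C / √(|l1| + |l2|) := by
  have hab := h.hab
  have hκ := h.hκ
  have hpi := Real.pi_pos
  have hB : 0 < B := by
    by_contra hcon
    push Not at hcon
    have ha : a ∈ Icc a b := left_mem_Icc.2 hab.le
    have h1 := h.wr a ha
    have h2 : f1 a = 0 := abs_eq_zero.1 (le_antisymm ((h.bf1 a ha).trans hcon) (abs_nonneg _))
    have h3 : f2 a = 0 := abs_eq_zero.1 (le_antisymm ((h.bf2 a ha).trans hcon) (abs_nonneg _))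
    rw [h2, h3] at h1
    simp at h1
    linarith
  obtain ⟨ρ, hρ⟩ : ∃ ρ : ℝ, ρ = κ / (4 * B) := ⟨_, rfl⟩
  have hρ0 : 0 < ρ := by rw [hρ]; positivity
  have cf1 : ContinuousOn f1 (Icc a b) := fun x hx => (h.hf2 x hx).continuousAt.continuousWithinAt
  have cg1 : ContinuousOn g1 (Icc a b) := fun x hx => (h.hg2 x hx).continuousAt.continuousWithinAt
  obtain ⟨d1, hd1, m1⟩ := unif_mod cf1 (show 0 < ρ / 2 by positivity)
  obtain ⟨d2, hd2, m2⟩ := unif_mod cg1 (show 0 < ρ / 2 by positivity)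
  obtain ⟨d3, hd3, m3⟩ := unif_mod h.cf2 (show 0 < ρ / 2 by positivity)
  obtain ⟨d4, hd4, m4⟩ := unif_mod h.cg2 (show 0 < ρ / 2 by positivity)
  obtain ⟨δ, hδ⟩ : ∃ δ : ℝ, δ = min (min d1 d2) (min d3 d4) := ⟨_, rfl⟩
  have hδ0 : 0 < δ := by rw [hδ]; exact lt_min (lt_min hd1 hd2) (lt_min hd3 hd4)
  have e1 : δ ≤ d1 := by rw [hδ]; exact (min_le_left _ _).trans (min_le_left _ _)
  have e2 : δ ≤ d2 := by rw [hδ]; exact (min_le_left _ _).trans (min_le_right _ _)
  have e3 : δ ≤ d3 := by rw [hδ]; exact (min_le_right _ _).trans (min_le_left _ _)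
  have e4 : δ ≤ d4 := by rw [hδ]; exact (min_le_right _ _).trans (min_le_right _ _)
  obtain ⟨C1, hC1⟩ : ∃ C1 : ℝ, C1 = 2 / (Real.pi * ρ) + 2 * Real.pi * B * (b - a) / (Real.pi * ρ) ^ 2 := ⟨_, rfl⟩
  have hba : 0 < b - a := by linarith
  have hC10 : 0 < C1 := by rw [hC1]; positivity
  obtain ⟨C2, hC2⟩ : ∃ C2 : ℝ, C2 = 8 / √(Real.pi * ρ) := ⟨_, rfl⟩
  have hC20 : 0 < C2 := by rw [hC2]; positivity
  refine ⟨C1 + C2, δ, by positivity, hδ0, ?_⟩
  intro α β haα hαβ hβb hlen l1 l2 hΛ1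
  obtain ⟨Λ, hΛ⟩ : ∃ Λ : ℝ, Λ = |l1| + |l2| := ⟨_, rfl⟩
  rw [← hΛ] at hΛ1 ⊢
  have hΛ0 : 0 < Λ := by linarith
  have hsqΛ : √Λ ≤ Λ := by
    rw [Real.sqrt_le_left (by linarith)]
    nlinarith
  have hsq0 : 0 < √Λ := Real.sqrt_pos.2 hΛ0
  have hsub : ∀ x ∈ Icc α β, x ∈ Icc a b := fun x hx => ⟨haα.trans hx.1, hx.2.trans hβb⟩
  have hαmem : α ∈ Icc α β := left_mem_Icc.2 hαβ
  have hα := hsub α hαmem
  set P : ℝ → ℝ := fun x => l1 * f1 x + l2 * g1 x with hP
  set R : ℝ → ℝ := fun x => l1 * f2 x + l2 * g2 x with hR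
  -- moduli
  have hclose : ∀ (u v : ℝ → ℝ), (∀ x ∈ Icc α β, |u x - u α| ≤ ρ / 2) →
      (∀ x ∈ Icc α β, |v x - v α| ≤ ρ / 2) → ∀ x ∈ Icc α β,
      |(l1 * u x + l2 * v x) - (l1 * u α + l2 * v α)| ≤ ρ / 2 * Λ := by
    intro u v hu hv x hx
    have h1 : (l1 * u x + l2 * v x) - (l1 * u α + l2 * v α) = l1 * (u x - u α) + l2 * (v x - v α) := by ring
    rw [h1]
    refine (abs_add_le _ _).trans ?_
    rw [abs_mul, abs_mul, hΛ]
    have h2 := mul_le_mul_of_nonneg_left (hu x hx) (abs_nonneg l1)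
    have h3 := mul_le_mul_of_nonneg_left (hv x hx) (abs_nonneg l2)
    linarith
  have hdist : ∀ x ∈ Icc α β, |x - α| ≤ δ := by
    intro x hx
    rw [abs_of_nonneg (by linarith [hx.1])]
    linarith [hx.2]
  have hPc : ∀ x ∈ Icc α β, |P x - P α| ≤ ρ / 2 * Λ :=
    hclose f1 g1 (fun x hx => m1 x (hsub x hx) α hα ((hdist x hx).trans e1))
      (fun x hx => m2 x (hsub x hx) α hα ((hdist x hx).trans e2))
  have hRc : ∀ x ∈ Icc α β, |R x - R α| ≤ ρ / 2 * Λ :=
    hclose f2 g2 (fun x hx => m3 x (hsub x hx) α hα ((hdist x hx).trans e3))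
      (fun x hx => m4 x (hsub x hx) α hα ((hdist x hx).trans e4))
  -- lower bound
  have hlow : 2 * ρ * Λ ≤ |P α| + |R α| := by
    have hw := h.wr α hα
    have k1 : κ * |l1| ≤ B * (|P α| + |R α|) := by
      have h1 : l1 * (f1 α * g2 α - f2 α * g1 α) = P α * g2 α - R α * g1 α := by
        rw [hP, hR]; ring
      calc κ * |l1| ≤ |f1 α * g2 α - f2 α * g1 α| * |l1| := by gcongr
        _ = |P α * g2 α - R α * g1 α| := by rw [← h1, abs_mul]; ring
        _ ≤ |P α * g2 α| + |R α * g1 α| := abs_sub _ _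
        _ = |P α| * |g2 α| + |R α| * |g1 α| := by rw [abs_mul, abs_mul]
        _ ≤ |P α| * B + |R α| * B := by
            gcongr
            · exact h.bg2 α hα
            · exact h.bg1 α hα
        _ = _ := by ring
    have k2 : κ * |l2| ≤ B * (|P α| + |R α|) := by
      have h1 : l2 * (f1 α * g2 α - f2 α * g1 α) = R α * f1 α - P α * f2 α := by
        rw [hP, hR]; ring
      calc κ * |l2| ≤ |f1 α * g2 α - f2 α * g1 α| * |l2| := by gcongr
        _ = |R α * f1 α - P α * f2 α| := by rw [← h1, abs_mul]; ring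
        _ ≤ |R α * f1 α| + |P α * f2 α| := abs_sub _ _
        _ = |R α| * |f1 α| + |P α| * |f2 α| := by rw [abs_mul, abs_mul]
        _ ≤ |R α| * B + |P α| * B := by
            gcongr
            · exact h.bf1 α hα
            · exact h.bf2 α hα
        _ = _ := by ring
    have k3 : κ * Λ ≤ 2 * B * (|P α| + |R α|) := by rw [hΛ]; linarith
    have k4 : 2 * ρ * Λ = κ * Λ / (2 * B) := by rw [hρ]; field_simp; ring
    rw [k4, div_le_iff₀ (by positivity)]
    linarith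
  -- phase functions
  have d1' : ∀ x ∈ Icc α β, HasDerivAt (fun x => 2 * Real.pi * (l1 * f x + l2 * g x)) (2 * Real.pi * P x) x := by
    intro x hx
    exact (((h.hf1 x (hsub x hx)).const_mul l1).add ((h.hg1 x (hsub x hx)).const_mul l2)).const_mul _
  have d2' : ∀ x ∈ Icc α β, HasDerivAt (fun x => 2 * Real.pi * P x) (2 * Real.pi * R x) x := by
    intro x hx
    exact (((h.hf2 x (hsub x hx)).const_mul l1).add ((h.hg2 x (hsub x hx)).const_mul l2)).const_mul _
  have c2' : ContinuousOn (fun x => 2 * Real.pi * R x) (Icc α β) := by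
    refine continuousOn_const.mul ?_
    exact ((continuousOn_const.mul h.cf2).add (continuousOn_const.mul h.cg2)).mono hsub
  have hee : ∫ x in α..β, e (l1 * f x + l2 * g x) =
      ∫ x in α..β, Complex.exp (Complex.I * ((2 * Real.pi * (l1 * f x + l2 * g x) : ℝ) : ℂ)) := by
    congr 1
    funext x
    unfold e
    rw [mul_comm]
  rw [hee]
  have hfin1 : C1 / Λ ≤ (C1 + C2) / √Λ := by
    calc C1 / Λ ≤ C1 / √Λ := div_le_div_of_nonneg_left hC10.le hsq0 hsqΛ
      _ ≤ _ := by gcongr; linarith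
  have hfin2 : C2 / √Λ ≤ (C1 + C2) / √Λ := by
    gcongr
    linarith
  rcases le_or_gt (ρ * Λ) |P α| with hcase | hcase
  · -- the first derivative is large
    have hm0 : 0 < Real.pi * ρ * Λ := by positivity
    have hlarge : ∀ x ∈ Icc α β, Real.pi * ρ * Λ ≤ |2 * Real.pi * P x| := by
      intro x hx
      rw [abs_mul, abs_of_pos (by positivity : (0 : ℝ) < 2 * Real.pi)]
      have h1 := hPc x hx
      have h2 : |P α| - |P x| ≤ |P x - P α| := by
        rw [abs_sub_comm]; exact abs_sub_abs_le_abs_sub _ _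
      have h3 : ρ * Λ / 2 ≤ |P x| := by nlinarith
      nlinarith
    have hup : ∀ x ∈ Icc α β, |2 * Real.pi * R x| ≤ 2 * Real.pi * B * Λ := by
      intro x hx
      rw [abs_mul, abs_of_pos (by positivity : (0 : ℝ) < 2 * Real.pi)]
      have h1 : |R x| ≤ B * Λ := by
        rw [hR, hΛ]
        refine (abs_add_le _ _).trans ?_
        rw [abs_mul, abs_mul]
        have h2 := mul_le_mul_of_nonneg_left (h.bf2 x (hsub x hx)) (abs_nonneg l1)
        have h3 := mul_le_mul_of_nonneg_left (h.bg2 x (hsub x hx)) (abs_nonneg l2)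
        linarith
      nlinarith
    have hres := osc1 hαβ hm0 _ _ _ d1' d2' c2' hlarge hup
    refine hres.trans (le_trans ?_ hfin1)
    have h1 : 2 * Real.pi * B * Λ * (β - α) / (Real.pi * ρ * Λ) ^ 2 ≤
        2 * Real.pi * B * Λ * (b - a) / (Real.pi * ρ * Λ) ^ 2 := by
      gcongr
    have h2 : 2 / (Real.pi * ρ * Λ) + 2 * Real.pi * B * Λ * (b - a) / (Real.pi * ρ * Λ) ^ 2 = C1 / Λ := by
      rw [hC1]
      field_simp
    linarith
  · -- the second derivative is large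
    have hR0 : ρ * Λ ≤ |R α| := by nlinarith
    have hκ0 : 0 < Real.pi * ρ * Λ := by positivity
    have hfin : 8 / √(Real.pi * ρ * Λ) = C2 / √Λ := by
      rw [hC2, Real.sqrt_mul (by positivity), div_div]
    rcases le_abs'.1 hR0 with hneg | hpos
    · have hχ : ∀ x ∈ Icc α β, 2 * Real.pi * R x ≤ -(Real.pi * ρ * Λ) := by
        intro x hx
        have h1 := (abs_le.1 (hRc x hx)).2
        have h2 : R x ≤ -(ρ * Λ / 2) := by linarith
        nlinarith
      have hres := W628.CG.vdc_neg hαβ hκ0 _ _ _ d1' d2' c2' hχ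
      rw [hfin] at hres
      exact hres.trans hfin2
    · have hχ : ∀ x ∈ Icc α β, Real.pi * ρ * Λ ≤ 2 * Real.pi * R x := by
        intro x hx
        have h1 := (abs_le.1 (hRc x hx)).1
        have h2 : ρ * Λ / 2 ≤ R x := by linarith
        nlinarith
      have hres := W628.CG.vdc hαβ hκ0 _ _ _ d1' d2' c2' hχ
      rw [hfin] at hres
      exact hres.trans hfin2

end Pool.Agent.W5h30.SM
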