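import Pool.Agent.W5h30.SM.Harm
import Pool.Agent.W5h30.SM.Osc
import Pool.Agent.W5h30.SM.Glue

/-!
# The joint law of the cells of two functions on short intervals (helper30)
-/

set_option autoImplicit false
set_option linter.unusedVariables false

namespace Pool.Agent.W5h30.SM

open MeasureTheory Set Filter Pool.Agent.Y933.KD
open Pool.Agent.W5h30.LL

variable {f g f1 g1 f2 g2 : ℝ → ℝ} {a b B κ : ℝ}

/-- the two scaled functions -/
def uu (m : Fin 2 → ℕ) (f g : ℝ → ℝ) : Fin 2 → ℝ → ℝ := ![fun t => m 0 * f t, fun t => m 1 * g t]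

/-- the cells of the two scaled functions -/
noncomputable def cells (m K : Fin 2 → ℕ) (f g : ℝ → ℝ) (t : ℝ) : Fin 2 → ℕ :=
  fun j => cell (K j) (uu m f g j t)

/-- the event for the pair -/
def PV (a b : ℝ) (m K : Fin 2 → ℕ) (f g : ℝ → ℝ) (E : Finset (Fin 2 → ℕ)) : Set ℝ :=
  {t | t ∈ Icc a b ∧ cells m K f g t ∈ E}

/-- continuous extension from `[a, b]` -/
noncomputable def ex (hab : a ≤ b) (f : ℝ → ℝ) : ℝ → ℝ := IccExtend hab ((Icc a b).domRestrict f)

lemma ex_cont (hab : a ≤ b) (hf : ContinuousOn f (Icc a b)) : Continuous (ex hab f) := by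
  rw [continuousOn_iff_continuous_domRestrict] at hf
  exact hf.Icc_extend'

lemma ex_eq (hab : a ≤ b) {t : ℝ} (ht : t ∈ Icc a b) : ex hab f t = f t := by
  unfold ex
  rw [IccExtend_of_mem _ _ ht]
  rfl

lemma cells_ex (hab : a ≤ b) (m K : Fin 2 → ℕ) {t : ℝ} (ht : t ∈ Icc a b) :
    cells m K (ex hab f) (ex hab g) t = cells m K f g t := by
  funext j
  unfold cells uu
  fin_cases j
  · simp [ex_eq hab ht]
  · simp [ex_eq hab ht]

lemma uu_meas (m : Fin 2 → ℕ) (hf : Continuous f) (hg : Continuous g) (j : Fin 2) :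
    Measurable (uu m f g j) := by
  unfold uu
  fin_cases j
  · exact (continuous_const.mul hf).measurable
  · exact (continuous_const.mul hg).measurable

lemma cells_meas (m K : Fin 2 → ℕ) (hf : Continuous f) (hg : Continuous g) :
    Measurable (cells m K f g) := by
  refine measurable_pi_lambda _ fun j => ?_
  exact (cell_meas (K j)).comp (uu_meas m hf hg j)

lemma PV_meas (hab : a ≤ b) (m K : Fin 2 → ℕ) (hf : ContinuousOn f (Icc a b))
    (hg : ContinuousOn g (Icc a b)) (E : Finset (Fin 2 → ℕ)) : MeasurableSet (PV a b m K f g E) := by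
  have h1 : PV a b m K f g E = Icc a b ∩ (cells m K (ex hab f) (ex hab g)) ⁻¹' (E : Set (Fin 2 → ℕ)) := by
    ext t
    constructor
    · rintro ⟨ht, h⟩
      refine ⟨ht, ?_⟩
      rw [mem_preimage, cells_ex hab m K ht]
      exact h
    · rintro ⟨ht, h⟩
      refine ⟨ht, ?_⟩
      rw [mem_preimage, cells_ex hab m K ht] at h
      exact h
  rw [h1]
  exact measurableSet_Icc.inter (cells_meas m K (ex_cont hab hf) (ex_cont hab hg)
    E.finite_toSet.measurableSet)

/-- the size of the double sum -/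
noncomputable def SS (m K : Fin 2 → ℕ) (J : ℕ) : ℝ :=
  4 * (2 * rad K J 0 : ℕ) / (m 1 : ℝ) * (1 + Real.log (2 * rad K J 1 : ℕ)) +
    2 / (m 0 : ℝ) * (1 + Real.log (2 * rad K J 0 : ℕ))

lemma SS_le (m K : Fin 2 → ℕ) (hm : ∀ j, 1 ≤ m j) (hK : ∀ j, 0 < K j) {J : ℕ} (hJ : 0 < J) :
    ∑ k ∈ (box (rad K J)).erase 0, 1 / (|(k 0 : ℝ)| * m 0 + |(k 1 : ℝ)| * m 1) ≤ SS m K J := by
  have hrad : ∀ j, 1 ≤ 2 * rad K J j := by
    intro j
    unfold rad
    have := hK j
    have : 0 < K j * J ^ 2 := by positivity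
    omega
  have hbox : box (rad K J) = Fintype.piFinset fun j => Finset.Ioo (-((2 * rad K J j : ℕ) : ℤ))
      ((2 * rad K J j : ℕ) : ℤ) := by
    unfold box
    push_cast
    rfl
  rw [hbox]
  have hm0 : (0 : ℝ) < m 0 := by exact_mod_cast hm 0
  have hm1 : (0 : ℝ) < m 1 := by exact_mod_cast hm 1
  exact harm_pair (fun j => 2 * rad K J j) hrad hm0 hm1

lemma SS_le' (m K : Fin 2 → ℕ) (hm : ∀ j, 1 ≤ m j) (hK : ∀ j, 0 < K j) {J : ℕ} (hJ : 0 < J) :
    ∑ k ∈ (box (rad K J)).erase 0, 1 / (|(k 0 : ℝ)| * m 0 + |(k 1 : ℝ)| * m 1) ≤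
      SS ![m 1, m 0] ![K 1, K 0] J := by
  classical
  refine le_trans (le_of_eq ?_) (SS_le ![m 1, m 0] ![K 1, K 0] (fun j => ?_) (fun j => ?_) hJ)
  · refine Finset.sum_bij' (fun k _ => ![k 1, k 0]) (fun k _ => ![k 1, k 0]) ?_ ?_ ?_ ?_ ?_
    · intro k hk
      unfold box rad at hk ⊢
      rw [Finset.mem_erase, Fintype.mem_piFinset] at hk ⊢
      refine ⟨fun h0 => hk.1 ?_, fun j => ?_⟩
      · have h3 := congrFun h0 0
        have h4 := congrFun h0 1
        simp at h3 h4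
        funext j
        fin_cases j
        · exact h4
        · exact h3
      · fin_cases j
        · exact hk.2 1
        · exact hk.2 0
    · intro k hk
      unfold box rad at hk ⊢
      rw [Finset.mem_erase, Fintype.mem_piFinset] at hk ⊢
      refine ⟨fun h0 => hk.1 ?_, fun j => ?_⟩
      · have h3 := congrFun h0 0
        have h4 := congrFun h0 1
        simp at h3 h4
        funext j
        fin_cases j
        · exact h4
        · exact h3
      · fin_cases j
        · exact hk.2 1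
        · exact hk.2 0
    · intro k _
      funext j
      fin_cases j <;> rfl
    · intro k _
      funext j
      fin_cases j <;> rfl
    · intro k _
      simp only [Matrix.cons_val_zero, Matrix.cons_val_one]
      rw [add_comm]
  · fin_cases j
    · exact hm 1
    · exact hm 0
  · fin_cases j
    · exact hK 1
    · exact hK 0

/-- the joint law on short intervals -/
theorem interval_law (h : Pair f g f1 g1 f2 g2 a b B κ) {C δ : ℝ} (hC : 0 < C)
    (hosc : ∀ α β : ℝ, a ≤ α → α ≤ β → β ≤ b → β - α ≤ δ → ∀ l1 l2 : ℝ, 1 ≤ |l1| + |l2| →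
      ‖∫ x in α..β, e (l1 * f x + l2 * g x)‖ ≤ C / √(|l1| + |l2|))
    {α β : ℝ} (haα : a ≤ α) (hαβ : α < β) (hβb : β ≤ b) (hlen : β - α ≤ δ) (m K : Fin 2 → ℕ)
    (hm : ∀ j, 1 ≤ m j) (hK : ∀ j, 0 < K j) {J : ℕ} (hJ : 0 < J) (E : Finset (Fin 2 → ℕ))
    (hE : ∀ w ∈ E, ∀ j, w j < K j) {S : ℝ}
    (hS : ∑ k ∈ (box (rad K J)).erase 0, 1 / (|(k 0 : ℝ)| * m 0 + |(k 1 : ℝ)| * m 1) ≤ S) :
    |volume.real (PV a b m K f g E ∩ Icc α β) - (E.card : ℝ) / (K 0 * K 1 : ℝ) * (β - α)| ≤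
      (10 / J + 9 * (C / (β - α) * √S)) * (β - α) := by
  classical
  have hab := h.hab
  have hfc : ContinuousOn f (Icc a b) := fun x hx => (h.hf1 x hx).continuousAt.continuousWithinAt
  have hgc : ContinuousOn g (Icc a b) := fun x hx => (h.hg1 x hx).continuousAt.continuousWithinAt
  have hsub : Icc α β ⊆ Icc a b := Icc_subset_Icc haα hβb
  have hℓ : 0 < β - α := by linarith
  set fe := ex hab.le f with hfe
  set ge := ex hab.le g with hge
  have hfec : Continuous fe := ex_cont hab.le hfc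
  have hgec : Continuous ge := ex_cont hab.le hgc
  -- the measure
  have hvol : volume (Icc α β) = ENNReal.ofReal (β - α) := Real.volume_Icc
  set μ : Measure ℝ := (volume (Icc α β))⁻¹ • volume.restrict (Icc α β) with hμ
  have hμp : IsProbabilityMeasure μ := by
    constructor
    rw [hμ, Measure.smul_apply, Measure.restrict_apply_univ, hvol, smul_eq_mul]
    exact ENNReal.inv_mul_cancel (by simp [hαβ]) ENNReal.ofReal_ne_top
  have hcoef : ((volume (Icc α β))⁻¹).toReal = (β - α)⁻¹ := by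
    rw [ENNReal.toReal_inv, hvol, ENNReal.toReal_ofReal hℓ.le]
  have hsm := smooth μ K hK hJ (uu m fe ge) (uu_meas m hfec hgec) E hE
  -- the left side
  have hleft : ∫ ω, (if (fun j => cell (K j) (uu m fe ge j ω)) ∈ E then (1 : ℝ) else 0) ∂μ =
      (β - α)⁻¹ * volume.real (PV a b m K f g E ∩ Icc α β) := by
    rw [hμ, integral_smul_measure, hcoef, smul_eq_mul]
    congr 1
    have hms : MeasurableSet {t | cells m K fe ge t ∈ E} :=
      cells_meas m K hfec hgec E.finite_toSet.measurableSet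
    have h1 : (fun ω => if (fun j => cell (K j) (uu m fe ge j ω)) ∈ E then (1 : ℝ) else 0) =
        {t | cells m K fe ge t ∈ E}.indicator 1 := by
      funext t
      rw [indicator_apply]
      rfl
    rw [h1, integral_indicator_one hms, measureReal_restrict_apply hms]
    congr 1
    ext t
    constructor
    · rintro ⟨h2, h3⟩
      refine ⟨⟨hsub h3, ?_⟩, h3⟩
      rw [← cells_ex hab.le m K (hsub h3)]
      exact h2
    · rintro ⟨⟨h2, h4⟩, h3⟩
      refine ⟨?_, h3⟩
      show cells m K fe ge t ∈ E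
      rw [hfe, hge, cells_ex hab.le m K (hsub h3)]
      exact h4
  rw [hleft] at hsm
  -- the Fourier coefficients
  have hhat : ∀ k : Fin 2 → ℤ, k ≠ 0 → ‖hat μ (uu m fe ge) k‖ ^ 2 ≤
      (C / (β - α)) ^ 2 * (1 / (|(k 0 : ℝ)| * m 0 + |(k 1 : ℝ)| * m 1)) := by
    intro k hk
    have h1 : hat μ (uu m fe ge) k = ((β - α)⁻¹ : ℝ) •
        ∫ x in α..β, e ((k 0 * m 0 : ℝ) * f x + (k 1 * m 1 : ℝ) * g x) := by
      unfold hat
      rw [hμ, integral_smul_measure, hcoef]
      congr 1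
      rw [intervalIntegral.integral_of_le hαβ.le, ← integral_Icc_eq_integral_Ioc]
      refine setIntegral_congr_fun measurableSet_Icc fun t ht => ?_
      have ht' := hsub ht
      simp only [Fin.sum_univ_two]
      congr 1
      unfold uu
      simp only [Matrix.cons_val_zero, Matrix.cons_val_one, hfe, hge, ex_eq hab.le ht']
      ring
    have hΛ : |(k 0 * m 0 : ℝ)| + |(k 1 * m 1 : ℝ)| = |(k 0 : ℝ)| * m 0 + |(k 1 : ℝ)| * m 1 := by
      rw [abs_mul, abs_mul, Nat.abs_cast, Nat.abs_cast]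
    have hΛ1 : 1 ≤ |(k 0 * m 0 : ℝ)| + |(k 1 * m 1 : ℝ)| := by
      rw [hΛ]
      have hm0 : (1 : ℝ) ≤ m 0 := by exact_mod_cast hm 0
      have hm1 : (1 : ℝ) ≤ m 1 := by exact_mod_cast hm 1
      by_cases h0 : k 0 = 0
      · have h1 : k 1 ≠ 0 := by
          intro h1
          apply hk
          funext j
          fin_cases j
          · exact h0
          · exact h1
        have h2 : (1 : ℝ) ≤ |(k 1 : ℝ)| := by exact_mod_cast Int.one_le_abs h1
        have h3 : 0 ≤ |(k 0 : ℝ)| * m 0 := by positivity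
        nlinarith
      · have h2 : (1 : ℝ) ≤ |(k 0 : ℝ)| := by exact_mod_cast Int.one_le_abs h0
        have h3 : 0 ≤ |(k 1 : ℝ)| * m 1 := by positivity
        nlinarith
    have h2 := hosc α β haα hαβ.le hβb hlen _ _ hΛ1
    rw [h1, norm_smul, Real.norm_eq_abs, abs_of_pos (inv_pos.2 hℓ)]
    rw [hΛ] at h2 hΛ1
    obtain ⟨Λ, hΛd⟩ : ∃ Λ : ℝ, Λ = |(k 0 : ℝ)| * m 0 + |(k 1 : ℝ)| * m 1 := ⟨_, rfl⟩
    rw [← hΛd] at h2 hΛ1 ⊢
    have hΛ0 : 0 < Λ := by linarith
    calc ((β - α)⁻¹ * ‖∫ x in α..β, e ((k 0 * m 0 : ℝ) * f x + (k 1 * m 1 : ℝ) * g x)‖) ^ 2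
        ≤ ((β - α)⁻¹ * (C / √Λ)) ^ 2 := by gcongr
      _ = (C / (β - α)) ^ 2 * (1 / (√Λ) ^ 2) := by
          have := (Real.sqrt_pos.2 hΛ0).ne'
          field_simp
      _ = (C / (β - α)) ^ 2 * (1 / Λ) := by rw [Real.sq_sqrt hΛ0.le]
  have hD2 : D2 μ (uu m fe ge) K J ≤ C / (β - α) * √S := by
    have hpos : 0 ≤ C / (β - α) := by positivity
    rw [← Real.sqrt_sq hpos, ← Real.sqrt_mul (by positivity)]
    unfold D2
    refine Real.sqrt_le_sqrt ?_
    refine (Finset.sum_le_sum fun k hk => hhat k (Finset.mem_erase.1 hk).1).trans ?_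
    rw [← Finset.mul_sum]
    exact mul_le_mul_of_nonneg_left hS (by positivity)
  rw [Fin.prod_univ_two, Fintype.card_fin] at hsm
  have h3 : |volume.real (PV a b m K f g E ∩ Icc α β) - (E.card : ℝ) / (K 0 * K 1 : ℝ) * (β - α)| =
      |(β - α)⁻¹ * volume.real (PV a b m K f g E ∩ Icc α β) - (E.card : ℝ) / (K 0 * K 1 : ℝ)| * (β - α) := by
    rw [← abs_of_pos hℓ, ← abs_mul, abs_of_pos hℓ]
    congr 1
    field_simp
  rw [h3]
  refine mul_le_mul_of_nonneg_right (hsm.trans ?_) hℓ.le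
  push_cast
  have h4 : (2 : ℝ) * (5 / J) = 10 / J := by ring
  rw [h4]
  have h5 : ((4 : ℝ) * 2 + 1) * D2 μ (uu m fe ge) K J ≤ 9 * (C / (β - α) * √S) := by
    have h6 : ((4 : ℝ) * 2 + 1) = 9 := by norm_num
    rw [h6]
    exact mul_le_mul_of_nonneg_left hD2 (by norm_num)
  linarith

end Pool.Agent.W5h30.SM
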