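import Pool.Agent.W5h30.SM.Pair

/-!
# The joint law of the digits of two functions of a random algebraic number (helper30)
-/

set_option autoImplicit false
set_option linter.unusedVariables false

namespace Pool.Agent.W5h30.SM

open MeasureTheory Set Filter Pool.Agent.Y933.KD
open Pool.Agent.Y933.KG Pool.Agent.W5h30.LL

variable {f g f1 g1 f2 g2 : ℝ → ℝ} {a b B κ : ℝ}

/-- few boundary points -/
def FO (f : ℝ → ℝ) (a b : ℝ) : Prop := ∃ C : ℝ, 0 ≤ C ∧ ∀ N : ℕ, 1 ≤ N →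
  ∃ Q : Finset ℝ, (Q.card : ℝ) ≤ C * N ∧ ∀ x y : ℝ, x < y → (∀ z ∈ Q, z ∉ Icc x y) →
    (x ∈ Icc a b ↔ y ∈ Icc a b) ∧ (x ∈ Icc a b → ⌊(N : ℝ) * f x⌋ = ⌊(N : ℝ) * f y⌋)

lemma nice_FO {F : ℝ → ℝ} {lam L : ℝ} (h : Nice f F a b lam L) : FO f a b := by
  classical
  obtain ⟨α, β, hαβ, himg⟩ := h.image
  refine ⟨(β - α) + 3, by linarith, fun M hM => ?_⟩
  obtain ⟨N, hN⟩ : ∃ N : ℝ, N = (M : ℝ) := ⟨_, rfl⟩
  have hN1 : 1 ≤ N := by rw [hN]; exact_mod_cast hM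
  have hN0 : 0 < N := by linarith
  set Q : Finset ℝ := insert a (insert b ((Finset.Icc ⌈N * α⌉ ⌊N * β⌋).image
    (fun j : ℤ => inv f a b ((j : ℝ) / N)))) with hQ
  refine ⟨Q, ?_, ?_⟩
  · have h1 : (Q.card : ℝ) ≤ (((Finset.Icc ⌈N * α⌉ ⌊N * β⌋).card : ℕ) : ℝ) + 2 := by
      have h2 : Q.card ≤ (Finset.Icc ⌈N * α⌉ ⌊N * β⌋).card + 1 + 1 := by
        refine (Finset.card_insert_le _ _).trans (Nat.add_le_add_right ?_ 1)
        exact (Finset.card_insert_le _ _).trans (Nat.add_le_add_right Finset.card_image_le 1)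
      have h3 : (Q.card : ℝ) ≤ (((Finset.Icc ⌈N * α⌉ ⌊N * β⌋).card + 1 + 1 : ℕ) : ℝ) := by exact_mod_cast h2
      push_cast at h3
      linarith
    have h2 : (((Finset.Icc ⌈N * α⌉ ⌊N * β⌋).card : ℕ) : ℝ) ≤ N * (β - α) + 1 := by
      rw [Int.card_Icc]
      rcases le_or_gt 0 (⌊N * β⌋ + 1 - ⌈N * α⌉) with h | h
      · have h4 : (((⌊N * β⌋ + 1 - ⌈N * α⌉).toNat : ℕ) : ℝ) = ((⌊N * β⌋ + 1 - ⌈N * α⌉ : ℤ) : ℝ) := by
          have : (((⌊N * β⌋ + 1 - ⌈N * α⌉).toNat : ℕ) : ℤ) = ⌊N * β⌋ + 1 - ⌈N * α⌉ := Int.toNat_of_nonneg h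
          exact_mod_cast congrArg (fun z : ℤ => (z : ℝ)) this
        rw [h4]
        push_cast
        have h5 : (⌊N * β⌋ : ℝ) ≤ N * β := Int.floor_le _
        have h6 : N * α ≤ (⌈N * α⌉ : ℝ) := Int.le_ceil _
        linarith
      · rw [Int.toNat_of_nonpos h.le]
        push_cast
        have : 0 ≤ N * (β - α) := mul_nonneg hN0.le (by linarith)
        linarith
    rw [← hN]
    have h3 : 3 * N + N * (β - α) = ((β - α) + 3) * N := by ring
    rw [← h3]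
    linarith
  · intro x y hxy hno
    have haQ : a ∈ Q := by rw [hQ]; simp
    have hbQ : b ∈ Q := by rw [hQ]; simp
    have hIcc : x ∈ Icc a b ↔ y ∈ Icc a b := by
      refine off_Icc a b x y hxy fun z hz => ?_
      rw [Finset.mem_insert, Finset.mem_singleton] at hz
      rcases hz with rfl | rfl
      · exact hno _ haQ
      · exact hno _ hbQ
    refine ⟨hIcc, fun hx => ?_⟩
    have hy := hIcc.1 hx
    have hsub : Icc x y ⊆ Icc a b := Icc_subset_Icc hx.1 hy.2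
    have hno' : ∀ t ∈ Icc x y, ∀ j : ℤ, N * f t ≠ j := by
      intro t ht j hj
      have htab := hsub ht
      refine hno t ?_ ht
      rw [hQ, Finset.mem_insert, Finset.mem_insert, Finset.mem_image]
      right; right
      have hft : f t ∈ Icc α β := by rw [← himg]; exact ⟨t, htab, rfl⟩
      refine ⟨j, ?_, ?_⟩
      · rw [Finset.mem_Icc, Int.ceil_le, Int.le_floor, ← hj]
        exact ⟨mul_le_mul_of_nonneg_left hft.1 hN0.le, mul_le_mul_of_nonneg_left hft.2 hN0.le⟩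
      · have : (j : ℝ) / N = f t := by rw [← hj]; field_simp
        rw [this, h.inv_f htab]
    have hivt : ∀ j : ℤ, (j : ℝ) ∉ uIcc (N * f x) (N * f y) := by
      intro j hj
      have hc : ContinuousOn (fun t => N * f t) (uIcc x y) := by
        rw [uIcc_of_le hxy.le]
        exact continuousOn_const.mul (h.cont.mono hsub)
      obtain ⟨t, ht, hft⟩ := intermediate_value_uIcc hc hj
      rw [uIcc_of_le hxy.le] at ht
      exact hno' t ht j hft
    rw [← hN]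
    rcases lt_trichotomy ⌊N * f x⌋ ⌊N * f y⌋ with h1 | h1 | h1
    · exfalso
      refine hivt ⌊N * f y⌋ (mem_uIcc.2 (Or.inl ⟨?_, Int.floor_le _⟩))
      have h2 : N * f x < ⌊N * f x⌋ + 1 := Int.lt_floor_add_one _
      have h3 : (⌊N * f x⌋ : ℝ) + 1 ≤ ⌊N * f y⌋ := by exact_mod_cast h1
      linarith
    · exact h1
    · exfalso
      refine hivt ⌊N * f x⌋ (mem_uIcc.2 (Or.inr ⟨?_, Int.floor_le _⟩))
      have h2 : N * f y < ⌊N * f y⌋ + 1 := Int.lt_floor_add_one _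
      have h3 : (⌊N * f y⌋ : ℝ) + 1 ≤ ⌊N * f x⌋ := by exact_mod_cast h1
      linarith

/-- the cells in terms of integer parts -/
lemma cell_floor (m K : ℕ) (hK : 1 ≤ K) (x : ℝ) :
    cell K ((m : ℝ) * x) = (⌊((m * K : ℕ) : ℝ) * x⌋ % (K : ℤ)).toNat := floor_fract m K hK x

/-- the events have few boundary points -/
lemma PV_off (hf : FO f a b) (hg : FO g a b) : ∃ C : ℝ, 0 ≤ C ∧ ∀ m K : Fin 2 → ℕ, (∀ j, 1 ≤ m j) →
    (∀ j, 1 ≤ K j) → ∃ Q : Finset ℝ, (Q.card : ℝ) ≤ C * ((m 0 : ℝ) * K 0 + (m 1 : ℝ) * K 1) ∧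
    ∀ E : Finset (Fin 2 → ℕ), Off Q (PV a b m K f g E) := by
  classical
  obtain ⟨Cf, hCf, hf2⟩ := hf
  obtain ⟨Cg, hCg, hg2⟩ := hg
  refine ⟨Cf + Cg, by positivity, fun m K hm hK => ?_⟩
  obtain ⟨Qf, hQf, hf3⟩ := hf2 (m 0 * K 0) (Nat.mul_pos (hm 0) (hK 0))
  obtain ⟨Qg, hQg, hg3⟩ := hg2 (m 1 * K 1) (Nat.mul_pos (hm 1) (hK 1))
  refine ⟨Qf ∪ Qg, ?_, fun E x y hxy hno => ?_⟩
  · have h1 : ((Qf ∪ Qg).card : ℝ) ≤ Qf.card + Qg.card := by exact_mod_cast Finset.card_union_le _ _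
    push_cast at hQf hQg
    have h2 : 0 ≤ (m 0 : ℝ) * K 0 := by positivity
    have h3 : 0 ≤ (m 1 : ℝ) * K 1 := by positivity
    nlinarith [mul_nonneg hCf h3, mul_nonneg hCg h2]
  · obtain ⟨a1, a2⟩ := hf3 x y hxy fun z hz => hno z (Finset.mem_union_left _ hz)
    obtain ⟨_, b2⟩ := hg3 x y hxy fun z hz => hno z (Finset.mem_union_right _ hz)
    have key : x ∈ Icc a b → cells m K f g x = cells m K f g y := by
      intro hx
      have h1 := a2 hx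
      have h2 := b2 hx
      funext j
      unfold cells uu
      fin_cases j
      · show cell (K 0) ((m 0 : ℝ) * f x) = cell (K 0) ((m 0 : ℝ) * f y)
        rw [cell_floor _ _ (hK 0), cell_floor _ _ (hK 0), h1]
      · show cell (K 1) ((m 1 : ℝ) * g x) = cell (K 1) ((m 1 : ℝ) * g y)
        rw [cell_floor _ _ (hK 1), cell_floor _ _ (hK 1), h2]
    constructor
    · rintro ⟨hx, hE⟩
      exact ⟨a1.1 hx, by rw [← key hx]; exact hE⟩
    · rintro ⟨hy, hE⟩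
      have hx := a1.2 hy
      exact ⟨hx, by rw [key hx]; exact hE⟩

lemma ceil_le_two {T : ℝ} (hT : 1 ≤ T) : (⌈T⌉₊ : ℝ) ≤ 2 * T := by
  have := (Nat.ceil_lt_add_one (by linarith : (0 : ℝ) ≤ T)).le
  linarith

/-- the size of `SS` -/
lemma SS_size {m K : Fin 2 → ℕ} {J : ℕ} {T X : ℝ} (hT : 1 ≤ T) (hJ : J = ⌈T⌉₊) (hm : ∀ j, 1 ≤ m j)
    (hK : ∀ j, 0 < K j) (hmT : T ^ 16 ≤ m 0) (hKm : (K 0 : ℝ) * T ^ 16 ≤ m 1)
    (hKX : ∀ j, (K j : ℝ) ≤ X) (hlog : 1 + Real.log (8 * X * T ^ 2) ≤ T ^ 2) :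
    √(SS m K J) ≤ 6 / T ^ 6 := by
  have hT0 : 0 < T := by linarith
  have hJT : (J : ℝ) ≤ 2 * T := by rw [hJ]; exact ceil_le_two hT
  have hJ0 : (0 : ℝ) ≤ J := Nat.cast_nonneg J
  have hJpos : 0 < J := by rw [hJ]; exact Nat.ceil_pos.2 hT0
  have hJ2 : (J : ℝ) ^ 2 ≤ 4 * T ^ 2 := by nlinarith
  have hn : ∀ j, ((2 * rad K J j : ℕ) : ℝ) ≤ 8 * K j * T ^ 2 := by
    intro j
    unfold rad
    push_cast
    have hK0 : (0 : ℝ) ≤ K j := Nat.cast_nonneg _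
    nlinarith [mul_le_mul_of_nonneg_left hJ2 hK0]
  have hl : ∀ j, 1 + Real.log ((2 * rad K J j : ℕ) : ℝ) ≤ T ^ 2 := by
    intro j
    refine le_trans ?_ hlog
    have hpos : (0 : ℝ) < ((2 * rad K J j : ℕ) : ℝ) := by
      have h1 := hK j
      have h2 : 0 < 2 * rad K J j := by unfold rad; positivity
      exact_mod_cast h2
    have h3 : ((2 * rad K J j : ℕ) : ℝ) ≤ 8 * X * T ^ 2 := by
      refine (hn j).trans ?_
      have := hKX j
      gcongr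
    have := Real.log_le_log hpos h3
    linarith
  have hl0 : ∀ j, 0 ≤ 1 + Real.log ((2 * rad K J j : ℕ) : ℝ) := by
    intro j
    have h1 := Real.log_natCast_nonneg (2 * rad K J j)
    linarith
  have hm0 : (0 : ℝ) < m 0 := by exact_mod_cast hm 0
  have hm1 : (0 : ℝ) < m 1 := by exact_mod_cast hm 1
  have hSS : SS m K J ≤ 34 / T ^ 12 := by
    unfold SS
    have e1 : 4 * ((2 * rad K J 0 : ℕ) : ℝ) / (m 1 : ℝ) ≤ 32 / T ^ 14 := by
      rw [div_le_div_iff₀ hm1 (by positivity)]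
      have h1 := hn 0
      calc 4 * ((2 * rad K J 0 : ℕ) : ℝ) * T ^ 14 ≤ 4 * (8 * K 0 * T ^ 2) * T ^ 14 := by gcongr
        _ = 32 * ((K 0 : ℝ) * T ^ 16) := by ring
        _ ≤ 32 * m 1 := by gcongr
    have e2 : 2 / (m 0 : ℝ) ≤ 2 / T ^ 14 := by
      apply div_le_div_of_nonneg_left (by norm_num) (by positivity)
      refine le_trans ?_ hmT
      exact pow_le_pow_right₀ hT (by norm_num)
    calc 4 * ((2 * rad K J 0 : ℕ) : ℝ) / (m 1 : ℝ) * (1 + Real.log ((2 * rad K J 1 : ℕ) : ℝ)) +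
        2 / (m 0 : ℝ) * (1 + Real.log ((2 * rad K J 0 : ℕ) : ℝ))
        ≤ 32 / T ^ 14 * T ^ 2 + 2 / T ^ 14 * T ^ 2 := by
          have h3 : 0 ≤ 4 * ((2 * rad K J 0 : ℕ) : ℝ) / (m 1 : ℝ) := by positivity
          exact add_le_add (mul_le_mul e1 (hl 1) (hl0 1) (by positivity))
            (mul_le_mul e2 (hl 0) (hl0 0) (by positivity))
      _ = 34 / T ^ 12 := by field_simp; norm_num
  calc √(SS m K J) ≤ √((6 / T ^ 6) ^ 2) := by
        apply Real.sqrt_le_sqrt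
        refine hSS.trans ?_
        rw [div_pow, ← pow_mul]
        gcongr
        norm_num
    _ = 6 / T ^ 6 := Real.sqrt_sq (by positivity)

lemma num1 {C ba T J S : ℝ} (hC : 0 < C) (hba : 0 < ba) (hT1 : 1 ≤ T) (hJ0 : 0 < J) (hJT : J ≤ 2 * T)
    (hJge : T ≤ J) (hg : 108 * C / ba ≤ T) (hS : √S ≤ 6 / T ^ 6) :
    10 / J + 9 * (C / (ba / J) * √S) ≤ 12 / T := by
  have hT0 : 0 < T := by linarith
  have h1 : C / (ba / J) ≤ 2 * C * T / ba := by
    rw [div_div_eq_mul_div]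
    have : C * J ≤ 2 * C * T := by nlinarith
    gcongr
  have h2 : 9 * (C / (ba / J) * √S) ≤ 1 / T := by
    have h0 : 0 ≤ √S := Real.sqrt_nonneg _
    have h3 : C / (ba / J) * √S ≤ 2 * C * T / ba * (6 / T ^ 6) :=
      mul_le_mul h1 hS h0 (by positivity)
    have h4 : 9 * (2 * C * T / ba * (6 / T ^ 6)) = 108 * C / ba / T ^ 5 := by
      field_simp
      norm_num
    have h5 : 108 * C / ba / T ^ 5 ≤ T / T ^ 5 := div_le_div_of_nonneg_right hg (by positivity)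
    have h6 : T / T ^ 5 ≤ 1 / T := by
      rw [div_le_div_iff₀ (by positivity) hT0]
      have : T ^ 2 ≤ T ^ 5 := pow_le_pow_right₀ hT1 (by norm_num)
      nlinarith
    linarith [mul_le_mul_of_nonneg_left h3 (by norm_num : (0 : ℝ) ≤ 9)]
  have h3 : 10 / J ≤ 10 / T := div_le_div_of_nonneg_left (by norm_num) hT0 hJge
  have h4 : 10 / T + 1 / T ≤ 12 / T := by
    rw [← add_div]
    gcongr
    norm_num
  linarith

lemma num2 {H T C2 c c2 J : ℝ} (hH : 1 ≤ H) (hT : H ^ (2 * c) ≤ T) (hC2 : 0 ≤ C2)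
    (h1 : 2 * (13 * C2) ≤ H ^ c) (h2 : 2 ≤ H ^ c) (hcc : 2 * c ≤ c2) (hJ : T ≤ J) (hT1 : 1 ≤ T) :
    C2 * (12 / T + 1 / J) + H ^ (-c2) ≤ H ^ (-c) := by
  have hHpos : 0 < H := by linarith
  have hT0 : 0 < T := by linarith
  have h3 : 12 / T + 1 / J ≤ 13 / T := by
    have h4 : 1 / J ≤ 1 / T := one_div_le_one_div_of_le hT0 hJ
    have h5 : 12 / T + 1 / T = 13 / T := by rw [← add_div]; norm_num
    linarith
  have h4 : C2 * (12 / T + 1 / J) ≤ H ^ (-c) / 2 := by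
    have h5 : C2 * (12 / T + 1 / J) ≤ C2 * (13 / T) := mul_le_mul_of_nonneg_left h3 hC2
    have h6 : (13 * C2) / T ≤ (13 * C2) / H ^ (2 * c) :=
      div_le_div_of_nonneg_left (by positivity) (by positivity) hT
    have h7 : (13 * C2) / H ^ (2 * c) ≤ (H ^ c / 2) / H ^ (2 * c) :=
      div_le_div_of_nonneg_right (by linarith) (by positivity)
    have h8 : (H ^ c / 2) / H ^ (2 * c) = H ^ (-c) / 2 := by
      rw [div_right_comm, ← Real.rpow_sub hHpos]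
      congr 2
      ring
    have h9 : C2 * (13 / T) = (13 * C2) / T := by ring
    linarith
  have h5 : H ^ (-c2) ≤ H ^ (-c) / 2 := by
    have h6 : H ^ (-c2) ≤ H ^ (-(2 * c)) := Real.rpow_le_rpow_of_exponent_le hH (by linarith)
    have h7 : H ^ (-(2 * c)) = H ^ (-c) * H ^ (-c) := by
      rw [← Real.rpow_add hHpos]; congr 1; ring
    have h8 : H ^ (-c) ≤ 1 / 2 := by
      rw [Real.rpow_neg hHpos.le, inv_le_comm₀ (by positivity) (by norm_num)]
      simpa using h2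
    have h9 : 0 < H ^ (-c) := by positivity
    nlinarith
  linarith

/-- a logarithm is smaller than a power -/
lemma ev_log (A τ : ℝ) (hA : 0 ≤ A) (hτ0 : 0 < τ) : ∀ᶠ H : ℕ in atTop,
    1 + Real.log (8 * (H : ℝ) ^ A * ((H : ℝ) ^ τ) ^ 2) ≤ ((H : ℝ) ^ τ) ^ 2 := by
  have h1 : ∀ᶠ H : ℕ in atTop, (A + 4 + 2 * τ) * Real.log H ≤ (H : ℝ) ^ (2 * τ) := by
    have h2 := isLittleO_log_rpow_atTop (r := 2 * τ) (by positivity)
    have h3 := (h2.bound (c := 1 / (A + 4 + 2 * τ)) (by positivity)).filter_mono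
      (le_refl atTop)
    have h4 := (tendsto_natCast_atTop_atTop (R := ℝ)).eventually h3
    filter_upwards [h4, eventually_ge_atTop 1] with H h5 h6
    rw [Real.norm_eq_abs, Real.norm_eq_abs, abs_of_nonneg (Real.log_natCast_nonneg H),
      abs_of_nonneg (by positivity)] at h5
    have h7 : (0 : ℝ) < A + 4 + 2 * τ := by positivity
    rw [div_mul_eq_mul_div, one_mul, le_div_iff₀ h7] at h5
    linarith
  filter_upwards [h1, eventually_ge_atTop 3] with H h2 h3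
  have hH3 : (3 : ℝ) ≤ H := by exact_mod_cast h3
  have hHpos : (0 : ℝ) < H := by linarith
  have hlog1 : 1 ≤ Real.log H := by
    rw [Real.le_log_iff_exp_le hHpos]
    have := Real.exp_one_lt_d9
    linarith
  have hlog8 : Real.log 8 ≤ 3 * Real.log H := by
    have h4 : Real.log 8 ≤ Real.log ((H : ℝ) ^ 3) := by
      apply Real.log_le_log (by norm_num)
      nlinarith [pow_le_pow_left₀ (by norm_num : (0 : ℝ) ≤ 3) hH3 3]
    rwa [Real.log_pow, Nat.cast_ofNat] at h4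
  have e1 : Real.log (8 * (H : ℝ) ^ A * ((H : ℝ) ^ τ) ^ 2) =
      Real.log 8 + A * Real.log H + 2 * τ * Real.log H := by
    rw [Real.log_mul (by positivity) (by positivity), Real.log_mul (by norm_num) (by positivity),
      Real.log_rpow hHpos, Real.log_pow, Real.log_rpow hHpos]
    push_cast
    ring
  have e2 : ((H : ℝ) ^ τ) ^ 2 = (H : ℝ) ^ (2 * τ) := by
    rw [← Real.rpow_natCast, ← Real.rpow_mul hHpos.le]
    congr 1
    push_cast
    ring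
  rw [e1, e2]
  nlinarith

/-- **the joint law of the digits of `f x` and `g x`** -/
theorem Pair.law1 (h : Pair f g f1 g1 f2 g2 a b B κ) (hf : FO f a b) (hg : FO g a b) (q : ℕ) (η : ℝ)
    (hη : 0 < η) (hη1 : η ≤ 1) : ∃ c : ℝ, 0 < c ∧ ∃ H0 : ℕ, ∀ H : ℕ, H0 ≤ H → ∀ s : Finset ℝ,
      (∀ x, x ∈ s ↔ x ∈ Alg (q + 2) H) → 0 < cn s (fun x => x ∈ Icc a b) ∧
      ∀ m K : Fin 2 → ℕ, (∀ j, (H : ℝ) ^ η ≤ m j) → (∀ j, 1 ≤ K j) →
      (∀ j, (m j : ℝ) * K j ≤ (H : ℝ) ^ ((q : ℝ) + 3 - η)) →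
      ((K 0 : ℝ) * (H : ℝ) ^ η ≤ m 1 ∨ (K 1 : ℝ) * (H : ℝ) ^ η ≤ m 0) →
      ∀ E : Finset (Fin 2 → ℕ), (∀ w ∈ E, ∀ j, w j < K j) →
      |(cn s (fun x => x ∈ PV a b m K f g E) : ℝ) / (cn s (fun x => x ∈ Icc a b) : ℝ) -
        (E.card : ℝ) / (K 0 * K 1 : ℝ)| ≤ (H : ℝ) ^ (-c) := by
  classical
  have hab := h.hab
  have hba : 0 < b - a := by linarith
  have hfc : ContinuousOn f (Icc a b) := fun x hx => (h.hf1 x hx).continuousAt.continuousWithinAt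
  have hgc : ContinuousOn g (Icc a b) := fun x hx => (h.hg1 x hx).continuousAt.continuousWithinAt
  obtain ⟨C, δ, hC, hδ, hosc⟩ := h.osc
  obtain ⟨C1, hC1, hoff⟩ := PV_off hf hg
  obtain ⟨C2, hC2, c2, hc2, H2, hglue⟩ := glue q hab (η / 2) (by positivity) (by linarith)
  obtain ⟨τ, hτ⟩ : ∃ τ : ℝ, τ = η / 16 := ⟨_, rfl⟩
  have hτ0 : 0 < τ := by rw [hτ]; positivity
  obtain ⟨c, hc⟩ : ∃ c : ℝ, c = min (τ / 2) (c2 / 2) := ⟨_, rfl⟩
  have hc0 : 0 < c := by rw [hc]; exact lt_min (by positivity) (by positivity)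
  have hcτ : 2 * c ≤ τ := by
    have : c ≤ τ / 2 := by rw [hc]; exact min_le_left _ _
    linarith
  have hcc2 : 2 * c ≤ c2 := by
    have : c ≤ c2 / 2 := by rw [hc]; exact min_le_right _ _
    linarith
  have hlogev := ev_log ((q : ℝ) + 3) τ (by positivity) hτ0
  have hev : ∀ᶠ H : ℕ in atTop, 108 * C / (b - a) ≤ (H : ℝ) ^ τ ∧ (b - a) / δ ≤ (H : ℝ) ^ τ ∧
      2 * C1 ≤ (H : ℝ) ^ (η / 2) ∧ 2 * (13 * C2) ≤ (H : ℝ) ^ c ∧ 2 ≤ (H : ℝ) ^ c ∧ H2 ≤ H ∧ 2 ≤ H := by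
    filter_upwards [ev_rpow (108 * C / (b - a)) τ hτ0, ev_rpow ((b - a) / δ) τ hτ0,
      ev_rpow (2 * C1) (η / 2) (by positivity), ev_rpow (2 * (13 * C2)) c hc0, ev_rpow 2 c hc0,
      eventually_ge_atTop H2, eventually_ge_atTop 2] with H a1 a2 a3 a4 a5 a6 a7
    exact ⟨a1, a2, a3, a4, a5, a6, a7⟩
  obtain ⟨H0, hH0⟩ := Filter.eventually_atTop.1 (hev.and hlogev)
  refine ⟨c, hc0, H0, fun H hH s hs => ?_⟩
  obtain ⟨⟨g1', g2', g3', g4', g5', g6', g7'⟩, hlog⟩ := hH0 H hH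
  have hHR2 : (2 : ℝ) ≤ H := by exact_mod_cast g7'
  have hHR : (1 : ℝ) ≤ H := by linarith
  have hHpos : (0 : ℝ) < H := by linarith
  have hq0 : (0 : ℝ) ≤ q := Nat.cast_nonneg q
  obtain ⟨hpos, hgl⟩ := hglue H g6' s hs
  refine ⟨hpos, fun m K hm hK hmK hcond E hE => ?_⟩
  obtain ⟨T, hT⟩ : ∃ T : ℝ, T = (H : ℝ) ^ τ := ⟨_, rfl⟩
  have hT1 : 1 ≤ T := by rw [hT]; exact Real.one_le_rpow hHR hτ0.le
  have hT0 : 0 < T := by linarith
  rw [← hT] at g1' g2' hlog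
  have hT16 : (H : ℝ) ^ η = T ^ 16 := by
    rw [hT, ← Real.rpow_natCast, ← Real.rpow_mul hHpos.le]
    congr 1
    rw [hτ]
    push_cast
    ring
  have hm1 : ∀ j, 1 ≤ m j := by
    intro j
    have h1 : (1 : ℝ) ≤ m j := (Real.one_le_rpow hHR hη.le).trans (hm j)
    exact_mod_cast h1
  have hK0 : ∀ j, 0 < K j := fun j => hK j
  have hKX : ∀ j, (K j : ℝ) ≤ (H : ℝ) ^ ((q : ℝ) + 3) := by
    intro j
    have h1 : (1 : ℝ) ≤ m j := by exact_mod_cast hm1 j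
    have h2 : (K j : ℝ) ≤ (m j : ℝ) * K j := by
      have : (0 : ℝ) ≤ K j := Nat.cast_nonneg _
      nlinarith
    exact h2.trans ((hmK j).trans (Real.rpow_le_rpow_of_exponent_le hHR (by linarith)))
  obtain ⟨J, hJ⟩ : ∃ J : ℕ, J = ⌈T⌉₊ := ⟨_, rfl⟩
  have hJpos : 0 < J := by rw [hJ]; exact Nat.ceil_pos.2 hT0
  have hJge : T ≤ J := by rw [hJ]; exact Nat.le_ceil T
  have hJle : (J : ℝ) ≤ 2 * T := by rw [hJ]; exact ceil_le_two hT1
  have hJR : (0 : ℝ) < J := by linarith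
  -- the double sum
  obtain ⟨S, hSle, hS⟩ : ∃ S : ℝ, √S ≤ 6 / T ^ 6 ∧
      ∑ k ∈ (box (rad K J)).erase 0, 1 / (|(k 0 : ℝ)| * m 0 + |(k 1 : ℝ)| * m 1) ≤ S := by
    rcases hcond with hcond | hcond
    · rw [hT16] at hcond
      refine ⟨SS m K J, SS_size hT1 hJ hm1 hK0 ?_ hcond hKX hlog, SS_le m K hm1 hK0 hJpos⟩
      rw [← hT16]; exact hm 0
    · rw [hT16] at hcond
      refine ⟨SS ![m 1, m 0] ![K 1, K 0] J, ?_, SS_le' m K hm1 hK0 hJpos⟩
      refine SS_size (X := (H : ℝ) ^ ((q : ℝ) + 3)) hT1 hJ (fun j => ?_) (fun j => ?_) ?_ ?_ (fun j => ?_) hlog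
      · fin_cases j
        · exact hm1 1
        · exact hm1 0
      · fin_cases j
        · exact hK0 1
        · exact hK0 0
      · rw [← hT16]; exact hm 1
      · exact hcond
      · fin_cases j
        · exact hKX 1
        · exact hKX 0
  -- boundary points
  obtain ⟨Q, hQ, hoffQ⟩ := hoff m K hm1 hK
  have hQ2 : (Q.card : ℝ) ≤ (H : ℝ) ^ ((q : ℝ) + 3 - η / 2) := by
    refine hQ.trans ?_
    have h1 : C1 * ((m 0 : ℝ) * K 0 + (m 1 : ℝ) * K 1) ≤ (2 * C1) * (H : ℝ) ^ ((q : ℝ) + 3 - η) := by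
      have := hmK 0
      have := hmK 1
      nlinarith
    refine h1.trans ?_
    calc (2 * C1) * (H : ℝ) ^ ((q : ℝ) + 3 - η) ≤ (H : ℝ) ^ (η / 2) * (H : ℝ) ^ ((q : ℝ) + 3 - η) := by
          gcongr
      _ = _ := by
          rw [← Real.rpow_add hHpos]
          congr 1
          ring
  have hVmeas := PV_meas hab.le m K hfc hgc E
  have he0 : 0 ≤ (E.card : ℝ) / (K 0 * K 1 : ℝ) := by positivity
  have he1 : (E.card : ℝ) / (K 0 * K 1 : ℝ) ≤ 1 := by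
    have h1 : E ⊆ Fintype.piFinset fun j => Finset.range (K j) := by
      intro w hw
      rw [Fintype.mem_piFinset]
      intro j
      rw [Finset.mem_range]
      exact hE w hw j
    have h2 := Finset.card_le_card h1
    rw [Fintype.card_piFinset] at h2
    simp only [Finset.card_range, Fin.prod_univ_two] at h2
    have h3 : (0 : ℝ) < (K 0 * K 1 : ℝ) := by
      have h4 : (0 : ℝ) < K 0 := by exact_mod_cast hK0 0
      have h5 : (0 : ℝ) < K 1 := by exact_mod_cast hK0 1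
      positivity
    rw [div_le_one h3]
    exact_mod_cast h2
  obtain ⟨err, herr⟩ : ∃ err : ℝ, err = 12 / T := ⟨_, rfl⟩
  have hfinal := hgl (PV a b m K f g E) hVmeas (fun t ht => ht.1) Q hQ2 (hoffQ E)
    ((E.card : ℝ) / (K 0 * K 1 : ℝ)) err he0 he1 J hJpos (by
      intro i hi
      have hstep := tp_succ a b hJpos i
      have ht0 := tp_mem hab hJpos hi.le
      have ht1 := tp_mem hab hJpos (Nat.succ_le_of_lt hi)
      rw [Nat.succ_eq_add_one] at ht1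
      have hℓ : 0 < (b - a) / (J : ℝ) := by positivity
      have hlen : tp a b J (i + 1) - tp a b J i = (b - a) / J := by rw [hstep]; ring
      have hlenδ : (b - a) / (J : ℝ) ≤ δ := by
        rw [div_le_iff₀ hJR]
        rw [div_le_iff₀ hδ] at g2'
        nlinarith
      have hil := interval_law h hC hosc (α := tp a b J i) (β := tp a b J (i + 1)) ht0.1
        (by linarith) ht1.2 (by rw [hlen]; exact hlenδ) m K hm1 hK0 hJpos E hE hS
      rw [hlen] at hil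
      refine hil.trans (mul_le_mul_of_nonneg_right ?_ hℓ.le)
      rw [herr]
      exact num1 hC hba hT1 hJR hJle hJge g1' hSle)
  refine hfinal.trans ?_
  rw [herr]
  refine num2 hHR ?_ hC2 g4' g5' hcc2 hJge hT1
  rw [hT]
  exact Real.rpow_le_rpow_of_exponent_le hHR hcτ

end Pool.Agent.W5h30.SM
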