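import Pool.Agent.W5h30.SM.Ker

/-!
# Smoothing: joint laws of the cells of a random point of a torus from its Fourier coefficients
(helper30)
-/

set_option autoImplicit false
set_option linter.unusedSectionVars false
set_option linter.unusedVariables false

namespace Pool.Agent.W5h30.SM

open Finset Real MeasureTheory Pool.Agent.Y933.KD

variable {ι : Type} [Fintype ι] [DecidableEq ι]

lemma e_sum (s : Finset ι) (f : ι → ℝ) : e (∑ j ∈ s, f j) = ∏ j ∈ s, e (f j) := by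
  induction s using Finset.induction_on with
  | empty => simp [e_zero]
  | insert a s ha ih => rw [sum_insert ha, prod_insert ha, e_add, ih]

lemma Ph_le_one {R : ℕ} (hR : 0 < R) (x : ℝ) : Ph R x ≤ 1 := by
  have h := partition hR x
  have h0 : 0 ∈ range (4 * R) := by rw [mem_range]; omega
  calc Ph R x = Ph R (x - ((0 : ℕ) : ℝ) / (4 * R : ℕ)) := by simp
    _ ≤ ∑ y ∈ range (4 * R), Ph R (x - y / (4 * R : ℕ)) :=
        single_le_sum (f := fun y : ℕ => Ph R (x - y / (4 * R : ℕ))) (fun y _ => Ph_nonneg _ _) h0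
    _ = 1 := h

/-- the frequency box -/
noncomputable def box (R : ι → ℕ) : Finset (ι → ℤ) :=
  Fintype.piFinset fun j => Ioo (-(2 * R j : ℤ)) (2 * R j)

/-- the grid -/
def grid (R : ι → ℕ) : Finset (ι → ℕ) := Fintype.piFinset fun j => range (4 * R j)

/-- the product kernel -/
noncomputable def Q (R : ι → ℕ) (u : ι → ℝ) (y : ι → ℕ) : ℝ :=
  ∏ j, Ph (R j) (u j - y j / (4 * R j : ℕ))

lemma Q_nonneg (R : ι → ℕ) (u : ι → ℝ) (y : ι → ℕ) : 0 ≤ Q R u y :=
  prod_nonneg fun _ _ => Ph_nonneg _ _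

lemma Q_le_one (R : ι → ℕ) (hR : ∀ j, 0 < R j) (u : ι → ℝ) (y : ι → ℕ) : Q R u y ≤ 1 :=
  prod_le_one (fun _ _ => Ph_nonneg _ _) fun j _ => Ph_le_one (hR j) _

lemma Q_expand (R : ι → ℕ) (hR : ∀ j, 0 < R j) (u : ι → ℝ) (y : ι → ℕ) :
    (Q R u y : ℂ) = ∑ k ∈ box R, (∏ j, (cf (R j) (k j) : ℂ)) *
      (e (∑ j, k j * u j) * e (-∑ j, (k j * (y j / (4 * R j : ℕ) : ℝ)))) := by
  unfold Q box
  rw [Complex.ofReal_prod]
  simp only [Ph_expand (hR _)]
  rw [prod_univ_sum]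
  refine sum_congr rfl fun k _ => ?_
  rw [prod_mul_distrib]
  congr 1
  rw [← sum_neg_distrib, e_sum, e_sum, ← prod_mul_distrib]
  refine prod_congr rfl fun j _ => ?_
  rw [← e_add]
  congr 1
  ring

/-- orthogonality on the grid, several variables -/
lemma orth_grid (R : ι → ℕ) (hR : ∀ j, 0 < R j) (k k' : ι → ℤ) (hk : k ∈ box R)
    (hk' : k' ∈ box R) :
    ∑ y ∈ grid R, e (-∑ j, (((k j - k' j : ℤ) : ℝ) * (y j / (4 * R j : ℕ) : ℝ))) =
      if k = k' then ∏ j, ((4 * R j : ℕ) : ℂ) else 0 := by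
  have h1 : ∀ y : ι → ℕ, e (-∑ j, (((k j - k' j : ℤ) : ℝ) * (y j / (4 * R j : ℕ) : ℝ))) =
      ∏ j, e (-(((k j - k' j : ℤ) : ℝ) * (y j / (4 * R j : ℕ) : ℝ))) := by
    intro y
    rw [← sum_neg_distrib, e_sum]
  simp only [h1]
  unfold grid
  rw [← prod_univ_sum (t := fun j => range (4 * R j))
    (f := fun j (y : ℕ) => e (-(((k j - k' j : ℤ) : ℝ) * (y / (4 * R j : ℕ) : ℝ))))]
  have h2 : ∀ j, ∑ y ∈ range (4 * R j), e (-(((k j - k' j : ℤ) : ℝ) * (y / (4 * R j : ℕ) : ℝ))) =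
      if k j = k' j then ((4 * R j : ℕ) : ℂ) else 0 := by
    intro j
    have hj := hR j
    unfold box at hk hk'
    rw [Fintype.mem_piFinset] at hk hk'
    have a1 := mem_Ioo.1 (hk j)
    have a2 := mem_Ioo.1 (hk' j)
    rw [orth (by omega) (k j - k' j) (by rw [abs_lt]; push_cast; omega)]
    by_cases h : k j = k' j
    · rw [if_pos (by omega), if_pos h]
    · rw [if_neg (by omega), if_neg h]
  rw [prod_congr rfl fun j _ => h2 j]
  split_ifs with h0
  · subst h0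
    simp
  · rw [prod_eq_zero_iff]
    obtain ⟨j, hj⟩ := Function.ne_iff.1 h0
    exact ⟨j, mem_univ _, by rw [if_neg hj]⟩

/-- Parseval -/
lemma parseval (R : ι → ℕ) (hR : ∀ j, 0 < R j) (a : (ι → ℤ) → ℂ) :
    ∑ y ∈ grid R, ‖∑ k ∈ box R, a k * e (-∑ j, (k j * (y j / (4 * R j : ℕ) : ℝ)))‖ ^ 2 =
      (∏ j, ((4 * R j : ℕ) : ℝ)) * ∑ k ∈ box R, ‖a k‖ ^ 2 := by
  have h1 : ((∑ y ∈ grid R, ‖∑ k ∈ box R, a k *
      e (-∑ j, (k j * (y j / (4 * R j : ℕ) : ℝ)))‖ ^ 2 : ℝ) : ℂ) =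
      (((∏ j, ((4 * R j : ℕ) : ℝ)) * ∑ k ∈ box R, ‖a k‖ ^ 2 : ℝ) : ℂ) := by
    rw [Complex.ofReal_sum]
    have h2 : ∀ y : ι → ℕ, ((‖∑ k ∈ box R, a k *
        e (-∑ j, (k j * (y j / (4 * R j : ℕ) : ℝ)))‖ ^ 2 : ℝ) : ℂ) =
        ∑ k ∈ box R, ∑ k' ∈ box R, (a k * (starRingEnd ℂ) (a k')) *
          e (-∑ j, (((k j - k' j : ℤ) : ℝ) * (y j / (4 * R j : ℕ) : ℝ))) := by
      intro y
      have h3 : ∀ z : ℂ, ((‖z‖ ^ 2 : ℝ) : ℂ) = z * (starRingEnd ℂ) z := by
        intro z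
        rw [Complex.mul_conj, Complex.normSq_eq_norm_sq]
      rw [h3, map_sum, sum_mul_sum]
      refine sum_congr rfl fun k _ => sum_congr rfl fun k' _ => ?_
      rw [map_mul, ← e_neg]
      have h4 : e (-∑ j, (((k j - k' j : ℤ) : ℝ) * (y j / (4 * R j : ℕ) : ℝ))) =
          e (-∑ j, (k j * (y j / (4 * R j : ℕ) : ℝ))) *
          e (- -∑ j, (k' j * (y j / (4 * R j : ℕ) : ℝ))) := by
        rw [← e_add, neg_neg]
        congr 1
        rw [← sum_neg_distrib, ← sum_neg_distrib, ← sum_add_distrib]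
        refine sum_congr rfl fun j _ => ?_
        push_cast
        ring
      rw [h4]
      ring
    simp only [h2]
    rw [sum_comm]
    have h5 : ∀ k ∈ box R, ∑ y ∈ grid R, ∑ k' ∈ box R, (a k * (starRingEnd ℂ) (a k')) *
          e (-∑ j, (((k j - k' j : ℤ) : ℝ) * (y j / (4 * R j : ℕ) : ℝ))) =
          (a k * (starRingEnd ℂ) (a k)) * ∏ j, ((4 * R j : ℕ) : ℂ) := by
      intro k hk
      rw [sum_comm]
      have h6 : ∀ k' ∈ box R, ∑ y ∈ grid R, (a k * (starRingEnd ℂ) (a k')) *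
          e (-∑ j, (((k j - k' j : ℤ) : ℝ) * (y j / (4 * R j : ℕ) : ℝ))) =
          if k' = k then (a k * (starRingEnd ℂ) (a k')) * ∏ j, ((4 * R j : ℕ) : ℂ) else 0 := by
        intro k' hk'
        rw [← mul_sum, orth_grid R hR k k' hk hk']
        by_cases h : k = k'
        · rw [if_pos h, if_pos h.symm]
        · rw [if_neg h, if_neg (fun h' => h h'.symm), mul_zero]
      rw [sum_congr rfl h6, sum_ite_eq', if_pos hk]
    rw [sum_congr rfl h5, ← sum_mul]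
    push_cast
    rw [mul_comm]
    congr 1
    refine sum_congr rfl fun k _ => ?_
    rw [Complex.mul_conj, Complex.normSq_eq_norm_sq]
    push_cast
    rfl
  exact_mod_cast h1

variable {Ω : Type*} [MeasurableSpace Ω]

/-- Fourier coefficients -/
noncomputable def hat (μ : Measure Ω) (u : ι → Ω → ℝ) (k : ι → ℤ) : ℂ :=
  ∫ ω, e (∑ j, k j * u j ω) ∂μ

lemma e_meas {f : Ω → ℝ} (hf : Measurable f) : Measurable fun ω => e (f ω) :=
  continuous_e.measurable.comp hf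

lemma e_int' (μ : Measure Ω) [IsFiniteMeasure μ] {f : Ω → ℝ} (hf : Measurable f) :
    Integrable (fun ω => e (f ω)) μ :=
  Integrable.of_bound (e_meas hf).aestronglyMeasurable 1
    (Filter.Eventually.of_forall fun ω => (norm_e _).le)

lemma hat_le (μ : Measure Ω) [IsProbabilityMeasure μ] (u : ι → Ω → ℝ) (k : ι → ℤ) :
    ‖hat μ u k‖ ≤ 1 := by
  unfold hat
  have := norm_integral_le_of_norm_le_const (μ := μ) (f := fun ω => e (∑ j, k j * u j ω)) (C := 1)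
    (Filter.Eventually.of_forall fun ω => (norm_e _).le)
  simpa using this

lemma hat_zero (μ : Measure Ω) [IsProbabilityMeasure μ] (u : ι → Ω → ℝ) :
    hat μ u 0 = 1 := by
  unfold hat
  simp [e_zero]

lemma Q_int (μ : Measure Ω) [IsFiniteMeasure μ] (R : ι → ℕ) (hR : ∀ j, 0 < R j)
    (u : ι → Ω → ℝ) (hu : ∀ j, Measurable (u j)) (y : ι → ℕ) :
    Integrable (fun ω => Q R (fun j => u j ω) y) μ := by
  refine Integrable.of_bound ?_ 1 (Filter.Eventually.of_forall fun ω => ?_)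
  · unfold Q
    refine Measurable.aestronglyMeasurable ?_
    refine Finset.measurable_prod _ fun j _ => ?_
    exact (Ph_cont _).measurable.comp ((hu j).sub_const _)
  · rw [Real.norm_eq_abs, abs_of_nonneg (Q_nonneg _ _ _)]
    exact Q_le_one R hR _ _

lemma int_Q (μ : Measure Ω) [IsProbabilityMeasure μ] (R : ι → ℕ) (hR : ∀ j, 0 < R j)
    (u : ι → Ω → ℝ) (hu : ∀ j, Measurable (u j)) (y : ι → ℕ) :
    ((∫ ω, Q R (fun j => u j ω) y ∂μ : ℝ) : ℂ) =
      ∑ k ∈ box R, ((∏ j, (cf (R j) (k j) : ℂ)) * hat μ u k) *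
        e (-∑ j, (k j * (y j / (4 * R j : ℕ) : ℝ))) := by
  rw [← integral_complex_ofReal]
  simp only [Q_expand R hR]
  rw [integral_finsetSum]
  · refine sum_congr rfl fun k _ => ?_
    unfold hat
    rw [integral_const_mul, integral_mul_const]
    ring
  · intro k _
    refine Integrable.const_mul (Integrable.mul_const (e_int' μ ?_) _) _
    refine Finset.measurable_sum _ fun j _ => ?_
    exact (hu j).const_mul _

/-- the `L²` estimate -/
lemma l2 (μ : Measure Ω) [IsProbabilityMeasure μ] (R : ι → ℕ) (hR : ∀ j, 0 < R j)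
    (u : ι → Ω → ℝ) (hu : ∀ j, Measurable (u j)) :
    ∑ y ∈ grid R, ((∫ ω, Q R (fun j => u j ω) y ∂μ) - ∏ j, (1 / ((4 * R j : ℕ) : ℝ))) ^ 2 ≤
      (∏ j, (1 / ((4 * R j : ℕ) : ℝ))) * ∑ k ∈ (box R).erase 0, ‖hat μ u k‖ ^ 2 := by
  classical
  have h0mem : (0 : ι → ℤ) ∈ box R := by
    unfold box
    rw [Fintype.mem_piFinset]
    intro j
    have := hR j
    rw [mem_Ioo]
    simp only [Pi.zero_apply]
    omega
  set a : (ι → ℤ) → ℂ := fun k => if k = 0 then 0 else (∏ j, (cf (R j) (k j) : ℂ)) * hat μ u k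
    with ha
  have h1 : ∀ y : ι → ℕ, ((((∫ ω, Q R (fun j => u j ω) y ∂μ) -
      ∏ j, (1 / ((4 * R j : ℕ) : ℝ)) : ℝ)) : ℂ) =
      ∑ k ∈ box R, a k * e (-∑ j, (k j * (y j / (4 * R j : ℕ) : ℝ))) := by
    intro y
    rw [Complex.ofReal_sub, int_Q μ R hR u hu y, ← add_sum_erase _ _ h0mem,
      ← add_sum_erase _ _ h0mem]
    have h2 : (∏ j, (cf (R j) ((0 : ι → ℤ) j) : ℂ)) * hat μ u 0 *
        e (-∑ j, (((0 : ι → ℤ) j : ℝ) * (y j / (4 * R j : ℕ) : ℝ))) =
        ((∏ j, (1 / ((4 * R j : ℕ) : ℝ)) : ℝ) : ℂ) := by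
      rw [hat_zero]
      simp only [Pi.zero_apply, Int.cast_zero, zero_mul, sum_const_zero, neg_zero, e_zero, mul_one]
      rw [Complex.ofReal_prod]
      refine prod_congr rfl fun j _ => ?_
      rw [cf_zero (hR j)]
      push_cast
      rfl
    rw [h2]
    have h3 : a 0 = 0 := by rw [ha]; simp
    rw [h3, zero_mul, zero_add, add_sub_cancel_left]
    refine sum_congr rfl fun k hk => ?_
    have hk0 : k ≠ 0 := (mem_erase.1 hk).1
    rw [ha]
    simp only [if_neg hk0]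
  have h2 : ∀ y : ι → ℕ, ((∫ ω, Q R (fun j => u j ω) y ∂μ) -
      ∏ j, (1 / ((4 * R j : ℕ) : ℝ))) ^ 2 =
      ‖∑ k ∈ box R, a k * e (-∑ j, (k j * (y j / (4 * R j : ℕ) : ℝ)))‖ ^ 2 := by
    intro y
    rw [← h1 y, Complex.norm_real, Real.norm_eq_abs, sq_abs]
  rw [sum_congr rfl fun y _ => h2 y, parseval R hR a, ← add_sum_erase _ _ h0mem]
  have h3 : a 0 = 0 := by rw [ha]; simp
  rw [h3, norm_zero, zero_pow two_ne_zero, zero_add, mul_sum, mul_sum]
  refine sum_le_sum fun k hk => ?_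
  have hk0 : k ≠ 0 := (mem_erase.1 hk).1
  rw [ha]
  simp only [if_neg hk0]
  rw [norm_mul, mul_pow, ← mul_assoc]
  refine mul_le_mul_of_nonneg_right ?_ (by positivity)
  rw [norm_prod, ← prod_pow, ← prod_mul_distrib]
  refine prod_le_prod (fun _ _ => by positivity) fun j _ => ?_
  have hj : (0 : ℝ) < R j := by exact_mod_cast hR j
  rw [Complex.norm_real, Real.norm_eq_abs, abs_of_nonneg (cf_nonneg _ _)]
  have h4 := cf_le (hR j) (k j)
  have h5 := cf_nonneg (R j) (k j)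
  push_cast
  calc 4 * (R j : ℝ) * cf (R j) (k j) ^ 2 ≤ 4 * (R j : ℝ) * (1 / (4 * (R j : ℝ))) ^ 2 := by gcongr
    _ = 1 / (4 * (R j : ℝ)) := by field_simp

end Pool.Agent.W5h30.SM
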